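import Mathlib

open MeasureTheory Filter Topology
open scoped NNReal ENNReal CompactlySupported

namespace Pool.Agent.Lib.MP_a34d76_pr

/-- A positive functional given on the range of a linear map into `C(K, ℝ)` that contains the
constants is represented by a measure. -/
theorem exists_measure_of_nonneg {K : Type*} [TopologicalSpace K] [T2Space K] [CompactSpace K]
    [MeasurableSpace K] [BorelSpace K] {V : Type*} [AddCommGroup V] [Module ℝ V]
    (A : V →ₗ[ℝ] C(K, ℝ)) (L : V →ₗ[ℝ] ℝ) (hpos : ∀ v, (∀ x, 0 ≤ A v x) → 0 ≤ L v)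
    (e : V) (he : A e = 1) :
    ∃ μ : Measure K, IsFiniteMeasure μ ∧ ∀ v, ∫ x, A v x ∂μ = L v := by
  have hker : LinearMap.ker A ≤ LinearMap.ker L := by
    intro v hv
    rw [LinearMap.mem_ker] at hv ⊢
    have h1 := hpos v (fun x => by rw [hv]; simp)
    have h2 := hpos (-v) (fun x => by rw [map_neg, hv]; simp)
    rw [map_neg] at h2
    linarith
  set f : C(K, ℝ) →ₗ.[ℝ] ℝ :=
    { domain := LinearMap.range A
      toFun := ((LinearMap.ker A).liftQ L hker).comp A.quotKerEquivRange.symm.toLinearMap } with hf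
  have hfA : ∀ v, f ⟨A v, LinearMap.mem_range_self A v⟩ = L v := by
    intro v
    change ((LinearMap.ker A).liftQ L hker) (A.quotKerEquivRange.symm ⟨A v, _⟩) = L v
    rw [LinearMap.quotKerEquivRange_symm_apply_image, Submodule.mkQ_apply, Submodule.liftQ_apply]
  set s : PointedCone ℝ C(K, ℝ) := PointedCone.positive ℝ C(K, ℝ) with hs
  obtain ⟨g, hg1, hg2⟩ := riesz_extension s f (by
    rintro ⟨x, v, rfl⟩ hx
    rw [hfA]
    apply hpos
    intro y
    have : (0 : C(K, ℝ)) ≤ A v := hx
    exact this y) (by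
    intro y
    refine ⟨⟨A (‖y‖ • e), LinearMap.mem_range_self A _⟩, ?_⟩
    change (0 : C(K, ℝ)) ≤ A (‖y‖ • e) + y
    intro x
    have h1 := ContinuousMap.norm_coe_le_norm y x
    have h2 := neg_abs_le (y x)
    rw [Real.norm_eq_abs] at h1
    rw [map_smul, he]
    change (0 : ℝ) ≤ ‖y‖ * 1 + y x
    linarith)
  set Λ : C_c(K, ℝ) →ₚ[ℝ] ℝ :=
    { toFun := fun φ => g φ.toContinuousMap
      map_add' := fun φ ψ => by
        rw [← map_add]; rfl
      map_smul' := fun c φ => by
        rw [RingHom.id_apply, ← map_smul]; rfl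
      monotone' := by
        intro φ ψ h
        have h1 : 0 ≤ g (ψ.toContinuousMap - φ.toContinuousMap) := by
          apply hg2
          change (0 : C(K, ℝ)) ≤ _
          intro x
          have : φ x ≤ ψ x := h x
          exact sub_nonneg.2 this
        rw [map_sub] at h1
        exact sub_nonneg.1 h1 } with hΛ
  refine ⟨RealRMK.rieszMeasure Λ, ?_, ?_⟩
  · constructor
    have h1 := RealRMK.rieszMeasure_le_of_eq_one Λ
      (f := CompactlySupportedContinuousMap.continuousMapEquiv (1 : C(K, ℝ)))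
      (fun x => by simp) isCompact_univ (fun x _ => by simp)
    exact h1.trans_lt ENNReal.ofReal_lt_top
  · intro v
    have h1 := RealRMK.integral_rieszMeasure Λ
      (CompactlySupportedContinuousMap.continuousMapEquiv (A v))
    have h2 : Λ (CompactlySupportedContinuousMap.continuousMapEquiv (A v)) = g (A v) := rfl
    rw [h2] at h1
    have h3 := hg1 ⟨A v, LinearMap.mem_range_self A v⟩
    rw [hfA] at h3
    rw [← h3, ← h1]
    rfl

/-- The configurations. -/
def Conf (n : ℕ) {d : ℕ} (D : Set (Fin d → ℝ)) : Set (Fin n → Fin d → ℝ) :=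
  {x | (∀ i, x i ∈ D) ∧ ∑ i, x i = 0}

lemma isCompact_conf {n d : ℕ} {D : Set (Fin d → ℝ)} (hD : IsCompact D) :
    IsCompact (Conf n D) := by
  have h1 : IsCompact (Set.pi Set.univ fun _ : Fin n => D) := isCompact_univ_pi fun _ => hD
  have h2 : IsClosed {x : Fin n → Fin d → ℝ | ∑ i, x i = 0} :=
    isClosed_eq (by fun_prop) continuous_const
  have h3 : Conf n D = (Set.pi Set.univ fun _ : Fin n => D) ∩ {x | ∑ i, x i = 0} := by
    ext x; simp [Conf]
  rw [h3]
  exact h1.inter_right h2

/-- Cyclic shifts of configurations are configurations, so the sum over all pairs is a sum of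
admissible sums. -/
lemma symm_pos {n d : ℕ} {D : Set (Fin d → ℝ)} (g : Fin n → (Fin d → ℝ) → ℝ)
    (h : ∀ x ∈ Conf n D, 0 ≤ ∑ i, g i (x i)) {x : Fin n → Fin d → ℝ} (hx : x ∈ Conf n D) :
    0 ≤ ∑ i, ∑ j, g j (x i) := by
  rcases Nat.eq_zero_or_pos n with rfl | hn
  · simp
  have : NeZero n := ⟨hn.ne'⟩
  have h1 : ∀ σ : Fin n, 0 ≤ ∑ j, g j (x (σ + j)) := by
    intro σ
    refine h (fun j => x (σ + j)) ⟨fun i => hx.1 _, ?_⟩
    rw [← hx.2]
    exact Fintype.sum_equiv (Equiv.addLeft σ) _ _ fun i => rfl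
  have h2 : ∑ i, ∑ j, g j (x i) = ∑ σ : Fin n, ∑ j, g j (x (σ + j)) := by
    rw [Finset.sum_comm, Finset.sum_comm (f := fun σ j => g j (x (σ + j)))]
    refine Finset.sum_congr rfl fun j _ => ?_
    exact (Fintype.sum_equiv (Equiv.addRight j) _ _ fun i => rfl).symm
  rw [h2]
  exact Finset.sum_nonneg fun σ _ => h1 σ

/-- Duality for complete mixability. -/
theorem exists_coupling {d n : ℕ} (hn : 0 < n) {D : Set (Fin d → ℝ)} (hD : IsCompact D)
    {Q : Measure (Fin d → ℝ)} [IsProbabilityMeasure Q] (hQ : ∀ᵐ x ∂Q, x ∈ D)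
    (H : ∀ g : C(Fin d → ℝ, ℝ), (∀ x ∈ Conf n D, 0 ≤ ∑ i, g (x i)) → 0 ≤ ∫ x, g x ∂Q) :
    ∃ P : Measure (Fin n → Fin d → ℝ), IsProbabilityMeasure P ∧
      (∀ i, P.map (fun x => x i) = Q) ∧ ∀ᵐ x ∂P, ∑ i, x i = 0 := by
  have hint : ∀ g : C(Fin d → ℝ, ℝ), Integrable g Q := by
    intro g
    obtain ⟨C, hC⟩ := hD.exists_bound_of_continuousOn g.continuous.continuousOn
    refine Integrable.of_bound g.continuous.aestronglyMeasurable C ?_
    filter_upwards [hQ] with x hx using hC x hx
  have hK := isCompact_conf (n := n) hD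
  have : CompactSpace (Conf n D) := isCompact_iff_compactSpace.1 hK
  set ev : Fin n → C(Conf n D, Fin d → ℝ) := fun i =>
    ⟨fun x => x.1 i, (continuous_apply i).comp continuous_subtype_val⟩ with hev
  set A : (Fin n → C(Fin d → ℝ, ℝ)) →ₗ[ℝ] C(Conf n D, ℝ) :=
    { toFun := fun g => ∑ i, (g i).comp (ev i)
      map_add' := fun g g' => by
        rw [← Finset.sum_add_distrib]; rfl
      map_smul' := fun c g => by
        rw [RingHom.id_apply, Finset.smul_sum]; rfl } with hA
  have hAx : ∀ g x, A g x = ∑ i, g i (x.1 i) := by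
    intro g x
    change (∑ i, (g i).comp (ev i)) x = _
    rw [ContinuousMap.sum_apply]
    rfl
  set L : (Fin n → C(Fin d → ℝ, ℝ)) →ₗ[ℝ] ℝ :=
    { toFun := fun g => ∑ i, ∫ x, g i x ∂Q
      map_add' := fun g g' => by
        rw [← Finset.sum_add_distrib]
        refine Finset.sum_congr rfl fun i _ => ?_
        exact integral_add (hint (g i)) (hint (g' i))
      map_smul' := fun c g => by
        rw [RingHom.id_apply, smul_eq_mul, Finset.mul_sum]
        refine Finset.sum_congr rfl fun i _ => ?_
        exact integral_const_mul c _ } with hL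
  have hLx : ∀ g, L g = ∑ i, ∫ x, g i x ∂Q := fun g => rfl
  have hn' : (n : ℝ) ≠ 0 := by exact_mod_cast hn.ne'
  obtain ⟨μ, hμ, hμi⟩ := exists_measure_of_nonneg A L (by
    intro g hg
    have h1 := H (∑ j, g j) (by
      intro x hx
      have h2 := symm_pos (fun j => g j) (fun y hy => by
        have := hg ⟨y, hy⟩
        rwa [hAx] at this) hx
      refine h2.trans_eq (Finset.sum_congr rfl fun i _ => ?_)
      rw [ContinuousMap.sum_apply])
    rw [hLx, ← integral_finsetSum _ (fun i _ => hint (g i))]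
    refine h1.trans_eq (integral_congr_ae (Eventually.of_forall fun x => ?_))
    exact ContinuousMap.sum_apply _ _ _) (fun _ => ContinuousMap.const _ (n : ℝ)⁻¹) (by
    ext x
    rw [hAx]
    simp [hn'])
  have hμ1 : μ Set.univ = 1 := by
    have h1 := hμi (fun _ => ContinuousMap.const _ (n : ℝ)⁻¹)
    rw [hLx] at h1
    have h2 : ∀ x, A (fun _ => ContinuousMap.const _ (n : ℝ)⁻¹) x = 1 := by
      intro x
      rw [hAx]
      simp [hn']
    simp_rw [h2] at h1
    simp only [integral_const, smul_eq_mul, mul_one, ContinuousMap.const_apply, probReal_univ,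
      one_mul, Finset.sum_const, Finset.card_univ, Fintype.card_fin, nsmul_eq_mul,
      mul_inv_cancel₀ hn'] at h1
    rw [Measure.real] at h1
    rw [← ENNReal.toReal_eq_one_iff]
    exact h1
  have hPμ : IsProbabilityMeasure μ := ⟨hμ1⟩
  refine ⟨μ.map Subtype.val, Measure.isProbabilityMeasure_map
    measurable_subtype_coe.aemeasurable, fun i => ?_, ?_⟩
  · rw [Measure.map_map (measurable_pi_apply i) measurable_subtype_coe]
    have : IsProbabilityMeasure (μ.map ((fun x : Fin n → Fin d → ℝ => x i) ∘ Subtype.val)) :=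
      Measure.isProbabilityMeasure_map
        ((measurable_pi_apply i).comp measurable_subtype_coe).aemeasurable
    apply ext_of_forall_integral_eq_of_IsFiniteMeasure
    intro φ
    rw [integral_map ((measurable_pi_apply i).comp measurable_subtype_coe).aemeasurable
      φ.continuous.aestronglyMeasurable]
    have h1 := hμi (Pi.single i φ.toContinuousMap)
    rw [hLx, Finset.sum_eq_single i] at h1
    · rw [Pi.single_eq_same] at h1
      refine Eq.trans (integral_congr_ae (Eventually.of_forall fun x => ?_)) h1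
      dsimp only
      rw [hAx, Finset.sum_eq_single i]
      · rw [Pi.single_eq_same]; rfl
      · intro j _ hj
        rw [Pi.single_eq_of_ne hj]; rfl
      · simp
    · intro j _ hj
      rw [Pi.single_eq_of_ne hj]
      simp
    · simp
  · rw [ae_map_iff measurable_subtype_coe.aemeasurable
      (measurableSet_eq_fun (by fun_prop) measurable_const)]
    exact Eventually.of_forall fun x => x.2.2

end Pool.Agent.Lib.MP_a34d76_pr
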