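import Pool.Agent.Lib.MP_a34d76_pr.OneDimDual
import Pool.Agent.Lib.MP_a34d76_pr.Dual

/-! # One-dimensional laws whose density has a concave root are completely mixable (MP_a34d76_pr) -/

set_option autoImplicit false

namespace Pool.Agent.Lib.MP_a34d76_pr.OneDim

open MeasureTheory Set

/-- A probability law on `[A,B]` with density `φ^(n-2)`, `φ` nonnegative, continuous and concave, is
`n`-completely mixable (`n ≥ 3`). -/
theorem one_dim (n : ℕ) (hn : 3 ≤ n) (A B : ℝ) (hAB : A < B) (φ : ℝ → ℝ)
    (hφ : ContinuousOn φ (Icc A B)) (hconc : ConcaveOn ℝ (Icc A B) φ)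
    (hnn : ∀ x ∈ Icc A B, 0 ≤ φ x) (μ : Measure ℝ) [IsProbabilityMeasure μ]
    (hμ : μ = (volume.restrict (Icc A B)).withDensity (fun x => ENNReal.ofReal (φ x ^ (n - 2)))) :
    ∃ P : Measure (Fin n → ℝ), IsProbabilityMeasure P ∧
      (∀ i, P.map (fun x => x i) = μ) ∧ ∃ c : ℝ, ∀ᵐ x ∂P, ∑ i, x i = c := by
  obtain ⟨m, rfl⟩ : ∃ m, n = m + 2 := ⟨n - 2, by omega⟩
  have hm : 1 ≤ m := by omega
  simp only [Nat.add_sub_cancel] at hμ
  -- continuous extension
  set ψ : ℝ → ℝ := IccExtend hAB.le ((Icc A B).domRestrict φ) with hψ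
  have hψc : Continuous ψ := (continuousOn_iff_continuous_domRestrict.1 hφ).Icc_extend'
  have hψe : ∀ x ∈ Icc A B, ψ x = φ x := fun x hx => by rw [hψ, IccExtend_of_mem _ _ hx]; rfl
  have hψ0 : ∀ x, 0 ≤ ψ x := by
    intro x
    rw [hψ, IccExtend_apply]
    exact hnn _ (Subtype.mem _)
  have hψconc : ConcaveOn ℝ (Icc A B) ψ := hconc.congr fun x hx => (hψe x hx).symm
  have hμ' : μ = (volume.restrict (Icc A B)).withDensity (fun x => ENNReal.ofReal (ψ x ^ m)) := by
    rw [hμ]
    apply withDensity_congr_ae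
    filter_upwards [ae_restrict_mem measurableSet_Icc] with x hx
    rw [hψe x hx]
  have hint : ∀ G : ℝ → ℝ, ∫ x, G x ∂μ = ∫ x in A..B, G x * ψ x ^ m := by
    intro G
    rw [hμ', integral_withDensity_eq_integral_toReal_smul
      (by fun_prop : Measurable fun x => ENNReal.ofReal (ψ x ^ m)) (Filter.Eventually.of_forall fun x => ENNReal.ofReal_lt_top),
      intervalIntegral.integral_of_le hAB.le, integral_Icc_eq_integral_Ioc]
    refine integral_congr_ae (Filter.Eventually.of_forall fun x => ?_)
    simp only [smul_eq_mul]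
    rw [ENNReal.toReal_ofReal (pow_nonneg (hψ0 x) m), mul_comm]
  have hmass : ∫ x in A..B, ψ x ^ m = 1 := by
    have := hint (fun _ => 1)
    simp only [integral_const, smul_eq_mul, mul_one, one_mul, probReal_univ] at this
    exact this.symm
  have hmem : ∀ᵐ x ∂μ, x ∈ Icc A B := by
    rw [hμ']
    exact (withDensity_absolutelyContinuous _ _).ae_le (ae_restrict_mem measurableSet_Icc)
  -- a point of positive density
  obtain ⟨x0, hx0, hx0p⟩ : ∃ x ∈ Ioo A B, 0 < ψ x ^ m := by
    by_contra hcon
    push Not at hcon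
    have : ∫ x in A..B, ψ x ^ m = 0 := by
      rw [intervalIntegral.integral_of_le hAB.le, integral_Ioc_eq_integral_Ioo,
        setIntegral_congr_fun measurableSet_Ioo (g := fun _ => (0:ℝ))]
      · simp
      · intro x hx
        exact le_antisymm (hcon x hx) (pow_nonneg (hψ0 x) m)
    rw [this] at hmass; exact zero_ne_one hmass
  set c0 := ∫ x, x ∂μ with hc0
  have hc0' : c0 = ∫ x in A..B, x * ψ x ^ m := hint (fun x => x)
  have hA : A < c0 := by
    have h1 : 0 < ∫ x in A..B, (x - A) * ψ x ^ m := by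
      apply intervalIntegral.integral_pos hAB (by fun_prop)
      · intro x hx; exact mul_nonneg (by linarith [hx.1]) (pow_nonneg (hψ0 x) m)
      · exact ⟨x0, ⟨hx0.1.le, hx0.2.le⟩, mul_pos (by linarith [hx0.1]) hx0p⟩
    have h2 : ∫ x in A..B, (x - A) * ψ x ^ m = c0 - A := by
      have e : (fun x => (x - A) * ψ x ^ m) = fun x => x * ψ x ^ m - A * ψ x ^ m := by
        funext x; ring
      rw [e, intervalIntegral.integral_sub, intervalIntegral.integral_const_mul, hmass, ← hc0', mul_one]
      · exact (continuous_id.mul (hψc.pow m)).intervalIntegrable _ _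
      · exact (continuous_const.mul (hψc.pow m)).intervalIntegrable _ _
    linarith
  have hB : c0 < B := by
    have h1 : 0 < ∫ x in A..B, (B - x) * ψ x ^ m := by
      apply intervalIntegral.integral_pos hAB (by fun_prop)
      · intro x hx; exact mul_nonneg (by linarith [hx.2]) (pow_nonneg (hψ0 x) m)
      · exact ⟨x0, ⟨hx0.1.le, hx0.2.le⟩, mul_pos (by linarith [hx0.2]) hx0p⟩
    have h2 : ∫ x in A..B, (B - x) * ψ x ^ m = B - c0 := by
      have e : (fun x => (B - x) * ψ x ^ m) = fun x => B * ψ x ^ m - x * ψ x ^ m := by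
        funext x; ring
      rw [e, intervalIntegral.integral_sub, intervalIntegral.integral_const_mul, hmass, ← hc0', mul_one]
      · exact (continuous_const.mul (hψc.pow m)).intervalIntegrable _ _
      · exact (continuous_id.mul (hψc.pow m)).intervalIntegrable _ _
    linarith
  -- the shifted density
  have hshift : ∀ G : ℝ → ℝ, ∫ x in A..B, G (x - c0) * ψ x ^ m =
      ∫ y in (A - c0)..(B - c0), G y * ψ (y + c0) ^ m := by
    intro G
    have := intervalIntegral.integral_comp_sub_right (a := A) (b := B)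
      (fun y => G y * ψ (y + c0) ^ m) c0
    rw [← this]
    refine intervalIntegral.integral_congr fun x _ => ?_
    simp only [sub_add_cancel]
  have hconc' : ConcaveOn ℝ (Icc (A - c0) (B - c0)) (fun y => ψ (y + c0)) := by
    refine ⟨convex_Icc _ _, fun x hx y hy u v hu hv huv => ?_⟩
    have := hψconc.2 (⟨by linarith [hx.1], by linarith [hx.2]⟩ : x + c0 ∈ Icc A B)
      (⟨by linarith [hy.1], by linarith [hy.2]⟩ : y + c0 ∈ Icc A B) hu hv huv
    have e : u • x + v • y + c0 = u • (x + c0) + v • (y + c0) := by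
      simp only [smul_eq_mul]; linear_combination (-c0) * huv
    change u • ψ (x + c0) + v • ψ (y + c0) ≤ ψ (u • x + v • y + c0)
    rw [e]; exact this
  have hcen : ∫ y in (A - c0)..(B - c0), y * ψ (y + c0) ^ m = 0 := by
    rw [← hshift (fun y => y)]
    have e : (fun x => (x - c0) * ψ x ^ m) = fun x => x * ψ x ^ m - c0 * ψ x ^ m := by
      funext x; ring
    rw [e, intervalIntegral.integral_sub, intervalIntegral.integral_const_mul, hmass, ← hc0', mul_one,
      sub_self]
    · exact (continuous_id.mul (hψc.pow m)).intervalIntegrable _ _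
    · exact (continuous_const.mul (hψc.pow m)).intervalIntegrable _ _
  have hmass' : 0 < ∫ y in (A - c0)..(B - c0), ψ (y + c0) ^ m := by
    have := hshift (fun _ => 1)
    simp only [one_mul] at this
    rw [← this, hmass]; exact one_pos
  -- duality
  set ι : ℝ → Fin 1 → ℝ := fun x _ => x - c0 with hι
  have hιm : Measurable ι := by fun_prop
  have hQ : IsProbabilityMeasure (μ.map ι) := Measure.isProbabilityMeasure_map hιm.aemeasurable
  set D : Set (Fin 1 → ℝ) := Icc (fun _ => A - c0) (fun _ => B - c0) with hD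
  have hDmem : ∀ᵐ y ∂(μ.map ι), y ∈ D := by
    have hDm : MeasurableSet {y : Fin 1 → ℝ | y ∈ D} := measurableSet_Icc
    rw [ae_map_iff hιm.aemeasurable hDm]
    filter_upwards [hmem] with x hx
    exact ⟨fun _ => by simp only [hι]; linarith [hx.1], fun _ => by simp only [hι]; linarith [hx.2]⟩
  obtain ⟨P0, hP0, hP1, hP2⟩ := exists_coupling (n := m + 2) (by omega) (isCompact_Icc : IsCompact D) hDmem (by
    intro g hg
    set g' : ℝ → ℝ := fun t => g (fun _ => t) with hg'
    have hg'c : Continuous g' := by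
      have := g.continuous; simp only [hg']; fun_prop
    have hf : Feas (m + 2) (A - c0) (B - c0) g' := by
      intro x hx hs
      exact hg (fun i _ => x i) ⟨fun i => ⟨fun _ => (hx i).1, fun _ => (hx i).2⟩, by
        funext j; simp only [Finset.sum_apply, Pi.zero_apply]; exact hs⟩
    have h1 := dual hm (by linarith) (by linarith) (φ := fun y => ψ (y + c0)) (by fun_prop)
      (fun x => hψ0 _) hconc' hcen hmass' hg'c hf
    rw [integral_map hιm.aemeasurable g.continuous.aestronglyMeasurable]
    have h2 : ∫ x, g (ι x) ∂μ = ∫ y in (A - c0)..(B - c0), g' y * ψ (y + c0) ^ m := by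
      rw [← hshift g', hint (fun x => g (ι x))]
    rw [h2]; exact h1)
  set T : (Fin (m + 2) → Fin 1 → ℝ) → Fin (m + 2) → ℝ := fun X i => X i 0 + c0 with hT
  have hTm : Measurable T := by fun_prop
  refine ⟨P0.map T, Measure.isProbabilityMeasure_map hTm.aemeasurable, fun i => ?_,
    ((m + 2 : ℕ) : ℝ) * c0, ?_⟩
  · rw [Measure.map_map (measurable_pi_apply i) hTm]
    have e : ((fun x : Fin (m + 2) → ℝ => x i) ∘ T) = (fun y : Fin 1 → ℝ => y 0 + c0) ∘
        (fun X : Fin (m + 2) → Fin 1 → ℝ => X i) := rfl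
    have hy : Measurable (fun y : Fin 1 → ℝ => y 0 + c0) := by fun_prop
    have hev : Measurable (fun X : Fin (m + 2) → Fin 1 → ℝ => X i) := measurable_pi_apply i
    rw [e, ← Measure.map_map hy hev, hP1 i, Measure.map_map hy hιm]
    have e2 : ((fun y : Fin 1 → ℝ => y 0 + c0) ∘ ι) = id := by
      funext x; simp [hι]
    rw [e2, Measure.map_id]
  · rw [ae_map_iff hTm.aemeasurable (measurableSet_eq_fun (by fun_prop) measurable_const)]
    filter_upwards [hP2] with X hX
    have h1 : ∑ i, X i 0 = 0 := by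
      have := congrFun hX 0
      simpa using this
    simp only [hT, Finset.sum_add_distrib, h1, zero_add, Finset.sum_const, Finset.card_univ,
      Fintype.card_fin, nsmul_eq_mul]

end Pool.Agent.Lib.MP_a34d76_pr.OneDim
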