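import Mathlib
import Pool.Agent.Lib.MP_a34d76_pr.OneDim

/-! # MP_a34d76_pr: the one-dimensional obstruction to Q1 vanishes in every dimension

Laws on an interval with density `φ ^ (d - 1)`, `φ` concave: the class of one-dimensional
projections of uniform distributions on convex bodies in `ℝ^d`. -/

set_option autoImplicit false

open MeasureTheory

namespace Pool.Agent.Lib.MP_a34d76_pr.OneDimProjectionsResult

/-- Let `d ≥ 2` and let `φ` be a nonnegative continuous concave function on `[A,B]`.  If the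
probability law `μ` has density `φ ^ (d - 1)` on `[A,B]`, then `μ` is `n`-completely mixable for
every `n ≥ d + 1`. -/
theorem result (d : ℕ) (hd : 2 ≤ d) (A B : ℝ) (hAB : A < B) (φ : ℝ → ℝ)
    (hcont : ContinuousOn φ (Set.Icc A B)) (hconc : ConcaveOn ℝ (Set.Icc A B) φ)
    (hnonneg : ∀ x ∈ Set.Icc A B, 0 ≤ φ x)
    (μ : Measure ℝ) (hprob : IsProbabilityMeasure μ)
    (hμ : μ = (volume.restrict (Set.Icc A B)).withDensity
      (fun x => ENNReal.ofReal (φ x ^ (d - 1))))
    (n : ℕ) (hn : d + 1 ≤ n) :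
    ∃ P : Measure (Fin n → ℝ), IsProbabilityMeasure P ∧
      (∀ i : Fin n, P.map (fun x : Fin n → ℝ => x i) = μ) ∧
      ∃ c : ℝ, ∀ᵐ x ∂P, (∑ i, x i) = c := by
  have h0 : (0 : ℝ) < ((n - 2 : ℕ) : ℝ) := by
    have : 0 < n - 2 := by omega
    exact_mod_cast this
  set r : ℝ := ((d - 1 : ℕ) : ℝ) / ((n - 2 : ℕ) : ℝ) with hr
  have hr0 : 0 ≤ r := by positivity
  have hr1 : r ≤ 1 := by
    rw [hr, div_le_one h0]
    have : d - 1 ≤ n - 2 := by omega
    exact_mod_cast this
  have hpow : ∀ x ∈ Set.Icc A B, (φ x ^ r) ^ (n - 2) = φ x ^ (d - 1) := by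
    intro x hx
    rw [← Real.rpow_natCast, ← Real.rpow_mul (hnonneg x hx), hr, div_mul_cancel₀ _ h0.ne',
      Real.rpow_natCast]
  have hconc' : ConcaveOn ℝ (Set.Icc A B) (fun x => φ x ^ r) := by
    refine ⟨hconc.1, fun x hx y hy a b ha hb hab => ?_⟩
    have h1 := (Real.concaveOn_rpow hr0 hr1).2 (Set.mem_Ici.2 (hnonneg x hx))
      (Set.mem_Ici.2 (hnonneg y hy)) ha hb hab
    have h2 := hconc.2 hx hy ha hb hab
    have h3 : (0 : ℝ) ≤ a • φ x + b • φ y := by
      simp only [smul_eq_mul]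
      have := mul_nonneg ha (hnonneg x hx)
      have := mul_nonneg hb (hnonneg y hy)
      linarith
    exact h1.trans (Real.rpow_le_rpow h3 h2 hr0)
  refine @Pool.Agent.Lib.MP_a34d76_pr.OneDim.one_dim n (by omega) A B hAB (fun x => φ x ^ r) ?_ hconc'
    (fun x hx => Real.rpow_nonneg (hnonneg x hx) r) μ hprob ?_
  · exact hcont.rpow_const fun x _ => Or.inr hr0
  · rw [hμ]
    apply withDensity_congr_ae
    filter_upwards [ae_restrict_mem measurableSet_Icc] with x hx
    rw [hpow x hx]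

end Pool.Agent.Lib.MP_a34d76_pr.OneDimProjectionsResult
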