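import Mathlib

open MeasureTheory Filter Topology
open scoped NNReal ENNReal

namespace Pool.Agent.Lib.MP_a34d76_pr

variable {E : Type*} [NormedAddCommGroup E] [NormedSpace ℝ E] [FiniteDimensional ℝ E]
  [MeasurableSpace E] [BorelSpace E] {μ : Measure E} [μ.IsAddHaarMeasure]

lemma interior_nonempty_of_pos {C : Set E} (hC : Convex ℝ C) (h0 : μ C ≠ 0) :
    (interior C).Nonempty := by
  by_contra hcon
  rw [Set.not_nonempty_iff_eq_empty] at hcon
  apply h0
  refine measure_mono_null ?_ (hC.addHaar_frontier μ)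
  rw [frontier, hcon, Set.sdiff_empty]
  exact subset_closure

/-- A convex set of positive finite measure is bounded. -/
theorem isBounded_of_convex {C : Set E} (hC : Convex ℝ C) (h0 : μ C ≠ 0) (h1 : μ C ≠ ⊤) :
    Bornology.IsBounded C := by
  obtain ⟨x0, hx0⟩ := interior_nonempty_of_pos hC h0
  obtain ⟨r, hr, hball⟩ := Metric.isOpen_iff.1 isOpen_interior x0 hx0
  have hball' : Metric.ball x0 r ⊆ C := hball.trans interior_subset
  by_contra hunb
  have hfar : ∀ R : ℝ, ∃ y ∈ C, R ≤ ‖y - x0‖ := by
    intro R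
    by_contra hcon
    push Not at hcon
    apply hunb
    refine (Metric.isBounded_ball (x := x0) (r := R)).subset fun y hy => ?_
    rw [Metric.mem_ball, dist_eq_norm]
    exact hcon y hy
  have hpos : 0 < μ (Metric.ball (0 : E) (r / 2)) :=
    Metric.measure_ball_pos μ 0 (by positivity)
  have hkey : ∀ m : ℕ, (m : ℝ≥0∞) * μ (Metric.ball (0 : E) (r / 2)) ≤ μ C := by
    intro m
    rcases Nat.eq_zero_or_pos m with rfl | hm
    · simp
    have hm' : (0 : ℝ) < m := by exact_mod_cast hm
    obtain ⟨y, hy, hyR⟩ := hfar (2 * m * r)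
    set z : ℕ → E := fun k => x0 + ((k : ℝ) / (2 * m)) • (y - x0) with hz
    have hsub : ∀ k < m, Metric.ball (z k) (r / 2) ⊆ C := by
      intro k hk w hw
      rw [Metric.mem_ball, dist_eq_norm] at hw
      set t : ℝ := (k : ℝ) / (2 * m) with ht
      have hk' : (k : ℝ) < m := by exact_mod_cast hk
      have ht0 : 0 ≤ t := by positivity
      have ht1 : t ≤ 1 / 2 := by
        rw [ht, div_le_div_iff₀ (by positivity) (by norm_num)]
        linarith
      have h1t : (0 : ℝ) < 1 - t := by linarith
      have hwz : w = (1 - t) • (x0 + (1 - t)⁻¹ • (w - z k)) + t • y := by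
        rw [smul_add, smul_smul, mul_inv_cancel₀ h1t.ne', one_smul]
        simp only [hz]
        rw [← ht]
        module
      rw [hwz]
      refine hC ?_ hy h1t.le ht0 (by ring)
      apply hball'
      rw [Metric.mem_ball, dist_eq_norm, add_sub_cancel_left, norm_smul, norm_inv,
        Real.norm_of_nonneg h1t.le]
      rw [inv_mul_lt_iff₀ h1t]
      calc ‖w - z k‖ < r / 2 := hw
        _ ≤ (1 - t) * r := by nlinarith
    have hdisj : Set.PairwiseDisjoint (↑(Finset.range m)) fun k => Metric.ball (z k) (r / 2) := by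
      intro k _ l _ hkl
      apply Metric.ball_disjoint_ball
      rw [dist_eq_norm]
      have e : z k - z l = (((k : ℝ) - l) / (2 * m)) • (y - x0) := by
        simp only [hz]
        module
      rw [e, norm_smul, Real.norm_eq_abs, abs_div, abs_of_pos (by positivity : (0:ℝ) < 2 * m)]
      have h2 : (1 : ℝ) ≤ |(k : ℝ) - l| := by
        have : (1 : ℤ) ≤ |(k : ℤ) - l| := Int.one_le_abs (sub_ne_zero.2 (by exact_mod_cast hkl))
        exact_mod_cast this
      calc r / 2 + r / 2 = 1 / (2 * m) * (2 * m * r) := by field_simp; ring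
        _ ≤ |(k : ℝ) - l| / (2 * m) * ‖y - x0‖ := by gcongr
    calc (m : ℝ≥0∞) * μ (Metric.ball (0 : E) (r / 2))
        = ∑ k ∈ Finset.range m, μ (Metric.ball (z k) (r / 2)) := by
          simp_rw [Measure.addHaar_ball_center]
          simp
      _ = μ (⋃ k ∈ Finset.range m, Metric.ball (z k) (r / 2)) :=
          (measure_biUnion_finset hdisj fun k _ => Metric.isOpen_ball.measurableSet).symm
      _ ≤ μ C := by
          apply measure_mono
          refine Set.iUnion₂_subset fun k hk => hsub k (Finset.mem_range.1 hk)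
  obtain ⟨m, hm⟩ := ENNReal.exists_nat_mul_gt hpos.ne' h1
  exact absurd (hkey m) (not_le.2 hm)

end Pool.Agent.Lib.MP_a34d76_pr
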