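import Mathlib
import Pool.Agent.Lib.MP_a34d76_pr.Bounded

open MeasureTheory Filter Topology
open scoped NNReal ENNReal

namespace Pool.Agent.Lib.MP_a34d76_pr

variable {E : Type*} [NormedAddCommGroup E] [NormedSpace ℝ E] [FiniteDimensional ℝ E]
  [MeasurableSpace E] [BorelSpace E] {μ : Measure E} [μ.IsAddHaarMeasure]

lemma integrableOn_cont {C : Set E} (hC : Convex ℝ C) (h0 : μ C ≠ 0) (h1 : μ C ≠ ⊤) {f : E → ℝ}
    (hf : Continuous f) : IntegrableOn f C μ := by
  have hb := isBounded_of_convex hC h0 h1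
  have hK : IsCompact (closure C) := hb.isCompact_closure
  exact (hf.continuousOn.integrableOn_compact hK).mono_set subset_closure

/-- Affine change of variables. -/
lemma integral_affine (f : E → ℝ) (a : E) {t : ℝ} (ht : 0 < t) :
    ∫ y, f (a + t • y) ∂μ = (t ^ Module.finrank ℝ E)⁻¹ * ∫ y, f y ∂μ := by
  have h1 := Measure.integral_comp_smul μ (fun y => f (a + y)) t
  rw [h1, abs_of_pos (by positivity), smul_eq_mul]
  congr 1
  exact integral_add_left_eq_self f a

/-- **Asymmetry bound at the centroid.** If the linear functional `ℓ` has mean zero on the convex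
set `C` and `ℓ ≤ M` on `C` then `ℓ ≥ -d M` on `C`. -/
theorem neg_le_of_centroid {C : Set E} (hC : Convex ℝ C) (h0 : μ C ≠ 0) (h1 : μ C ≠ ⊤)
    (ℓ : E →L[ℝ] ℝ) (hcen : ∫ x in C, ℓ x ∂μ = 0) {M : ℝ} (hM : ∀ x ∈ C, ℓ x ≤ M) {x : E}
    (hx : x ∈ C) : -ℓ x ≤ Module.finrank ℝ E * M := by
  set V : ℝ := μ.real C with hV
  have hVpos : 0 < V := ENNReal.toReal_pos h0 h1
  set D := Module.finrank ℝ E with hD
  have hMint : ∫ _ in C, M ∂μ = M * V := by
    rw [setIntegral_const, smul_eq_mul, mul_comm]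
  have hM0 : 0 ≤ M := by
    have h2 : ∫ x in C, ℓ x ∂μ ≤ ∫ _ in C, M ∂μ := by
      refine setIntegral_mono_on₀ (integrableOn_cont hC h0 h1 ℓ.continuous)
        (integrableOn_cont hC h0 h1 continuous_const) (hC.nullMeasurableSet μ) hM
    rw [hcen, hMint] at h2
    by_contra hcon
    push Not at hcon
    nlinarith
  -- the homothety inequality
  have key : ∀ t : ℝ, 0 < t → t < 1 → t ^ D * (M - (1 - t) * ℓ x) ≤ M := by
    intro t ht0 ht1
    set a : E := (1 - t) • x with ha
    set Ct : Set E := {z | t⁻¹ • (z - a) ∈ C} with hCt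
    have hsub : Ct ⊆ C := by
      intro z hz
      have h2 : z = (1 - t) • x + t • (t⁻¹ • (z - a)) := by
        rw [smul_smul, mul_inv_cancel₀ ht0.ne', one_smul, ha]; abel
      rw [h2]
      exact hC hx hz (by linarith) ht0.le (by ring)
    have hCtconv : Convex ℝ Ct := by
      have : Ct = (fun z => t⁻¹ • (z - a)) ⁻¹' C := rfl
      rw [this]
      have h2 : (fun z : E => t⁻¹ • (z - a)) = (fun z => t⁻¹ • z + (-(t⁻¹ • a))) := by
        funext z; rw [smul_sub, sub_eq_add_neg]
      rw [h2]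
      intro z hz w hw α β hα hβ hαβ
      simp only [Set.mem_preimage] at hz hw ⊢
      have h3 : t⁻¹ • (α • z + β • w) + -(t⁻¹ • a)
          = α • (t⁻¹ • z + -(t⁻¹ • a)) + β • (t⁻¹ • w + -(t⁻¹ • a)) := by
        calc t⁻¹ • (α • z + β • w) + -(t⁻¹ • a)
            = t⁻¹ • (α • z + β • w) + (α + β) • -(t⁻¹ • a) := by rw [hαβ, one_smul]
          _ = _ := by module
      rw [h3]
      exact hC hz hw hα hβ hαβ
    have hmeas : NullMeasurableSet Ct μ := hCtconv.nullMeasurableSet μ
    have h2 : ∫ z in Ct, (M - ℓ z) ∂μ ≤ ∫ z in C, (M - ℓ z) ∂μ := by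
      refine setIntegral_mono_set (integrableOn_cont hC h0 h1 (by fun_prop)) ?_
        (Eventually.of_forall hsub)
      filter_upwards [ae_restrict_mem₀ (hC.nullMeasurableSet μ)] with z hz
      simp only [Pi.zero_apply]
      linarith [hM z hz]
    have h3 : ∫ z in C, (M - ℓ z) ∂μ = M * V := by
      rw [integral_sub (integrableOn_cont hC h0 h1 continuous_const)
        (integrableOn_cont hC h0 h1 ℓ.continuous), hcen, hMint, sub_zero]
    have h4 : ∫ z in Ct, (M - ℓ z) ∂μ = t ^ D * ∫ y in C, (M - ℓ (a + t • y)) ∂μ := by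
      rw [← integral_indicator₀ hmeas, ← integral_indicator₀ (hC.nullMeasurableSet μ)]
      have h5 : ∀ y, C.indicator (fun y => M - ℓ (a + t • y)) y
          = Ct.indicator (fun z => M - ℓ z) (a + t • y) := by
        intro y
        have : a + t • y ∈ Ct ↔ y ∈ C := by
          simp only [hCt, Set.mem_ofPred_eq, add_sub_cancel_left, smul_smul,
            inv_mul_cancel₀ ht0.ne', one_smul]
        by_cases hy : y ∈ C
        · rw [Set.indicator_of_mem hy, Set.indicator_of_mem (this.2 hy)]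
        · rw [Set.indicator_of_notMem hy, Set.indicator_of_notMem (fun h => hy (this.1 h))]
      simp_rw [h5]
      rw [integral_affine _ a ht0, ← mul_assoc, mul_inv_cancel₀ (by positivity), one_mul]
    have h5 : ∫ y in C, (M - ℓ (a + t • y)) ∂μ = (M - (1 - t) * ℓ x) * V := by
      have h6 : ∀ y, M - ℓ (a + t • y) = (M - (1 - t) * ℓ x) - t * ℓ y := by
        intro y
        rw [ha, map_add, map_smul, map_smul, smul_eq_mul, smul_eq_mul]
        ring
      simp_rw [h6]
      rw [integral_sub (integrableOn_cont hC h0 h1 continuous_const)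
        ((integrableOn_cont hC h0 h1 ℓ.continuous).const_mul t), integral_const_mul, hcen,
        setIntegral_const, smul_eq_mul, mul_zero, sub_zero, mul_comm]
    rw [h3, h4, h5, ← mul_assoc] at h2
    exact le_of_mul_le_mul_right h2 hVpos
  have key2 : ∀ t : ℝ, 0 < t → t < 1 → -(t ^ D * ℓ x) ≤ D * M := by
    intro t ht0 ht1
    have h2 := key t ht0 ht1
    have h3 : 1 + (D : ℝ) * (t - 1) ≤ t ^ D := by
      have := one_add_mul_le_pow (a := t - 1) (by linarith) D
      simpa using this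
    have h4 : (1 - t) * (-(t ^ D * ℓ x)) ≤ (1 - t) * (D * M) := by
      nlinarith
    exact le_of_mul_le_mul_left h4 (by linarith)
  have hlim : Tendsto (fun t : ℝ => -(t ^ D * ℓ x)) (𝓝[<] 1) (𝓝 (-ℓ x)) := by
    have : Tendsto (fun t : ℝ => -(t ^ D * ℓ x)) (𝓝 1) (𝓝 (-((1:ℝ) ^ D * ℓ x))) := by
      have : Continuous fun t : ℝ => -(t ^ D * ℓ x) := by fun_prop
      exact this.tendsto 1
    rw [one_pow, one_mul] at this
    exact this.mono_left nhdsWithin_le_nhds
  refine le_of_tendsto hlim ?_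
  filter_upwards [Ioo_mem_nhdsLT (show (0:ℝ) < 1 by norm_num)] with t ht
  exact key2 t ht.1 ht.2

/-- Second moments are controlled by the support function at the centroid. -/
theorem integral_sq_le {C : Set E} (hC : Convex ℝ C) (h0 : μ C ≠ 0) (h1 : μ C ≠ ⊤)
    (ℓ : E →L[ℝ] ℝ) (hcen : ∫ x in C, ℓ x ∂μ = 0) {M : ℝ} (hM : ∀ x ∈ C, ℓ x ≤ M) :
    ∫ x in C, ℓ x ^ 2 ∂μ ≤ Module.finrank ℝ E * M ^ 2 * μ.real C := by
  set V : ℝ := μ.real C with hV
  set D : ℝ := (Module.finrank ℝ E : ℝ) with hD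
  have h2 : ∫ x in C, ℓ x ^ 2 ∂μ ≤ ∫ x in C, (D * M ^ 2 + (1 - D) * M * ℓ x) ∂μ := by
    refine setIntegral_mono_on₀ (integrableOn_cont hC h0 h1 (by fun_prop))
      (integrableOn_cont hC h0 h1 (by fun_prop)) (hC.nullMeasurableSet μ) ?_
    intro x hx
    have h3 := hM x hx
    have h4 := neg_le_of_centroid hC h0 h1 ℓ hcen hM hx
    nlinarith [mul_nonneg (sub_nonneg.2 h3) (show 0 ≤ ℓ x + D * M by linarith)]
  refine h2.trans (le_of_eq ?_)
  have e1 : ∫ x in C, (1 - D) * M * ℓ x ∂μ = 0 := by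
    rw [integral_const_mul, hcen, mul_zero]
  rw [integral_add (integrableOn_cont hC h0 h1 continuous_const)
    (integrableOn_cont hC h0 h1 (by fun_prop)), e1, setIntegral_const,
    smul_eq_mul]
  ring

end Pool.Agent.Lib.MP_a34d76_pr
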