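import Mathlib
import Pool.Agent.Lib.MP_a34d76_pr.Centroid

open MeasureTheory ProbabilityTheory Filter Topology
open scoped NNReal ENNReal

namespace Pool.Agent.Lib.MP_a34d76_pr

variable {d : ℕ} {C : Set (Fin d → ℝ)}

/-- The uniform distribution on `C`. -/
noncomputable def Uf (C : Set (Fin d → ℝ)) : Measure (Fin d → ℝ) :=
  (volume C)⁻¹ • volume.restrict C

lemma isProb_Uf (h0 : volume C ≠ 0) (h1 : volume C ≠ ⊤) : IsProbabilityMeasure (Uf C) := by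
  constructor
  rw [Uf, Measure.smul_apply, Measure.restrict_apply_univ, smul_eq_mul]
  exact ENNReal.inv_mul_cancel h0 h1

lemma integral_Uf (f : (Fin d → ℝ) → ℝ) :
    ∫ x, f x ∂(Uf C) = (volume.real C)⁻¹ * ∫ x in C, f x := by
  rw [Uf, integral_smul_measure, smul_eq_mul, ENNReal.toReal_inv]
  rfl

lemma ae_Uf_mem (hC : Convex ℝ C) : ∀ᵐ x ∂(Uf C), x ∈ C :=
  Measure.ae_smul_measure (ae_restrict_mem₀ (hC.nullMeasurableSet volume)) _

lemma integrable_Uf (hC : Convex ℝ C) (h0 : volume C ≠ 0) (h1 : volume C ≠ ⊤)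
    {f : (Fin d → ℝ) → ℝ} (hf : Continuous f) : Integrable f (Uf C) :=
  (integrableOn_cont hC h0 h1 hf).smul_measure (ENNReal.inv_ne_top.2 h0)

/-- The second moment bound for the uniform distribution. -/
lemma Uf_sq_le (hC : Convex ℝ C) (h0 : volume C ≠ 0) (h1 : volume C ≠ ⊤)
    (ℓ : (Fin d → ℝ) →L[ℝ] ℝ) (hcen : ∫ x, ℓ x ∂(Uf C) = 0) {M : ℝ} (hM : ∀ x ∈ C, ℓ x ≤ M) :
    ∫ x, ℓ x ^ 2 ∂(Uf C) ≤ d * M ^ 2 := by
  have hV : 0 < volume.real C := ENNReal.toReal_pos h0 h1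
  rw [integral_Uf] at hcen ⊢
  have hc : ∫ x in C, ℓ x = 0 := by
    rcases mul_eq_zero.1 hcen with h | h
    · exact absurd h (inv_ne_zero hV.ne')
    · exact h
  have := integral_sq_le hC h0 h1 ℓ hc hM
  rw [Module.finrank_fin_fun] at this
  rw [inv_mul_le_iff₀ hV]
  linarith

/-- Covariance matrix (second moments). -/
noncomputable def Cm (C : Set (Fin d → ℝ)) : Matrix (Fin d) (Fin d) ℝ :=
  Matrix.of fun i j => ∫ x, x i * x j ∂(Uf C)

lemma Cm_mulVec (hC : Convex ℝ C) (h0 : volume C ≠ 0) (h1 : volume C ≠ ⊤) (b : Fin d → ℝ)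
    (ℓ : (Fin d → ℝ) →L[ℝ] ℝ) :
    ℓ ((Cm C).mulVec b) = ∫ x, ℓ x * (b ⬝ᵥ x) ∂(Uf C) := by
  have e1 : ∀ x : Fin d → ℝ, ℓ x = ∑ i, x i * ℓ (Pi.single i 1) := by
    intro x
    conv_lhs => rw [← Finset.univ_sum_single x]
    rw [map_sum]
    refine Finset.sum_congr rfl fun i _ => ?_
    have : Pi.single i (x i) = x i • (Pi.single i 1 : Fin d → ℝ) := by
      rw [← Pi.single_smul, smul_eq_mul, mul_one]
    rw [this, map_smul, smul_eq_mul]
  have hint : ∀ i j, Integrable (fun x : Fin d → ℝ => x i * x j) (Uf C) := fun i j =>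
    integrable_Uf hC h0 h1 (by fun_prop)
  rw [e1]
  have e2 : ∀ x : Fin d → ℝ, ℓ x * (b ⬝ᵥ x)
      = ∑ i, ∑ j, (b j * ℓ (Pi.single i 1)) * (x i * x j) := by
    intro x
    rw [e1 x, dotProduct, Finset.sum_mul_sum]
    refine Finset.sum_congr rfl fun i _ => Finset.sum_congr rfl fun j _ => ?_
    ring
  simp_rw [e2]
  rw [integral_finsetSum _ fun i _ => integrable_finsetSum _ fun j _ => (hint i j).const_mul _]
  refine Finset.sum_congr rfl fun i _ => ?_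
  rw [integral_finsetSum _ fun j _ => (hint i j).const_mul _, Matrix.mulVec, dotProduct,
    Finset.sum_mul]
  refine Finset.sum_congr rfl fun j _ => ?_
  rw [integral_const_mul, Cm, Matrix.of_apply]
  ring

/-- the linear functional given by a vector -/
noncomputable def dotL (b : Fin d → ℝ) : (Fin d → ℝ) →L[ℝ] ℝ :=
  LinearMap.toContinuousLinearMap
    { toFun := fun x => b ⬝ᵥ x
      map_add' := fun x y => dotProduct_add b x y
      map_smul' := fun c x => by simp [dotProduct_smul] }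

lemma dotL_apply (b x : Fin d → ℝ) : dotL b x = b ⬝ᵥ x := rfl

lemma Cm_quad (hC : Convex ℝ C) (h0 : volume C ≠ 0) (h1 : volume C ≠ ⊤) (b : Fin d → ℝ) :
    b ⬝ᵥ ((Cm C).mulVec b) = ∫ x, (b ⬝ᵥ x) ^ 2 ∂(Uf C) := by
  have := Cm_mulVec hC h0 h1 b (dotL b)
  simp only [dotL_apply] at this
  rw [this]
  simp_rw [sq]

lemma Cm_inj (hC : Convex ℝ C) (h0 : volume C ≠ 0) (h1 : volume C ≠ ⊤) {b : Fin d → ℝ}
    (hb : (Cm C).mulVec b = 0) : b = 0 := by
  have h2 := Cm_quad hC h0 h1 b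
  rw [hb, dotProduct_zero] at h2
  have hcont : Continuous fun x : Fin d → ℝ => (b ⬝ᵥ x) ^ 2 := by
    have : Continuous fun x : Fin d → ℝ => b ⬝ᵥ x := (dotL b).continuous
    fun_prop
  rw [eq_comm, integral_eq_zero_iff_of_nonneg (fun x => sq_nonneg _)
    (integrable_Uf hC h0 h1 hcont)] at h2
  by_contra hne
  have h3 : volume (LinearMap.ker (dotL b : (Fin d → ℝ) →ₗ[ℝ] ℝ) : Set (Fin d → ℝ)) = 0 := by
    apply Measure.addHaar_submodule
    intro htop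
    apply hne
    have h4 : b ∈ LinearMap.ker (dotL b : (Fin d → ℝ) →ₗ[ℝ] ℝ) := by rw [htop]; trivial
    rw [LinearMap.mem_ker] at h4
    have h5 : b ⬝ᵥ b = 0 := h4
    exact dotProduct_self_eq_zero.1 h5
  have h4 : ∀ᵐ x ∂(Uf C), x ∈ (LinearMap.ker (dotL b : (Fin d → ℝ) →ₗ[ℝ] ℝ) : Set (Fin d → ℝ)) := by
    filter_upwards [h2] with x hx
    have : (b ⬝ᵥ x) ^ 2 = 0 := hx
    exact pow_eq_zero_iff (two_ne_zero) |>.1 this
  have h5 : Uf C (LinearMap.ker (dotL b : (Fin d → ℝ) →ₗ[ℝ] ℝ) : Set (Fin d → ℝ))ᶜ = 0 := h4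
  have h6 : Uf C (LinearMap.ker (dotL b : (Fin d → ℝ) →ₗ[ℝ] ℝ) : Set (Fin d → ℝ)) = 0 := by
    rw [Uf, Measure.smul_apply, smul_eq_mul]
    rw [measure_mono_null (le_refl _) (le_antisymm ((Measure.restrict_apply_le _ _).trans h3.le)
      zero_le), mul_zero]
  have := isProb_Uf h0 h1
  have h7 : Uf C Set.univ ≤ 0 := by
    rw [← Set.union_compl_self
      (LinearMap.ker (dotL b : (Fin d → ℝ) →ₗ[ℝ] ℝ) : Set (Fin d → ℝ))]
    refine (measure_union_le _ _).trans ?_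
    rw [h5, h6, add_zero]
  rw [measure_univ] at h7
  exact absurd h7 (by norm_num)

lemma Cm_isUnit (hC : Convex ℝ C) (h0 : volume C ≠ 0) (h1 : volume C ≠ ⊤) :
    IsUnit (Cm C).det := by
  rw [← Matrix.isUnit_iff_isUnit_det, ← Matrix.mulVec_injective_iff_isUnit]
  intro a b hab
  have h2 : (Cm C).mulVec (a - b) = 0 := by
    rw [Matrix.mulVec_sub]
    exact sub_eq_zero.2 hab
  exact sub_eq_zero.1 (Cm_inj hC h0 h1 h2)

/-- The quadratic form dual to the covariance. -/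
noncomputable def Nq (C : Set (Fin d → ℝ)) (z : Fin d → ℝ) : ℝ := z ⬝ᵥ ((Cm C)⁻¹.mulVec z)

lemma cauchy (hC : Convex ℝ C) (h0 : volume C ≠ 0) (h1 : volume C ≠ ⊤)
    (ℓ : (Fin d → ℝ) →L[ℝ] ℝ) (z : Fin d → ℝ) :
    ℓ z ^ 2 ≤ (∫ x, ℓ x ^ 2 ∂(Uf C)) * Nq C z ∧ 0 ≤ Nq C z := by
  set b := (Cm C)⁻¹.mulVec z with hb
  have hz : (Cm C).mulVec b = z := by
    rw [hb, Matrix.mulVec_mulVec, Matrix.mul_nonsing_inv _ (Cm_isUnit hC h0 h1),
      Matrix.one_mulVec]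
  have h2 : ℓ z = ∫ x, ℓ x * (b ⬝ᵥ x) ∂(Uf C) := by
    rw [← Cm_mulVec hC h0 h1 b ℓ, hz]
  have h3 : Nq C z = ∫ x, (b ⬝ᵥ x) ^ 2 ∂(Uf C) := by
    rw [← Cm_quad hC h0 h1 b, hz, Nq, ← hb, dotProduct_comm]
  have hN : 0 ≤ Nq C z := by rw [h3]; exact integral_nonneg fun x => sq_nonneg _
  have hcb : Continuous fun x : Fin d → ℝ => b ⬝ᵥ x := (dotL b).continuous
  have hcl : Continuous fun x : Fin d → ℝ => ℓ x := ℓ.continuous
  have i1 : Integrable (fun x => ℓ x ^ 2) (Uf C) := integrable_Uf hC h0 h1 (by fun_prop)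
  have i2 : Integrable (fun x => ℓ x * (b ⬝ᵥ x)) (Uf C) := integrable_Uf hC h0 h1 (by fun_prop)
  have i3 : Integrable (fun x => (b ⬝ᵥ x) ^ 2) (Uf C) := integrable_Uf hC h0 h1 (by fun_prop)
  refine ⟨?_, hN⟩
  -- discriminant
  have key : ∀ α β : ℝ, 0 ≤ α ^ 2 * (∫ x, ℓ x ^ 2 ∂(Uf C)) - 2 * α * β * ℓ z
      + β ^ 2 * Nq C z := by
    intro α β
    have h4 : 0 ≤ ∫ x, (α * ℓ x - β * (b ⬝ᵥ x)) ^ 2 ∂(Uf C) :=
      integral_nonneg fun x => sq_nonneg _
    have h5 : ∀ x, (α * ℓ x - β * (b ⬝ᵥ x)) ^ 2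
        = α ^ 2 * ℓ x ^ 2 - 2 * α * β * (ℓ x * (b ⬝ᵥ x)) + β ^ 2 * (b ⬝ᵥ x) ^ 2 := by
      intro x; ring
    simp_rw [h5] at h4
    have e1 := integral_add ((i1.const_mul (α ^ 2)).sub (i2.const_mul (2 * α * β)))
      (i3.const_mul (β ^ 2))
    have e2 := integral_sub (i1.const_mul (α ^ 2)) (i2.const_mul (2 * α * β))
    simp only [Pi.sub_apply] at e1
    rw [e1, e2, integral_const_mul, integral_const_mul,
      integral_const_mul, ← h2, ← h3] at h4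
    exact h4
  rcases hN.eq_or_lt with h4 | h4
  · -- degenerate case
    have h5 : b = 0 := by
      have h6 : (Cm C).mulVec b ⬝ᵥ b = 0 := by
        rw [dotProduct_comm, Cm_quad hC h0 h1 b, ← h3, ← h4]
      by_contra hne
      -- positivity
      have h7 := key 1 (ℓ z + 1)
      have h8 := key 1 (-(ℓ z) - 1)
      -- use injectivity instead
      have hcont : Continuous fun x : Fin d → ℝ => (b ⬝ᵥ x) ^ 2 := by fun_prop
      have h9 : ∫ x, (b ⬝ᵥ x) ^ 2 ∂(Uf C) = 0 := by rw [← h3, ← h4]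
      have h10 : ∀ᵐ x ∂(Uf C), (b ⬝ᵥ x) = 0 := by
        rw [integral_eq_zero_iff_of_nonneg (fun x => sq_nonneg _) i3] at h9
        filter_upwards [h9] with x hx
        have : (b ⬝ᵥ x) ^ 2 = 0 := hx
        exact pow_eq_zero_iff (two_ne_zero) |>.1 this
      apply hne
      apply Cm_inj hC h0 h1
      funext i
      have h11 := Cm_mulVec hC h0 h1 b (dotL (Pi.single i 1))
      simp only [dotL_apply, single_one_dotProduct] at h11
      rw [h11, integral_eq_zero_of_ae]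
      · rfl
      · filter_upwards [h10] with x hx
        rw [hx, mul_zero]; rfl
    have h6 : z = 0 := by rw [← hz, h5, Matrix.mulVec_zero]
    rw [h6, map_zero, ← h6, ← h4]
    simp
  · have h5 := key (Nq C z) (ℓ z)
    have h6 : 0 ≤ Nq C z * ((∫ x, ℓ x ^ 2 ∂(Uf C)) * Nq C z - ℓ z ^ 2) := by
      refine h5.trans (le_of_eq ?_)
      ring
    have := nonneg_of_mul_nonneg_right h6 h4
    linarith

end Pool.Agent.Lib.MP_a34d76_pr
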