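import Mathlib
import Pool.Agent.Lib.MP_a34d76_pr.Good

open MeasureTheory ProbabilityTheory Filter Topology
open scoped NNReal ENNReal

namespace Pool.Agent.Lib.MP_a34d76_pr

variable {d : ℕ} {C : Set (Fin d → ℝ)}

/-- law of an iid sample -/
noncomputable def Us (C : Set (Fin d → ℝ)) (s : ℕ) : Measure (Fin s → Fin d → ℝ) :=
  Measure.pi fun _ => Uf C

lemma isProb_Us (h0 : volume C ≠ 0) (h1 : volume C ≠ ⊤) (s : ℕ) :
    IsProbabilityMeasure (Us C s) := by
  have := isProb_Uf h0 h1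
  unfold Us
  infer_instance

lemma ae_Us_mem (hC : Convex ℝ C) (h0 : volume C ≠ 0) (h1 : volume C ≠ ⊤) (s : ℕ) :
    ∀ᵐ x ∂(Us C s), ∀ l, x l ∈ C := by
  have := isProb_Uf h0 h1
  rw [ae_all_iff]
  intro l
  exact (Measure.quasiMeasurePreserving_eval (fun _ : Fin s => Uf C) l).ae (ae_Uf_mem hC)

lemma integrable_Us (hC : Convex ℝ C) (h0 : volume C ≠ 0) (h1 : volume C ≠ ⊤) (s : ℕ)
    {f : (Fin s → Fin d → ℝ) → ℝ} (hf : Continuous f) : Integrable f (Us C s) := by
  have := isProb_Us h0 h1 s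
  have hb := isBounded_of_convex hC h0 h1
  have hK : IsCompact (Set.pi Set.univ fun _ : Fin s => closure C) :=
    isCompact_univ_pi fun _ => hb.isCompact_closure
  obtain ⟨M, hM⟩ := hK.exists_bound_of_continuousOn hf.continuousOn
  refine Integrable.of_bound hf.aestronglyMeasurable M ?_
  filter_upwards [ae_Us_mem hC h0 h1 s] with x hx
  exact hM x fun l _ => subset_closure (hx l)

/-- the empirical mean -/
noncomputable def mn {s : ℕ} (x : Fin s → Fin d → ℝ) : Fin d → ℝ := (s : ℝ)⁻¹ • ∑ l, x l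

lemma cross (hC : Convex ℝ C) (h0 : volume C ≠ 0) (h1 : volume C ≠ ⊤)
    (hcen : ∀ i, ∫ x, x i ∂(Uf C) = 0) {s : ℕ} (l m : Fin s) (i j : Fin d) :
    ∫ x, x l i * x m j ∂(Us C s) = if l = m then Cm C i j else 0 := by
  have hP := isProb_Uf h0 h1
  have hmap : ∀ l : Fin s, (Us C s).map (fun x => x l) = Uf C := fun l =>
    (measurePreserving_eval (fun _ : Fin s => Uf C) l).map_eq
  split_ifs with hlm
  · subst hlm
    have h2 := integral_map (μ := Us C s) (φ := fun x => x l) (measurable_pi_apply l).aemeasurable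
      (f := fun y : Fin d → ℝ => y i * y j)
      (by exact (by fun_prop : Continuous fun y : Fin d → ℝ => y i * y j).aestronglyMeasurable)
    rw [hmap l] at h2
    rw [← h2]
    rfl
  · have h2 : iIndepFun (fun (l : Fin s) (x : Fin s → Fin d → ℝ) => x l) (Us C s) :=
      iIndepFun_pi (μ := fun _ : Fin s => Uf C) (X := fun _ => id) (fun _ => aemeasurable_id)
    have hmi : ∀ k : Fin d, Measurable fun y : Fin d → ℝ => y k := fun k => measurable_pi_apply k
    have h3 : IndepFun ((fun y : Fin d → ℝ => y i) ∘ fun x : Fin s → Fin d → ℝ => x l)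
        ((fun y : Fin d → ℝ => y j) ∘ fun x : Fin s → Fin d → ℝ => x m) (Us C s) :=
      (h2.indepFun hlm).comp (hmi i) (hmi j)
    have hms : ∀ (k : Fin d) (l : Fin s), AEStronglyMeasurable
        ((fun y : Fin d → ℝ => y k) ∘ fun x : Fin s → Fin d → ℝ => x l) (Us C s) := fun k l =>
      ((hmi k).comp (measurable_pi_apply l)).aestronglyMeasurable
    have h4 := h3.integral_fun_mul_eq_mul_integral (hms i l) (hms j m)
    have h5 := integral_map (μ := Us C s) (φ := fun x => x l) (measurable_pi_apply l).aemeasurable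
      (f := fun y : Fin d → ℝ => y i)
      (by exact (by fun_prop : Continuous fun y : Fin d → ℝ => y i).aestronglyMeasurable)
    rw [hmap l, hcen i] at h5
    simp only [Function.comp_def] at h4
    rw [h4, ← h5, zero_mul]

lemma integral_Nq (hC : Convex ℝ C) (h0 : volume C ≠ 0) (h1 : volume C ≠ ⊤)
    (hcen : ∀ i, ∫ x, x i ∂(Uf C) = 0) {s : ℕ} (hs : 0 < s) :
    ∫ x, Nq C (mn x) ∂(Us C s) = d / s := by
  have hs' : (s : ℝ) ≠ 0 := by exact_mod_cast hs.ne'
  have e1 : ∀ x : Fin s → Fin d → ℝ, Nq C (mn x)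
      = ∑ i, ∑ j, ((Cm C)⁻¹ i j * ((s : ℝ)⁻¹ * (s : ℝ)⁻¹)) * ∑ l, ∑ m, x l i * x m j := by
    intro x
    unfold Nq mn Matrix.mulVec dotProduct
    refine Finset.sum_congr rfl fun i _ => ?_
    rw [Finset.mul_sum]
    refine Finset.sum_congr rfl fun j _ => ?_
    rw [← Finset.sum_mul_sum]
    simp only [Pi.smul_apply, Finset.sum_apply, smul_eq_mul]
    ring
  simp_rw [e1]
  have hint : ∀ (i j : Fin d) (l m : Fin s), Integrable (fun x => x l i * x m j) (Us C s) :=
    fun i j l m => integrable_Us hC h0 h1 s (by fun_prop)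
  have hint2 : ∀ (i j : Fin d), Integrable (fun x : Fin s → Fin d → ℝ =>
      ∑ l, ∑ m, x l i * x m j) (Us C s) := fun i j =>
    integrable_finsetSum _ fun l _ => integrable_finsetSum _ fun m _ => hint i j l m
  have e2 : ∀ (i j : Fin d), ∫ x, ∑ l, ∑ m, x l i * x m j ∂(Us C s) = s * Cm C i j := by
    intro i j
    rw [integral_finsetSum _ fun l _ => integrable_finsetSum _ fun m _ => hint i j l m]
    simp_rw [integral_finsetSum _ fun m _ => hint i j _ m, cross hC h0 h1 hcen]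
    simp
  rw [integral_finsetSum _ fun i _ => integrable_finsetSum _ fun j _ => (hint2 i j).const_mul _]
  simp_rw [integral_finsetSum _ fun j _ => (hint2 _ j).const_mul _, integral_const_mul, e2]
  have e3 : ∀ i j, (Cm C)⁻¹ i j * ((s : ℝ)⁻¹ * (s : ℝ)⁻¹) * (s * Cm C i j)
      = (s : ℝ)⁻¹ * ((Cm C)⁻¹ i j * Cm C j i) := by
    intro i j
    have : Cm C i j = Cm C j i := by
      simp only [Cm, Matrix.of_apply]
      refine integral_congr_ae (Eventually.of_forall fun x => ?_)
      simp only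
      ring
    rw [this]
    field_simp
  simp_rw [e3, ← Finset.mul_sum]
  have e4 : ∀ i, ∑ j, (Cm C)⁻¹ i j * Cm C j i = 1 := by
    intro i
    have := Matrix.nonsing_inv_mul _ (Cm_isUnit hC h0 h1)
    have h2 : ((Cm C)⁻¹ * Cm C) i i = 1 := by rw [this, Matrix.one_apply_eq]
    rwa [Matrix.mul_apply] at h2
  simp_rw [e4]
  simp
  ring

/-- the good event: the reflected and dilated mean is in the closure of `C` -/
def Gd (C : Set (Fin d → ℝ)) (s : ℕ) (θ : ℝ) : Set (Fin s → Fin d → ℝ) :=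
  {x | (-θ) • mn x ∈ closure C}

lemma isClosed_Gd (s : ℕ) (θ : ℝ) : IsClosed (Gd C s θ) := by
  have : Continuous fun x : Fin s → Fin d → ℝ => (-θ) • mn x := by
    unfold mn; fun_prop
  exact isClosed_closure.preimage this

theorem prob_bad (hC : Convex ℝ C) (h0 : volume C ≠ 0) (h1 : volume C ≠ ⊤)
    (hcen : ∀ i, ∫ x, x i ∂(Uf C) = 0) (hd : 0 < d) {s : ℕ} (hs : 0 < s) {θ : ℝ} (hθ : 0 < θ) :
    (Us C s).real (Gd C s θ)ᶜ ≤ d ^ 2 * θ ^ 2 / s := by
  have hP := isProb_Us h0 h1 s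
  have hPf := isProb_Uf h0 h1
  have hd' : (0 : ℝ) < d := by exact_mod_cast hd
  have hsub : (Gd C s θ)ᶜ ⊆ {x | 1 / (d * θ ^ 2) ≤ Nq C (mn x)} := by
    intro x hx
    have hx' : (-θ) • mn x ∉ closure C := hx
    obtain ⟨ℓ, u, hu1, hu2⟩ := geometric_hahn_banach_closed_point hC.closure isClosed_closure hx'
    have hcl : ∫ x, ℓ x ∂(Uf C) = 0 := by
      have e1 : ∀ x : Fin d → ℝ, ℓ x = ∑ i, ℓ (Pi.single i 1) * x i := by
        intro x
        conv_lhs => rw [← Finset.univ_sum_single x]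
        rw [map_sum]
        refine Finset.sum_congr rfl fun i _ => ?_
        have : Pi.single i (x i) = x i • (Pi.single i 1 : Fin d → ℝ) := by
          rw [← Pi.single_smul, smul_eq_mul, mul_one]
        rw [this, map_smul, smul_eq_mul, mul_comm]
      rw [show (fun x => ℓ x) = fun x : Fin d → ℝ => ∑ i, ℓ (Pi.single i 1) * x i from funext e1,
        integral_finsetSum _ fun i _ => (integrable_Uf hC h0 h1 (by fun_prop)).const_mul _]
      refine Finset.sum_eq_zero fun i _ => ?_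
      rw [integral_const_mul, hcen, mul_zero]
    have hM : ∀ x ∈ C, ℓ x ≤ u := fun x hx => (hu1 x (subset_closure hx)).le
    have hu0 : 0 ≤ u := by
      have h2 : ∫ x, ℓ x ∂(Uf C) ≤ ∫ _, u ∂(Uf C) := by
        refine integral_mono_ae (integrable_Uf hC h0 h1 ℓ.continuous) (integrable_const _) ?_
        filter_upwards [ae_Uf_mem hC] with x hx using hM x hx
      rw [hcl] at h2
      simpa using h2
    have hsq := Uf_sq_le hC h0 h1 ℓ hcl hM
    obtain ⟨hcs, hN⟩ := cauchy hC h0 h1 ℓ (mn x)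
    set I := ∫ x, ℓ x ^ 2 ∂(Uf C) with hI
    have hI0 : 0 ≤ I := integral_nonneg fun x => sq_nonneg _
    rw [map_smul, smul_eq_mul] at hu2
    have h3 : u ^ 2 < θ ^ 2 * ℓ (mn x) ^ 2 := by nlinarith
    have h4 : I < d * (θ ^ 2 * (I * Nq C (mn x))) := by
      calc I ≤ d * u ^ 2 := hsq
        _ < d * (θ ^ 2 * ℓ (mn x) ^ 2) := by gcongr
        _ ≤ d * (θ ^ 2 * (I * Nq C (mn x))) := by gcongr
    have hIpos : 0 < I := by
      rcases hI0.eq_or_lt with h | h
      · rw [← h] at h4; simp at h4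
      · exact h
    simp only [Set.mem_ofPred_eq]
    rw [div_le_iff₀ (by positivity)]
    have h5 : I * 1 < I * (Nq C (mn x) * (d * θ ^ 2)) := by
      rw [mul_one]; refine h4.trans_eq ?_; ring
    exact (lt_of_mul_lt_mul_left h5 hI0).le
  have hcontN : Continuous fun x : Fin s → Fin d → ℝ => Nq C (mn x) := by
    unfold Nq mn Matrix.mulVec dotProduct
    fun_prop
  have hmk := mul_meas_ge_le_integral_of_nonneg (μ := Us C s)
    (f := fun x => Nq C (mn x)) (Eventually.of_forall fun x => (cauchy hC h0 h1 0 (mn x)).2)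
    (integrable_Us hC h0 h1 s hcontN) (1 / (d * θ ^ 2))
  rw [integral_Nq hC h0 h1 hcen hs] at hmk
  have h6 : (Us C s).real (Gd C s θ)ᶜ ≤ (Us C s).real {x | 1 / (d * θ ^ 2) ≤ Nq C (mn x)} :=
    measureReal_mono hsub
  have hs' : (0 : ℝ) < s := by exact_mod_cast hs
  rw [le_div_iff₀ hs']
  rw [div_mul_eq_mul_div, one_mul, div_le_div_iff₀ (by positivity) hs'] at hmk
  calc (Us C s).real (Gd C s θ)ᶜ * s
      ≤ (Us C s).real {x | 1 / (d * θ ^ 2) ≤ Nq C (mn x)} * s := by gcongr
    _ ≤ d * (d * θ ^ 2) := hmk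
    _ = _ := by ring

end Pool.Agent.Lib.MP_a34d76_pr
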