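import Mathlib
import Pool.Agent.Lib.MP_a34d76_pr.Iid

open MeasureTheory ProbabilityTheory Filter Topology
open scoped NNReal ENNReal

namespace Pool.Agent.Lib.MP_a34d76_pr

variable {d : ℕ} {C : Set (Fin d → ℝ)}

lemma lintegral_affine (f : (Fin d → ℝ) → ℝ≥0∞) (hf : Measurable f) (a : Fin d → ℝ) {t : ℝ}
    (ht : 0 < t) :
    ∫⁻ y, f (a + t • y) = ENNReal.ofReal ((t ^ d)⁻¹) * ∫⁻ y, f y := by
  have h1 : (volume : Measure (Fin d → ℝ)).map (fun y => t • y)
      = ENNReal.ofReal |(t ^ d)⁻¹| • volume := by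
    have := Measure.map_addHaar_smul (volume : Measure (Fin d → ℝ)) ht.ne'
    rwa [Module.finrank_fin_fun] at this
  have h2 : ∫⁻ y, f (a + t • y) = ∫⁻ y, f (a + y) ∂((volume : Measure (Fin d → ℝ)).map
      (fun y => t • y)) := by
    rw [lintegral_map (by fun_prop) (by fun_prop)]
  rw [h2, h1, lintegral_smul_measure, abs_of_pos (by positivity),
    lintegral_add_left_eq_self f a]
  rfl

/-- Density bound for one coordinate. -/
lemma lintegral_one (hC : Convex ℝ C) {q : (Fin d → ℝ) → ℝ≥0∞} (hq : Measurable q)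
    (a : Fin d → ℝ) {κ : ℝ} (hκ : 0 < κ) :
    ∫⁻ x, (closure C).indicator q (a + κ • x) ∂(Uf C)
      ≤ ENNReal.ofReal ((κ ^ d)⁻¹) * ∫⁻ x, q x ∂(Uf C) := by
  have hcl : MeasurableSet (closure C) := isClosed_closure.measurableSet
  rw [Uf, lintegral_smul_measure, lintegral_smul_measure, smul_eq_mul, smul_eq_mul,
    mul_left_comm]
  gcongr
  calc ∫⁻ x in C, (closure C).indicator q (a + κ • x)
      ≤ ∫⁻ x, (closure C).indicator q (a + κ • x) := setLIntegral_le_lintegral _ _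
    _ = ENNReal.ofReal ((κ ^ d)⁻¹) * ∫⁻ x, (closure C).indicator q x :=
        lintegral_affine _ (hq.indicator hcl) a hκ
    _ = ENNReal.ofReal ((κ ^ d)⁻¹) * ∫⁻ x in C, q x := by
        rw [lintegral_indicator hcl]
        congr 1
        apply setLIntegral_congr
        have h1 : volume (frontier C) = 0 := hC.addHaar_frontier volume
        refine (ae_eq_set.2 ⟨?_, ?_⟩)
        · refine measure_mono_null ?_ h1
          rintro x ⟨hx1, hx2⟩
          exact ⟨hx1, fun h => hx2 (interior_subset h)⟩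
        · rw [Set.sdiff_eq_empty.2 subset_closure]; exact measure_empty

/-- the recentred and shrunk point -/
noncomputable def yy {s : ℕ} (w : Fin d → ℝ) (ρ : ℝ) (l : Fin s) (x : Fin s → Fin d → ℝ) :
    Fin d → ℝ := w + ρ • (x l - mn x)

lemma continuous_yy {s : ℕ} (w : Fin d → ℝ) (ρ : ℝ) (l : Fin s) : Continuous (yy w ρ l) := by
  unfold yy mn; fun_prop

/-- Density bound for the recentred sample. -/
theorem lintegral_yy (hC : Convex ℝ C) (h0 : volume C ≠ 0) (h1 : volume C ≠ ⊤)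
    {s : ℕ} (hs : 2 ≤ s) {q : (Fin d → ℝ) → ℝ≥0∞} (hq : Measurable q) (w : Fin d → ℝ) {ρ : ℝ}
    (hρ : 0 < ρ) (l : Fin s) :
    ∫⁻ x, (closure C).indicator q (yy w ρ l x) ∂(Us C s)
      ≤ ENNReal.ofReal (((ρ * (1 - (s : ℝ)⁻¹)) ^ d)⁻¹) * ∫⁻ x, q x ∂(Uf C) := by
  have hP := isProb_Uf h0 h1
  obtain ⟨n, rfl⟩ : ∃ n, s = n + 1 := ⟨s - 1, by omega⟩
  have hcl : MeasurableSet (closure C) := isClosed_closure.measurableSet
  have hκ : 0 < ρ * (1 - ((n + 1 : ℕ) : ℝ)⁻¹) := by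
    apply mul_pos hρ
    have : ((n + 1 : ℕ) : ℝ)⁻¹ < 1 := inv_lt_one_of_one_lt₀ (by exact_mod_cast (by omega : 1 < n + 1))
    linarith
  have hmp := measurePreserving_piFinSuccAbove (fun _ : Fin (n + 1) => Uf C) l
  have hsymm := hmp.symm
  set e := MeasurableEquiv.piFinSuccAbove (fun _ : Fin (n + 1) => Fin d → ℝ) l with he
  have hf : Measurable fun x => (closure C).indicator q (yy w ρ l x) :=
    (hq.indicator hcl).comp (continuous_yy w ρ l).measurable
  have h2 : ∫⁻ x, (closure C).indicator q (yy w ρ l x) ∂(Us C (n + 1))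
      = ∫⁻ p, (closure C).indicator q (yy w ρ l (e.symm p))
        ∂((Uf C).prod (Measure.pi fun _ : Fin n => Uf C)) := by
    unfold Us
    rw [← hsymm.lintegral_comp hf]
  have hf' : AEMeasurable (fun p => (closure C).indicator q (yy w ρ l (e.symm p)))
      ((Uf C).prod (Measure.pi fun _ : Fin n => Uf C)) :=
    (hf.comp e.symm.measurable).aemeasurable
  rw [h2, lintegral_prod_symm _ hf']
  have h3 : ∀ y : Fin n → Fin d → ℝ, ∫⁻ x, (closure C).indicator q (yy w ρ l (e.symm (x, y)))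
      ∂(Uf C) ≤ ENNReal.ofReal (((ρ * (1 - ((n + 1 : ℕ) : ℝ)⁻¹)) ^ d)⁻¹) * ∫⁻ x, q x ∂(Uf C) := by
    intro y
    have h4 : ∀ x, yy w ρ l (e.symm (x, y)) = (w - (ρ * ((n + 1 : ℕ) : ℝ)⁻¹) • ∑ j, y j)
        + (ρ * (1 - ((n + 1 : ℕ) : ℝ)⁻¹)) • x := by
      intro x
      have e1 : e.symm (x, y) = Fin.insertNth (α := fun _ => Fin d → ℝ) l x y := rfl
      unfold yy mn
      rw [e1, Fin.insertNth_apply_same, Fin.sum_univ_succAbove _ l, Fin.insertNth_apply_same]
      simp only [Fin.insertNth_apply_succAbove]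
      module
    simp_rw [h4]
    exact lintegral_one hC hq _ hκ
  calc _ ≤ ∫⁻ _, ENNReal.ofReal (((ρ * (1 - ((n + 1 : ℕ) : ℝ)⁻¹)) ^ d)⁻¹) * ∫⁻ x, q x ∂(Uf C)
        ∂(Measure.pi fun _ : Fin n => Uf C) := lintegral_mono h3
    _ = _ := by simp

end Pool.Agent.Lib.MP_a34d76_pr
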