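import Mathlib

open MeasureTheory ProbabilityTheory Filter Topology
open scoped NNReal ENNReal

namespace Pool.Agent.Lib.MP_a34d76_pr

/-- In finite dimension the convex hull of a compact set is compact. -/
theorem isCompact_hull {F : Type*} [NormedAddCommGroup F] [NormedSpace ℝ F]
    [FiniteDimensional ℝ F] {K : Set F} (hK : IsCompact K) : IsCompact (convexHull ℝ K) := by
  rcases K.eq_empty_or_nonempty with rfl | ⟨x0, hx0⟩
  · simp
  set N := Module.finrank ℝ F + 1 with hN
  set Φ : (Fin N → ℝ) × (Fin N → F) → F := fun p => ∑ j, p.1 j • p.2 j with hΦ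
  have hΦc : Continuous Φ := by
    simp only [hΦ]
    refine continuous_finsetSum _ fun j _ => ?_
    exact ((continuous_apply j).comp continuous_fst).smul
      ((continuous_apply j).comp continuous_snd)
  have hdom : IsCompact (stdSimplex ℝ (Fin N) ×ˢ Set.pi Set.univ fun _ : Fin N => K) :=
    (isCompact_stdSimplex ℝ (Fin N)).prod (isCompact_univ_pi fun _ => hK)
  have himg : convexHull ℝ K = Φ '' (stdSimplex ℝ (Fin N) ×ˢ Set.pi Set.univ fun _ : Fin N => K) := by
    apply Set.Subset.antisymm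
    · intro x hx
      obtain ⟨ι, hι, z, w, hz, hai, hw, hw1, hwz⟩ := eq_pos_convex_span_of_mem_convexHull hx
      have hcard : Fintype.card ι ≤ Fintype.card (Fin N) := by
        have h3 := hai.card_le_finrank_succ
        have h4 := Submodule.finrank_le (vectorSpan ℝ (Set.range z))
        rw [Fintype.card_fin]
        omega
      obtain ⟨e⟩ := Function.Embedding.nonempty_of_card_le hcard
      have he := e.injective
      refine ⟨(Function.extend e w 0, Function.extend e z fun _ => x0), ⟨⟨?_, ?_⟩, ?_⟩, ?_⟩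
      · intro j
        change 0 ≤ Function.extend e w 0 j
        by_cases hj : ∃ i, e i = j
        · obtain ⟨i, rfl⟩ := hj
          rw [he.extend_apply]
          exact (hw i).le
        · rw [Function.extend_apply' _ _ _ hj]
          exact le_refl _
      · change ∑ j, Function.extend e w 0 j = 1
        rw [← hw1]
        refine (Fintype.sum_of_injective e he _ _ (fun j hj => ?_) (fun i => ?_)).symm
        · rw [Function.extend_apply' w (0 : Fin N → ℝ) j (by simpa using hj)]
          rfl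
        · rw [he.extend_apply]
      · intro j _
        change Function.extend e z (fun _ => x0) j ∈ K
        by_cases hj : ∃ i, e i = j
        · obtain ⟨i, rfl⟩ := hj
          rw [he.extend_apply]
          exact hz ⟨i, rfl⟩
        · rw [Function.extend_apply' _ _ _ hj]
          exact hx0
      · simp only [hΦ]
        rw [← hwz]
        refine (Fintype.sum_of_injective e he _ _ (fun j hj => ?_) (fun i => ?_)).symm
        · rw [Function.extend_apply' w (0 : Fin N → ℝ) j (by simpa using hj)]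
          simp
        · rw [he.extend_apply, he.extend_apply]
    · rintro _ ⟨⟨w, p⟩, ⟨⟨hw, hw1⟩, hp⟩, rfl⟩
      exact (convex_convexHull ℝ K).sum_mem (fun j _ => hw j) hw1
        (fun j _ => subset_convexHull ℝ K (hp j (Set.mem_univ j)))
  rw [himg]
  exact hdom.image hΦc

/-- Contact points of the concave envelope at the origin. -/
theorem exists_contact {d : ℕ} {K : Set (Fin d → ℝ)} (hK : IsCompact K)
    (h0 : (0 : Fin d → ℝ) ∈ K) (G : C(Fin d → ℝ, ℝ)) {η : ℝ} (hη : 0 < η) :
    ∃ (ε : ℝ) (ℓ : (Fin d → ℝ) →L[ℝ] ℝ) (ι : Type) (_ : Fintype ι) (z : ι → Fin d → ℝ)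
      (lam : ι → ℝ), (∀ i, z i ∈ K) ∧ (∀ i, 0 < lam i) ∧ ∑ i, lam i = 1 ∧
      ∑ i, lam i • z i = 0 ∧ ∑ i, lam i * G (z i) = ε ∧ Fintype.card ι ≤ d + 2 ∧
      ∀ x ∈ K, G x < ε + η + ℓ x := by
  set Γ : Set ((Fin d → ℝ) × ℝ) := (fun x => (x, G x)) '' K with hΓ
  have hΓc : IsCompact Γ := hK.image (by fun_prop)
  set H := convexHull ℝ Γ with hH
  have hHc : IsCompact H := isCompact_hull hΓc
  set S : Set ℝ := (fun y => ((0 : Fin d → ℝ), y)) ⁻¹' H with hS
  have hSc : IsCompact S := by
    have hcl : IsClosed S := hHc.isClosed.preimage (by fun_prop)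
    have hb : S ⊆ Prod.snd '' H := fun y hy => ⟨(0, y), hy, rfl⟩
    exact (hHc.image continuous_snd).of_isClosed_subset hcl hb
  have hSne : S.Nonempty := ⟨G 0, subset_convexHull ℝ Γ ⟨0, h0, rfl⟩⟩
  obtain ⟨ε, hεS, hεmax⟩ := hSc.exists_isGreatest hSne
  have hnot : ((0 : Fin d → ℝ), ε + η) ∉ H := by
    intro h
    have := hεmax (show ε + η ∈ S from h)
    linarith
  obtain ⟨f, u, hf1, hf2⟩ := geometric_hahn_banach_closed_point (convex_convexHull ℝ Γ)
    hHc.isClosed hnot
  have hsplit : ∀ (x : Fin d → ℝ) (y : ℝ), f (x, y) = f (x, 0) + y * f (0, 1) := by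
    intro x y
    have e : ((x, y) : (Fin d → ℝ) × ℝ) = (x, 0) + y • (0, 1) := by
      ext <;> simp
    rw [e, map_add, map_smul, smul_eq_mul]
  set a := f (0, 1) with ha
  have h00 : f ((0 : Fin d → ℝ), (0 : ℝ)) = 0 := by
    have : ((0 : Fin d → ℝ), (0 : ℝ)) = 0 := rfl
    rw [this, map_zero]
  have h2 : f ((0 : Fin d → ℝ), ε) < u := hf1 _ hεS
  rw [hsplit, h00] at h2 hf2
  have hapos : 0 < a := by
    by_contra hcon
    push Not at hcon
    nlinarith
  obtain ⟨ι, hι, z', w, hz', hai, hw, hw1, hwz⟩ := eq_pos_convex_span_of_mem_convexHull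
    (show ((0 : Fin d → ℝ), ε) ∈ convexHull ℝ Γ from hεS)
  have hzΓ : ∀ i, z' i ∈ Γ := fun i => hz' ⟨i, rfl⟩
  have hzK : ∀ i, (z' i).1 ∈ K := by
    intro i
    obtain ⟨x, hx, hxe⟩ := hzΓ i
    rw [← hxe]; exact hx
  have hzG : ∀ i, (z' i).2 = G (z' i).1 := by
    intro i
    obtain ⟨x, hx, hxe⟩ := hzΓ i
    rw [← hxe]
  have hcard : Fintype.card ι ≤ d + 2 := by
    have h3 := hai.card_le_finrank_succ
    have h4 := Submodule.finrank_le (vectorSpan ℝ (Set.range z'))
    have h5 : Module.finrank ℝ ((Fin d → ℝ) × ℝ) = d + 1 := by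
      rw [Module.finrank_prod, Module.finrank_fin_fun, Module.finrank_self]
    omega
  refine ⟨ε, -(a⁻¹ • f.comp (ContinuousLinearMap.inl ℝ (Fin d → ℝ) ℝ)), ι, hι,
    fun i => (z' i).1, w, hzK, hw, hw1, ?_, ?_, hcard, ?_⟩
  · have := congrArg Prod.fst hwz
    rw [Prod.fst_sum] at this
    exact this
  · have := congrArg Prod.snd hwz
    rw [Prod.snd_sum] at this
    change _ = ε at this
    rw [← this]
    refine Finset.sum_congr rfl fun i _ => ?_
    rw [Prod.smul_snd, smul_eq_mul, hzG]
  · intro x hx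
    have h3 : f (x, G x) < u := hf1 _ (subset_convexHull ℝ Γ ⟨x, hx, rfl⟩)
    rw [hsplit] at h3
    change G x < ε + η + -(a⁻¹ * f (x, 0))
    have h4 : a * G x < a * (ε + η + -(a⁻¹ * f (x, 0))) := by
      have e : a * (ε + η + -(a⁻¹ * f (x, 0))) = (ε + η) * a - f (x, 0) := by
        field_simp
        ring
      rw [e]
      linarith
    exact lt_of_mul_lt_mul_left h4 hapos.le

end Pool.Agent.Lib.MP_a34d76_pr
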