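import Mathlib
import Pool.Agent.Lib.MP_a34d76_pr.Envelope
import Pool.Agent.Lib.MP_a34d76_pr.Density
import Pool.Agent.Lib.MP_a34d76_pr.Dual

open MeasureTheory ProbabilityTheory Filter Topology
open scoped NNReal ENNReal

namespace Pool.Agent.Lib.MP_a34d76_pr

/-- Put together a configuration with prescribed multiplicities. -/
lemma assemble {E : Type*} {ι : Type} [Fintype ι] {n s : ℕ} (m : ι → ℕ)
    (hms : ∑ i, m i + s = n) (z : ι → E) (Y : Fin s → E) :
    ∃ x : Fin n → E, (∀ K : Set E, (∀ i, z i ∈ K) → (∀ l, Y l ∈ K) → ∀ k, x k ∈ K) ∧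
      ∀ {F : Type} [AddCommMonoid F] (φ : E → F),
        ∑ k, φ (x k) = ∑ i, m i • φ (z i) + ∑ l, φ (Y l) := by
  have hcard : Fintype.card (Fin n) = Fintype.card ((Σ i, Fin (m i)) ⊕ Fin s) := by
    rw [Fintype.card_sum, Fintype.card_sigma, Fintype.card_fin, Fintype.card_fin]
    simp [hms]
  set e := Fintype.equivOfCardEq hcard with he
  refine ⟨fun k => Sum.elim (fun p : Σ i, Fin (m i) => z p.1) Y (e k), ?_, ?_⟩
  · intro K hz hY k
    rcases hk : e k with p | l
    · simp only [hk, Sum.elim_inl]; exact hz _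
    · simp only [hk, Sum.elim_inr]; exact hY _
  · intro F _ φ
    rw [Fintype.sum_equiv e _ (fun q => φ (Sum.elim (fun p : Σ i, Fin (m i) => z p.1) Y q))
      (fun _ => rfl), Fintype.sum_sum_type]
    congr 1
    simp only [Sum.elim_inl]
    rw [Fintype.sum_sigma]
    refine Finset.sum_congr rfl fun i _ => ?_
    simp

variable {d : ℕ} {C : Set (Fin d → ℝ)}

/-- The recentred sample stays in the closure of `C` on the good event. -/
lemma yy_mem (hC : Convex ℝ C) (hd : 0 < d) {s : ℕ} (hs : (d : ℝ) + 1 ≤ s)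
    {ι : Type} [Fintype ι] {z : ι → Fin d → ℝ} (hz : ∀ i, z i ∈ closure C) {th : ι → ℝ}
    (hth : ∀ i, 0 ≤ th i) (hth1 : ∑ i, th i ≤ d + 1) (h00 : (0 : Fin d → ℝ) ∈ closure C)
    {x : Fin s → Fin d → ℝ} (hx : ∀ l, x l ∈ C) (hG : x ∈ Gd C s d) (l : Fin s) :
    yy ((s : ℝ)⁻¹ • ∑ i, th i • z i) ((1 - (d + 1) / s) * (1 - 1 / (d + 1))) l x
      ∈ closure C := by
  have hd' : (0 : ℝ) < d := by exact_mod_cast hd
  have hs' : (0 : ℝ) < s := by linarith
  have hcc := hC.closure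
  -- the point from the rounding
  have h2 : ((d : ℝ) + 1)⁻¹ • ∑ i, th i • z i ∈ closure C := by
    have h3 : ((d : ℝ) + 1)⁻¹ • ∑ i, th i • z i
        = ∑ i, (((d : ℝ) + 1)⁻¹ * th i) • z i + (1 - ∑ i, ((d : ℝ) + 1)⁻¹ * th i) • 0 := by
      rw [smul_zero, add_zero, Finset.smul_sum]
      refine Finset.sum_congr rfl fun i _ => ?_
      rw [smul_smul]
    have hle : ∑ i, ((d : ℝ) + 1)⁻¹ * th i ≤ 1 := by
      rw [← Finset.mul_sum, inv_mul_le_iff₀ (by positivity)]
      linarith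
    have h4 := hcc.sum_mem (t := (Finset.univ : Finset (Option ι)))
      (w := fun o => o.elim (1 - ∑ i, ((d : ℝ) + 1)⁻¹ * th i) (fun i => ((d : ℝ) + 1)⁻¹ * th i))
      (z := fun o => o.elim 0 z) (by
        rintro (_ | i) _
        · simp only [Option.elim]; linarith
        · simp only [Option.elim]; exact mul_nonneg (by positivity) (hth i)) (by
        rw [Fintype.sum_option]; simp) (by
        rintro (_ | i) _
        · exact h00
        · exact hz i)
    rw [Fintype.sum_option] at h4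
    rw [h3, add_comm]
    exact h4
  -- the shrunk and recentred point
  have h5 : (1 - 1 / ((d : ℝ) + 1)) • (x l - mn x) ∈ closure C := by
    have h6 : (1 - 1 / ((d : ℝ) + 1)) • (x l - mn x)
        = (1 - 1 / ((d : ℝ) + 1)) • x l + (1 / ((d : ℝ) + 1)) • ((-(d : ℝ)) • mn x) := by
      have e1 : (1 : ℝ) - 1 / ((d : ℝ) + 1) = d / (d + 1) := by field_simp; ring
      rw [e1, smul_sub, smul_smul, sub_eq_add_neg, ← neg_smul]
      congr 2
      field_simp
    rw [h6]
    refine hcc (subset_closure (hx l)) hG ?_ (by positivity) (by ring)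
    rw [sub_nonneg, div_le_one (by positivity)]
    linarith
  have h7 : yy ((s : ℝ)⁻¹ • ∑ i, th i • z i) ((1 - (d + 1) / s) * (1 - 1 / (d + 1))) l x
      = (((d : ℝ) + 1) / s) • (((d : ℝ) + 1)⁻¹ • ∑ i, th i • z i)
        + (1 - ((d : ℝ) + 1) / (s : ℝ)) • ((1 - 1 / ((d : ℝ) + 1)) • (x l - mn x)) := by
    unfold yy
    rw [smul_smul, smul_smul (1 - ((d : ℝ) + 1) / (s : ℝ))]
    congr 2
    field_simp
  rw [h7]
  refine hcc h2 h5 (by positivity) ?_ (by ring)
  rw [sub_nonneg, div_le_one hs']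
  exact hs

/-- The deterministic part of the argument. -/
theorem exists_mult (hC : Convex ℝ C) (hd : 0 < d) {n K0 : ℕ} (hK0 : d + 1 ≤ K0) (hn : K0 ≤ n)
    (hCc : IsCompact (closure C)) (h00 : (0 : Fin d → ℝ) ∈ closure C) (G : C(Fin d → ℝ, ℝ))
    (hG : ∀ x ∈ Conf n (closure C), ∑ i, G (x i) ≤ 0) {η : ℝ} (hη : 0 < η) :
    ∃ (ε : ℝ) (ℓ : (Fin d → ℝ) →L[ℝ] ℝ) (s : ℕ) (w : Fin d → ℝ),
      K0 ≤ s ∧ s ≤ K0 + d + 1 ∧ (∀ x ∈ closure C, 0 < ε + η + ℓ x - G x) ∧
      ∀ x : Fin s → Fin d → ℝ, (∀ l, x l ∈ C) → x ∈ Gd C s d →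
        (∀ l, yy w ((1 - (d + 1) / s) * (1 - 1 / (d + 1))) l x ∈ closure C) ∧
        n * ε ≤ ∑ l, (ε + η + ℓ (yy w ((1 - (d + 1) / s) * (1 - 1 / (d + 1))) l x)
          - G (yy w ((1 - (d + 1) / s) * (1 - 1 / (d + 1))) l x)) := by
  obtain ⟨ε, ℓ, ι, hι, z, lam, hz, hlam, hlam1, hlamz, hlamG, hcard, hq⟩ :=
    exists_contact hCc h00 G hη
  have hq' : ∀ x ∈ closure C, 0 < ε + η + ℓ x - G x := fun x hx => by
    have := hq x hx; linarith
  set a : ℝ := (n : ℝ) - K0 with ha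
  have hn' : (K0 : ℝ) ≤ n := by exact_mod_cast hn
  have ha0 : 0 ≤ a := by linarith
  set m : ι → ℕ := fun i => ⌊a * lam i⌋₊ with hm
  set th : ι → ℝ := fun i => a * lam i - m i with hth
  have hmle : ∀ i, (m i : ℝ) ≤ a * lam i := fun i =>
    Nat.floor_le (mul_nonneg ha0 (hlam i).le)
  have hth0 : ∀ i, 0 ≤ th i := fun i => by simp only [hth]; linarith [hmle i]
  have hth1 : ∀ i, th i < 1 := fun i => by
    have := Nat.lt_floor_add_one (a * lam i)
    simp only [hth, hm]; linarith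
  have hne : (Finset.univ : Finset ι).Nonempty := by
    by_contra hcon
    rw [Finset.not_nonempty_iff_eq_empty] at hcon
    rw [hcon, Finset.sum_empty] at hlam1
    exact zero_ne_one hlam1
  have hsumth : ∑ i, th i = a - ∑ i, (m i : ℝ) := by
    simp only [hth]
    rw [Finset.sum_sub_distrib, ← Finset.mul_sum, hlam1, mul_one]
  have hsumth_lt : ∑ i, th i < Fintype.card ι := by
    calc ∑ i, th i < ∑ _i : ι, (1 : ℝ) := Finset.sum_lt_sum_of_nonempty hne fun i _ => hth1 i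
      _ = Fintype.card ι := by simp
  have hsum0 : 0 ≤ ∑ i, th i := Finset.sum_nonneg fun i _ => hth0 i
  -- number of free points
  set M : ℕ := ∑ i, m i with hM
  have hMc : (M : ℝ) = ∑ i, (m i : ℝ) := by rw [hM]; push_cast; rfl
  have hMn : M + K0 ≤ n := by
    have : (M : ℝ) + K0 ≤ n := by rw [hMc]; linarith
    exact_mod_cast this
  obtain ⟨s, hs⟩ : ∃ s, M + s = n := ⟨n - M, by omega⟩
  have hsR : (M : ℝ) + s = n := by exact_mod_cast hs
  have hsth : ∑ i, th i = s - K0 := by rw [hsumth, ← hMc]; linarith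
  have hsK : K0 ≤ s := by omega
  have hsK2 : s ≤ K0 + d + 1 := by
    have h2 : (s : ℝ) - K0 < d + 2 := by
      have : (Fintype.card ι : ℝ) ≤ d + 2 := by exact_mod_cast hcard
      linarith
    have h3 : (s : ℝ) < K0 + d + 2 := by linarith
    have h4 : s < K0 + d + 2 := by exact_mod_cast h3
    omega
  have hthd : ∑ i, th i ≤ d + 1 := by
    rw [hsth]
    have : (s : ℝ) ≤ K0 + d + 1 := by exact_mod_cast hsK2
    linarith
  have hspos : (0 : ℝ) < s := by
    have : 0 < s := by omega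
    exact_mod_cast this
  have hsd : (d : ℝ) + 1 ≤ s := by
    have : d + 1 ≤ s := by omega
    exact_mod_cast this
  set w : Fin d → ℝ := (s : ℝ)⁻¹ • ∑ i, th i • z i with hw
  refine ⟨ε, ℓ, s, w, hsK, hsK2, hq', fun x hx hxG => ?_⟩
  set ρ : ℝ := (1 - (d + 1) / s) * (1 - 1 / (d + 1)) with hρ
  have hmem : ∀ l, yy w ρ l x ∈ closure C := fun l =>
    yy_mem hC hd hsd hz hth0 hthd h00 hx hxG l
  refine ⟨hmem, ?_⟩
  obtain ⟨X, hXmem, hXsum⟩ := assemble m hs z (fun l => yy w ρ l x)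
  have hsumY : ∑ l, yy w ρ l x = ∑ i, th i • z i := by
    unfold yy
    have e1 : ∑ _l : Fin s, mn x = ∑ l, x l := by
      rw [Finset.sum_const, Finset.card_univ, Fintype.card_fin, ← Nat.cast_smul_eq_nsmul ℝ, mn,
        smul_smul, mul_inv_cancel₀ hspos.ne', one_smul]
    have e0 : ∑ l, ρ • (x l - mn x) = 0 := by
      rw [← Finset.smul_sum, Finset.sum_sub_distrib, e1, sub_self, smul_zero]
    rw [Finset.sum_add_distrib, e0, add_zero, Finset.sum_const, Finset.card_univ, Fintype.card_fin,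
      ← Nat.cast_smul_eq_nsmul ℝ, hw, smul_smul, mul_inv_cancel₀ hspos.ne', one_smul]
  have hzero : ∑ k, X k = 0 := by
    have h2 := hXsum (F := Fin d → ℝ) (fun y => y)
    rw [h2, hsumY, ← Finset.sum_add_distrib]
    have e1 : ∀ i, m i • z i + th i • z i = a • (lam i • z i) := by
      intro i
      rw [← Nat.cast_smul_eq_nsmul ℝ, ← add_smul, smul_smul]
      congr 1
      simp only [hth]; ring
    simp_rw [e1]
    rw [← Finset.smul_sum, hlamz, smul_zero]
  have hconf : X ∈ Conf n (closure C) := ⟨hXmem _ hz hmem, hzero⟩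
  have hGle := hG X hconf
  rw [hXsum (F := ℝ) (fun y => G y)] at hGle
  have hℓ : ∑ i, m i • ℓ (z i) + ∑ l, ℓ (yy w ρ l x) = 0 := by
    rw [← hXsum (F := ℝ) (fun y => ℓ y), ← map_sum, hzero, map_zero]
  simp only [nsmul_eq_mul] at hGle hℓ
  have hqz : ∑ i, (m i : ℝ) * (ε + η + ℓ (z i) - G (z i)) ≤ a * η := by
    calc ∑ i, (m i : ℝ) * (ε + η + ℓ (z i) - G (z i))
        ≤ ∑ i, (a * lam i) * (ε + η + ℓ (z i) - G (z i)) := by
          refine Finset.sum_le_sum fun i _ => ?_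
          exact mul_le_mul_of_nonneg_right (hmle i) (hq' _ (hz i)).le
      _ = a * ((ε + η) * ∑ i, lam i + ℓ (∑ i, lam i • z i) - ∑ i, lam i * G (z i)) := by
          rw [map_sum, Finset.mul_sum, ← Finset.sum_add_distrib, ← Finset.sum_sub_distrib,
            Finset.mul_sum]
          refine Finset.sum_congr rfl fun i _ => ?_
          rw [map_smul, smul_eq_mul]; ring
      _ = a * η := by rw [hlam1, hlamz, hlamG, map_zero]; ring
  have hexp : ∑ i, (m i : ℝ) * (ε + η + ℓ (z i) - G (z i))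
      = (ε + η) * M + ∑ i, (m i : ℝ) * ℓ (z i) - ∑ i, (m i : ℝ) * G (z i) := by
    rw [hMc, Finset.mul_sum, ← Finset.sum_add_distrib, ← Finset.sum_sub_distrib]
    refine Finset.sum_congr rfl fun i _ => ?_
    ring
  have hexp2 : ∑ l, (ε + η + ℓ (yy w ρ l x) - G (yy w ρ l x))
      = (ε + η) * s + ∑ l, ℓ (yy w ρ l x) - ∑ l, G (yy w ρ l x) := by
    rw [Finset.sum_sub_distrib, Finset.sum_add_distrib, Finset.sum_const, Finset.card_univ,
      Fintype.card_fin, nsmul_eq_mul]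
    ring
  rw [hexp2]
  have haη : a * η ≤ n * η := by
    apply mul_le_mul_of_nonneg_right _ hη.le
    rw [ha]
    have : (0 : ℝ) ≤ K0 := Nat.cast_nonneg _
    linarith
  have e3 : (ε + η) * (M + s) = (ε + η) * n := by rw [hsR]
  nlinarith

end Pool.Agent.Lib.MP_a34d76_pr
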