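import Mathlib
import Pool.Agent.Lib.MP_a34d76_pr.Ineq

open MeasureTheory ProbabilityTheory Filter Topology
open scoped NNReal ENNReal

namespace Pool.Agent.Lib.MP_a34d76_pr

variable {d : ℕ} {C : Set (Fin d → ℝ)}

lemma numeric {d s n : ℕ} (hd : 0 < d) (h1 : 6 * d ^ 4 ≤ s) (h2 : s ≤ 6 * d ^ 4 + d + 1)
    (hn : 50 * d ^ 4 ≤ n) :
    0 < ((1 - ((d : ℝ) + 1) / s) * (1 - 1 / (d + 1)) * (1 - (s : ℝ)⁻¹)) ∧
    (s : ℝ) ≤ n * (1 - (d : ℝ) ^ 4 / s) *
      ((1 - ((d : ℝ) + 1) / s) * (1 - 1 / (d + 1)) * (1 - (s : ℝ)⁻¹)) ^ d := by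
  have hd1 : (1 : ℝ) ≤ d := by exact_mod_cast hd
  have h1' : 6 * (d : ℝ) ^ 4 ≤ s := by exact_mod_cast h1
  have h2' : (s : ℝ) ≤ 6 * (d : ℝ) ^ 4 + d + 1 := by exact_mod_cast h2
  have hn' : 50 * (d : ℝ) ^ 4 ≤ n := by exact_mod_cast hn
  have hp2 : (d : ℝ) ≤ (d : ℝ) ^ 2 := by nlinarith
  have hp4 : (d : ℝ) ^ 2 ≤ (d : ℝ) ^ 4 := by nlinarith
  have hp41 : (1 : ℝ) ≤ (d : ℝ) ^ 4 := by nlinarith
  have hs : (0 : ℝ) < s := by linarith
  have hdpos : (0 : ℝ) < d := by linarith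
  have hA0 : (0 : ℝ) ≤ 1 - ((d : ℝ) + 1) / s := by
    rw [sub_nonneg, div_le_one hs]; linarith
  have hA0' : (0 : ℝ) < 1 - ((d : ℝ) + 1) / s := by
    rw [sub_pos, div_lt_one hs]; linarith
  have hB0 : (0 : ℝ) < 1 - 1 / ((d : ℝ) + 1) := by
    rw [sub_pos, div_lt_one (by linarith)]; linarith
  have hC0 : (0 : ℝ) < 1 - (s : ℝ)⁻¹ := by
    rw [sub_pos]
    exact inv_lt_one_of_one_lt₀ (by linarith)
  refine ⟨by positivity, ?_⟩
  -- Bernoulli
  have hA : (2 : ℝ) / 3 ≤ (1 - ((d : ℝ) + 1) / s) ^ d := by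
    have hb := one_add_mul_le_pow (a := -(((d : ℝ) + 1) / s)) (by linarith) d
    rw [← sub_eq_add_neg] at hb
    refine le_trans ?_ hb
    have : (d : ℝ) * (((d : ℝ) + 1) / s) ≤ 1 / 3 := by
      rw [← mul_div_assoc, div_le_iff₀ hs]; nlinarith
    linarith
  have hC' : (5 : ℝ) / 6 ≤ (1 - (s : ℝ)⁻¹) ^ d := by
    have hb := one_add_mul_le_pow (a := -((s : ℝ)⁻¹)) (by linarith) d
    rw [← sub_eq_add_neg] at hb
    refine le_trans ?_ hb
    have : (d : ℝ) * ((s : ℝ)⁻¹) ≤ 1 / 6 := by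
      rw [← div_eq_mul_inv, div_le_iff₀ hs]; linarith
    linarith
  have hB : (0.3678 : ℝ) ≤ (1 - 1 / ((d : ℝ) + 1)) ^ d := by
    have e1 : (1 : ℝ) - 1 / ((d : ℝ) + 1) = (1 + 1 / (d : ℝ))⁻¹ := by field_simp; ring
    have e2 : (1 + 1 / (d : ℝ)) ^ d ≤ Real.exp 1 := by
      have h3 : 1 + 1 / (d : ℝ) ≤ Real.exp (1 / d) := by
        have := Real.add_one_le_exp (1 / (d : ℝ)); linarith
      calc (1 + 1 / (d : ℝ)) ^ d ≤ (Real.exp (1 / d)) ^ d := by gcongr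
        _ = Real.exp 1 := by
          rw [← Real.exp_nat_mul]; congr 1; field_simp
    rw [e1, inv_pow]
    have h4 := Real.exp_one_lt_d9
    rw [le_inv_comm₀ (by norm_num) (by positivity)]
    refine e2.trans (h4.le.trans ?_)
    norm_num
  have hD : (5 : ℝ) / 6 ≤ 1 - (d : ℝ) ^ 4 / s := by
    have : (d : ℝ) ^ 4 / s ≤ 1 / 6 := by rw [div_le_iff₀ hs]; linarith
    linarith
  rw [mul_pow, mul_pow]
  calc (s : ℝ) ≤ 8 * (d : ℝ) ^ 4 := by linarith
    _ ≤ (50 * (d : ℝ) ^ 4) * (5 / 6) * ((2 / 3) * 0.3678 * (5 / 6)) := by nlinarith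
    _ ≤ n * (1 - (d : ℝ) ^ 4 / s) * ((1 - ((d : ℝ) + 1) / s) ^ d * (1 - 1 / (d + 1)) ^ d
        * (1 - (s : ℝ)⁻¹) ^ d) := by gcongr

lemma integral_lin (hC : Convex ℝ C) (h0 : volume C ≠ 0) (h1 : volume C ≠ ⊤)
    (hcen : ∀ i, ∫ x, x i ∂(Uf C) = 0) (ℓ : (Fin d → ℝ) →L[ℝ] ℝ) : ∫ x, ℓ x ∂(Uf C) = 0 := by
  have e1 : ∀ x : Fin d → ℝ, ℓ x = ∑ i, ℓ (Pi.single i 1) * x i := by
    intro x
    conv_lhs => rw [← Finset.univ_sum_single x]
    rw [map_sum]
    refine Finset.sum_congr rfl fun i _ => ?_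
    have : Pi.single i (x i) = x i • (Pi.single i 1 : Fin d → ℝ) := by
      rw [← Pi.single_smul, smul_eq_mul, mul_one]
    rw [this, map_smul, smul_eq_mul, mul_comm]
  rw [show (fun x => ℓ x) = fun x : Fin d → ℝ => ∑ i, ℓ (Pi.single i 1) * x i from funext e1,
    integral_finsetSum _ fun i _ => (integrable_Uf hC h0 h1 (by fun_prop)).const_mul _]
  refine Finset.sum_eq_zero fun i _ => ?_
  rw [integral_const_mul, hcen, mul_zero]

lemma zero_mem (hC : Convex ℝ C) (h0 : volume C ≠ 0) (h1 : volume C ≠ ⊤)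
    (hcen : ∀ i, ∫ x, x i ∂(Uf C) = 0) : (0 : Fin d → ℝ) ∈ closure C := by
  have hP := isProb_Uf h0 h1
  by_contra hcon
  obtain ⟨ℓ, u, hu1, hu2⟩ := geometric_hahn_banach_closed_point hC.closure isClosed_closure hcon
  rw [map_zero] at hu2
  have h2 := integral_lin hC h0 h1 hcen ℓ
  have h3 : ∫ x, ℓ x ∂(Uf C) ≤ ∫ _, u ∂(Uf C) := by
    refine integral_mono_ae (integrable_Uf hC h0 h1 ℓ.continuous) (integrable_const _) ?_
    filter_upwards [ae_Uf_mem hC] with x hx using (hu1 x (subset_closure hx)).le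
  rw [h2] at h3
  simp at h3
  linarith

/-- The dual inequality. -/
theorem dual_ineq (hC : Convex ℝ C) (h0 : volume C ≠ 0) (h1 : volume C ≠ ⊤)
    (hcen : ∀ i, ∫ x, x i ∂(Uf C) = 0) (hd : 0 < d) {n : ℕ} (hn : 50 * d ^ 4 ≤ n)
    (g : C(Fin d → ℝ, ℝ)) (hg : ∀ x ∈ Conf n (closure C), 0 ≤ ∑ i, g (x i)) :
    0 ≤ ∫ x, g x ∂(Uf C) := by
  by_contra hcon
  push Not at hcon
  have hPf := isProb_Uf h0 h1
  have hCc : IsCompact (closure C) := (isBounded_of_convex hC h0 h1).isCompact_closure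
  have h00 := zero_mem hC h0 h1 hcen
  have hd4 : 1 ≤ d ^ 4 := Nat.one_le_pow _ _ hd
  have hdd4 : d ≤ d ^ 4 := Nat.le_self_pow (by norm_num) d
  obtain ⟨ε, ℓ, s, w, hs1, hs2, hq, hmain⟩ := exists_mult hC hd (n := n) (K0 := 6 * d ^ 4)
    (by omega) (by omega) hCc h00 (-g) (by
      intro x hx
      have := hg x hx
      simp only [ContinuousMap.neg_apply, Finset.sum_neg_distrib]
      linarith) (η := -(∫ x, g x ∂(Uf C)) / 2) (by linarith)
  set γ : ℝ := -(∫ x, g x ∂(Uf C)) with hγ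
  have hγ0 : 0 < γ := by linarith
  have hPs := isProb_Us h0 h1 s
  set q : (Fin d → ℝ) → ℝ := fun y => ε + γ / 2 + ℓ y - (-g) y with hqdef
  have hqc : Continuous q := by
    have h2 : Continuous fun y => (-g) y := (-g).continuous
    have h3 : Continuous fun y => ℓ y := ℓ.continuous
    simp only [hqdef]
    fun_prop
  have hqint : Integrable q (Uf C) := integrable_Uf hC h0 h1 hqc
  have hq0 : ∀ᵐ x ∂(Uf C), 0 ≤ q x := by
    filter_upwards [ae_Uf_mem hC] with x hx using (hq x (subset_closure hx)).le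
  have hqI : ∫ x, q x ∂(Uf C) = ε - γ / 2 := by
    have e1 : ∀ x, q x = (ε + γ / 2) + (ℓ x + g x) := by
      intro x; simp only [hqdef, ContinuousMap.neg_apply]; ring
    simp_rw [e1]
    rw [integral_add (integrable_const _) (integrable_Uf hC h0 h1 (by
      have h3 : Continuous fun y => ℓ y := ℓ.continuous
      have h2 : Continuous fun y => g y := g.continuous
      fun_prop)), integral_add (integrable_Uf hC h0 h1 ℓ.continuous)
      (integrable_Uf hC h0 h1 g.continuous), integral_lin hC h0 h1 hcen ℓ]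
    simp only [integral_const, probReal_univ, smul_eq_mul, one_mul]
    rw [hγ]; ring
  have hε : 0 < ε := by
    have : 0 ≤ ∫ x, q x ∂(Uf C) := integral_nonneg_of_ae hq0
    rw [hqI] at this
    linarith
  obtain ⟨hκ, hnum⟩ := numeric hd hs1 hs2 hn
  set ρ : ℝ := (1 - ((d : ℝ) + 1) / s) * (1 - 1 / (d + 1)) with hρ
  have hd1 : (1 : ℝ) ≤ d := by exact_mod_cast hd
  have hs1' : 6 * (d : ℝ) ^ 4 ≤ s := by exact_mod_cast hs1
  have hp4 : (d : ℝ) ≤ (d : ℝ) ^ 4 := by exact_mod_cast hdd4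
  have hspos : (0 : ℝ) < s := by linarith
  have hρ0 : 0 < ρ := by
    have h2 : (0 : ℝ) < 1 - ((d : ℝ) + 1) / s := by
      rw [sub_pos, div_lt_one hspos]; linarith
    have h3 : (0 : ℝ) < 1 - 1 / ((d : ℝ) + 1) := by
      rw [sub_pos, div_lt_one (by linarith)]; linarith
    positivity
  have hgoodm : MeasurableSet (Gd C s d) := (isClosed_Gd s d).measurableSet
  -- the main integral inequality
  have hI : ENNReal.ofReal (n * ε) * Us C s (Gd C s d)
      ≤ s * (ENNReal.ofReal (((ρ * (1 - (s : ℝ)⁻¹)) ^ d)⁻¹) * ENNReal.ofReal (ε - γ / 2)) := by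
    have hqq : Measurable fun y => ENNReal.ofReal (q y) := hqc.measurable.ennreal_ofReal
    have hqqI : ∫⁻ x, ENNReal.ofReal (q x) ∂(Uf C) = ENNReal.ofReal (ε - γ / 2) := by
      rw [← ofReal_integral_eq_lintegral_ofReal hqint hq0, hqI]
    calc ENNReal.ofReal (n * ε) * Us C s (Gd C s d)
        = ∫⁻ _ in Gd C s d, ENNReal.ofReal (n * ε) ∂(Us C s) := by
          rw [setLIntegral_const]
      _ ≤ ∫⁻ x in Gd C s d, ∑ l, (closure C).indicator (fun y => ENNReal.ofReal (q y))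
            (yy w ρ l x) ∂(Us C s) := by
          refine lintegral_mono_ae ?_
          filter_upwards [ae_restrict_mem hgoodm, ae_restrict_of_ae (ae_Us_mem hC h0 h1 s)]
            with x hxG hxC
          obtain ⟨hmem, hval⟩ := hmain x hxC hxG
          have e1 : ∑ l, (closure C).indicator (fun y => ENNReal.ofReal (q y)) (yy w ρ l x)
              = ENNReal.ofReal (∑ l, q (yy w ρ l x)) := by
            rw [ENNReal.ofReal_sum_of_nonneg fun l _ => (hq _ (hmem l)).le]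
            refine Finset.sum_congr rfl fun l _ => ?_
            rw [Set.indicator_of_mem (hmem l)]
          rw [e1]
          exact ENNReal.ofReal_le_ofReal hval
      _ ≤ ∫⁻ x, ∑ l, (closure C).indicator (fun y => ENNReal.ofReal (q y))
            (yy w ρ l x) ∂(Us C s) := setLIntegral_le_lintegral _ _
      _ = ∑ l : Fin s, ∫⁻ x, (closure C).indicator (fun y => ENNReal.ofReal (q y))
            (yy w ρ l x) ∂(Us C s) := by
          rw [lintegral_finsetSum]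
          intro l _
          exact (hqq.indicator isClosed_closure.measurableSet).comp (continuous_yy w ρ l).measurable
      _ ≤ ∑ _l : Fin s, ENNReal.ofReal (((ρ * (1 - (s : ℝ)⁻¹)) ^ d)⁻¹)
            * ENNReal.ofReal (ε - γ / 2) := by
          refine Finset.sum_le_sum fun l _ => ?_
          rw [← hqqI]
          exact lintegral_yy hC h0 h1 (by omega) hqq w hρ0 l
      _ = _ := by
          rw [Finset.sum_const, Finset.card_univ, Fintype.card_fin, nsmul_eq_mul]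
  have hκpow : 0 < (ρ * (1 - (s : ℝ)⁻¹)) ^ d := pow_pos hκ d
  have hreal : n * ε * (Us C s).real (Gd C s d)
      ≤ s * (((ρ * (1 - (s : ℝ)⁻¹)) ^ d)⁻¹ * (ε - γ / 2)) := by
    have hge : 0 ≤ ε - γ / 2 := by rw [← hqI]; exact integral_nonneg_of_ae hq0
    have h2 := ENNReal.toReal_mono (by
      exact ENNReal.mul_ne_top (ENNReal.natCast_ne_top s)
        (ENNReal.mul_ne_top ENNReal.ofReal_ne_top ENNReal.ofReal_ne_top)) hI
    rw [ENNReal.toReal_mul, ENNReal.toReal_mul, ENNReal.toReal_mul, ENNReal.toReal_ofReal,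
      ENNReal.toReal_ofReal, ENNReal.toReal_ofReal hge, ENNReal.toReal_natCast] at h2
    · exact h2
    · exact (inv_pos.2 hκpow).le
    · positivity
  have hgood : 1 - (d : ℝ) ^ 4 / s ≤ (Us C s).real (Gd C s d) := by
    have h2 := prob_bad hC h0 h1 hcen hd (s := s) (by exact_mod_cast hspos) (θ := (d : ℝ))
      (by linarith)
    rw [probReal_compl_eq_one_sub hgoodm] at h2
    have e : (d : ℝ) ^ 2 * (d : ℝ) ^ 2 / s = (d : ℝ) ^ 4 / s := by ring
    rw [e] at h2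
    linarith
  have hn0 : (0 : ℝ) ≤ n := Nat.cast_nonneg n
  have h3 : (s : ℝ) * ((ρ * (1 - (s : ℝ)⁻¹)) ^ d)⁻¹ ≤ n * (1 - (d : ℝ) ^ 4 / s) := by
    rw [mul_inv_le_iff₀ hκpow]
    exact hnum
  have hpos : 0 < (s : ℝ) * ((ρ * (1 - (s : ℝ)⁻¹)) ^ d)⁻¹ := by positivity
  have h4 : n * ε * (1 - (d : ℝ) ^ 4 / s) ≤ n * ε * (Us C s).real (Gd C s d) :=
    mul_le_mul_of_nonneg_left hgood (by positivity)
  have h5 : (s : ℝ) * (((ρ * (1 - (s : ℝ)⁻¹)) ^ d)⁻¹ * (ε - γ / 2))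
      < (s : ℝ) * ((ρ * (1 - (s : ℝ)⁻¹)) ^ d)⁻¹ * ε := by
    rw [← mul_assoc]
    apply mul_lt_mul_of_pos_left _ hpos
    linarith
  have h6 : (s : ℝ) * ((ρ * (1 - (s : ℝ)⁻¹)) ^ d)⁻¹ * ε ≤ n * (1 - (d : ℝ) ^ 4 / s) * ε :=
    mul_le_mul_of_nonneg_right h3 hε.le
  have h7 : n * (1 - (d : ℝ) ^ 4 / s) * ε = n * ε * (1 - (d : ℝ) ^ 4 / s) := by ring
  linarith

end Pool.Agent.Lib.MP_a34d76_pr
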