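import Mathlib
import Pool.Agent.Lib.MP_a34d76_pr.Final

open MeasureTheory ProbabilityTheory Filter Topology
open scoped NNReal ENNReal

namespace Pool.Agent.Lib.MP_a34d76_pr

variable {d : ℕ} {C : Set (Fin d → ℝ)}

/-- Reduction to the centred case and duality: if the dual inequality holds for the centred
translate of `C`, the uniform distribution on `C` is completely mixable. -/
theorem mixable_of_dual (hC : Convex ℝ C) (h0 : volume C ≠ 0) (h1 : volume C ≠ ⊤) {n : ℕ}
    (hn : 0 < n)
    (H : ∀ C' : Set (Fin d → ℝ), Convex ℝ C' → volume C' ≠ 0 → volume C' ≠ ⊤ →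
      (∀ i, ∫ x, x i ∂(Uf C') = 0) → (∃ c, C' = (fun y => y + c) ⁻¹' C) →
      ∀ g : C(Fin d → ℝ, ℝ), (∀ x ∈ Conf n (closure C'), 0 ≤ ∑ i, g (x i)) →
        0 ≤ ∫ x, g x ∂(Uf C')) :
    ∃ P : Measure (Fin n → (Fin d → ℝ)),
      IsProbabilityMeasure P ∧
      (∀ i : Fin n, P.map (fun x : Fin n → (Fin d → ℝ) => x i)
        = (volume C)⁻¹ • volume.restrict C) ∧
      ∃ c : Fin d → ℝ, ∀ᵐ x ∂P, (∑ i, x i) = c := by
  have hP := isProb_Uf h0 h1
  set c : Fin d → ℝ := fun i => ∫ x, x i ∂(Uf C) with hc
  set C' : Set (Fin d → ℝ) := (fun y => y + c) ⁻¹' C with hC'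
  have hemb : MeasurableEmbedding fun y : Fin d → ℝ => y + c := measurableEmbedding_addRight c
  have hmp : MeasurePreserving (fun y : Fin d → ℝ => y + c) volume volume :=
    measurePreserving_add_right volume c
  have hconv : Convex ℝ C' := by
    intro x hx y hy a b ha hb hab
    simp only [hC', Set.mem_preimage] at hx hy ⊢
    have e : a • x + b • y + c = a • (x + c) + b • (y + c) := by
      calc a • x + b • y + c = a • x + b • y + (a + b) • c := by rw [hab, one_smul]
        _ = _ := by module
    rw [e]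
    exact hC hx hy ha hb hab
  have hvol : volume C' = volume C := by
    rw [hC']; exact measure_preimage_add_right volume c C
  have hmap : (Uf C').map (fun y => y + c) = Uf C := by
    rw [Uf, Uf, Measure.map_smul, hvol]
    congr 1
    exact (hmp.restrict_preimage_emb hemb C).map_eq
  have h0' : volume C' ≠ 0 := by rw [hvol]; exact h0
  have h1' : volume C' ≠ ⊤ := by rw [hvol]; exact h1
  have hP' := isProb_Uf h0' h1'
  have hcen : ∀ i, ∫ x, x i ∂(Uf C') = 0 := by
    intro i
    have h2 : ∫ x, x i ∂(Uf C) = ∫ y, (y + c) i ∂(Uf C') := by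
      conv_lhs => rw [← hmap]
      rw [integral_map (by fun_prop)]
      exact (by fun_prop : Continuous fun x : Fin d → ℝ => x i).aestronglyMeasurable
    have h3 : ∫ y, (y + c) i ∂(Uf C') = ∫ y, y i ∂(Uf C') + c i := by
      simp only [Pi.add_apply]
      rw [integral_add (integrable_Uf hconv h0' h1' (by fun_prop)) (integrable_const _)]
      simp
    rw [h3] at h2
    have : c i = ∫ x, x i ∂(Uf C) := rfl
    linarith
  have hmemcl : ∀ᵐ x ∂(Uf C'), x ∈ closure C' := by
    filter_upwards [ae_Uf_mem hconv] with x hx using subset_closure hx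
  obtain ⟨P, hPp, hPm, hPs⟩ := exists_coupling hn
    (isBounded_of_convex hconv h0' h1').isCompact_closure hmemcl
    (H C' hconv h0' h1' hcen ⟨c, rfl⟩)
  have hT : Measurable fun (x : Fin n → Fin d → ℝ) (i : Fin n) => x i + c := by fun_prop
  refine ⟨P.map fun x i => x i + c, Measure.isProbabilityMeasure_map hT.aemeasurable,
    fun i => ?_, n • c, ?_⟩
  · rw [Measure.map_map (measurable_pi_apply i) hT]
    change P.map ((fun y => y + c) ∘ fun x : Fin n → Fin d → ℝ => x i) = Uf C
    have hadd : Measurable fun y : Fin d → ℝ => y + c := by fun_prop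
    have hev : Measurable fun x : Fin n → Fin d → ℝ => x i := measurable_pi_apply i
    rw [← Measure.map_map hadd hev, hPm i, hmap]
  · rw [ae_map_iff hT.aemeasurable (measurableSet_eq_fun (by fun_prop) measurable_const)]
    filter_upwards [hPs] with x hx
    rw [Finset.sum_add_distrib, hx, zero_add]
    simp

end Pool.Agent.Lib.MP_a34d76_pr
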