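import Mathlib

open MeasureTheory Matrix Finset

namespace Pool.Agent.Lib.MP_a34d76_pr

variable {d N : ℕ}

/-- The weighted Gram matrix `∑ k, t k • a k (a k)ᵀ`. -/
def gram (a : Fin N → Fin d → ℝ) (t : Fin N → ℝ) : Matrix (Fin d) (Fin d) ℝ :=
  Matrix.of fun i j => ∑ k, t k * a k i * a k j

/-- The determinant of the family `a ∘ f`. -/
def dfam (a : Fin N → Fin d → ℝ) (f : Fin d → Fin N) : ℝ :=
  (Matrix.of fun i => a (f i)).det

theorem det_gram_aux (a : Fin N → Fin d → ℝ) (t : Fin N → ℝ) :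
    (gram a t).det = ∑ f : Fin d → Fin N, (∏ i, t (f i)) * (∏ i, a (f i) i) * dfam a f := by
  have h1 : (gram a t).det
      = (detRowAlternating (R := ℝ) (n := Fin d)).toMultilinearMap
          (fun i => ∑ k, (t k * a k i) • a k) := by
    change Matrix.det _ = Matrix.det _
    congr 1
    ext i j
    simp [gram, Finset.sum_apply]
  rw [h1, MultilinearMap.map_sum]
  refine Finset.sum_congr rfl fun f _ => ?_
  rw [MultilinearMap.map_smul_univ, Finset.prod_mul_distrib, smul_eq_mul]
  rfl

theorem dfam_comp_perm (a : Fin N → Fin d → ℝ) (f : Fin d → Fin N) (σ : Equiv.Perm (Fin d)) :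
    dfam a (f ∘ σ) = (Equiv.Perm.sign σ : ℤ) * dfam a f := by
  have := Matrix.det_permute σ (Matrix.of fun i => a (f i))
  simpa [dfam, Matrix.submatrix] using this

theorem dfam_eq_zero (a : Fin N → Fin d → ℝ) (f : Fin d → Fin N) (hf : ¬ Function.Injective f) :
    dfam a f = 0 := by
  simp only [Function.Injective, not_forall] at hf
  obtain ⟨i, j, hij, hne⟩ := hf
  refine Matrix.det_zero_of_row_eq hne ?_
  ext k
  simp [hij]

theorem det_gram (a : Fin N → Fin d → ℝ) (t : Fin N → ℝ) :
    (d.factorial : ℝ) * (gram a t).det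
      = ∑ f : Fin d → Fin N, (∏ i, t (f i)) * dfam a f ^ 2 := by
  have h1 : ∀ σ : Equiv.Perm (Fin d), (gram a t).det
      = ∑ f : Fin d → Fin N, (∏ i, t (f i)) * ((Equiv.Perm.sign σ : ℤ) * ∏ i, a (f (σ i)) i)
          * dfam a f := by
    intro σ
    rw [det_gram_aux]
    rw [← Equiv.sum_comp (Equiv.arrowCongr σ.symm (Equiv.refl (Fin N)))]
    refine Finset.sum_congr rfl fun f _ => ?_
    have e : (Equiv.arrowCongr σ.symm (Equiv.refl (Fin N))) f = f ∘ σ := by
      ext i; simp [Equiv.arrowCongr]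
    rw [e, dfam_comp_perm]
    have e2 : ∏ i, t ((f ∘ σ) i) = ∏ i, t (f i) := Equiv.prod_comp σ (fun i => t (f i))
    rw [e2]
    simp only [Function.comp_apply]
    ring
  have h2 : (d.factorial : ℝ) * (gram a t).det
      = ∑ σ : Equiv.Perm (Fin d), (gram a t).det := by
    rw [Finset.sum_const, Finset.card_univ, Fintype.card_perm, Fintype.card_fin, nsmul_eq_mul]
  rw [h2, Finset.sum_congr rfl fun σ _ => h1 σ, Finset.sum_comm]
  refine Finset.sum_congr rfl fun f _ => ?_
  rw [← Finset.sum_mul, ← Finset.mul_sum, pow_two, mul_assoc]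
  congr 2
  rw [dfam, Matrix.det_apply']
  rfl

/-- Positivity of the lifted density. -/
theorem omega_nonneg (a : Fin N → Fin d → ℝ) (p : Polynomial ℝ) (β : ℝ) (hβ : 0 ≤ β)
    (hp1 : ∀ q ∈ Set.Icc (0 : ℝ) 1, 0 ≤ p.eval q)
    (hp2 : ∀ q ∈ Set.Icc (0 : ℝ) 1, 0 ≤ p.derivative.eval q)
    (s : Fin N → ℝ) (hs : ∀ k, 0 ≤ s k) :
    0 ≤ ∑ J ∈ Fintype.piFinset (fun _ : Fin N => p.support),
      (∏ k, p.coeff (J k)) * (gram a fun k => β * J k).det
        * Real.exp (-∑ k, β * J k * s k) := by
  have hfac : (0 : ℝ) < d.factorial := by exact_mod_cast d.factorial_pos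
  refine nonneg_of_mul_nonneg_right ?_ hfac
  have hq : ∀ k, Real.exp (-(β * s k)) ∈ Set.Icc (0 : ℝ) 1 := fun k =>
    ⟨(Real.exp_pos _).le, Real.exp_le_one_iff.2 (by have := mul_nonneg hβ (hs k); linarith)⟩
  have key : (d.factorial : ℝ) * ∑ J ∈ Fintype.piFinset (fun _ : Fin N => p.support),
      (∏ k, p.coeff (J k)) * (gram a fun k => β * J k).det
        * Real.exp (-∑ k, β * J k * s k)
      = ∑ f : Fin d → Fin N, dfam a f ^ 2 *
          ∑ J ∈ Fintype.piFinset (fun _ : Fin N => p.support),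
            (∏ i, β * (J (f i) : ℝ)) * ∏ k, (p.coeff (J k) * Real.exp (-(β * s k)) ^ J k) := by
    rw [Finset.mul_sum]
    simp_rw [Finset.mul_sum (Fintype.piFinset (fun _ : Fin N => p.support))]
    rw [Finset.sum_comm]
    refine Finset.sum_congr rfl fun J _ => ?_
    have e1 : Real.exp (-∑ k, β * J k * s k) = ∏ k, Real.exp (-(β * s k)) ^ J k := by
      rw [← Finset.sum_neg_distrib, Real.exp_sum]
      refine Finset.prod_congr rfl fun k _ => ?_
      rw [← Real.exp_nat_mul]
      congr 1; ring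
    have e2 := det_gram a fun k => β * (J k : ℝ)
    calc (d.factorial : ℝ) * ((∏ k, p.coeff (J k)) * (gram a fun k => β * J k).det
        * Real.exp (-∑ k, β * J k * s k))
        = ((d.factorial : ℝ) * (gram a fun k => β * J k).det)
          * ((∏ k, p.coeff (J k)) * ∏ k, Real.exp (-(β * s k)) ^ J k) := by rw [e1]; ring
      _ = _ := by
        rw [e2, ← Finset.prod_mul_distrib, Finset.sum_mul]
        refine Finset.sum_congr rfl fun f _ => ?_
        ring
  rw [key]
  refine Finset.sum_nonneg fun f _ => ?_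
  by_cases hf : Function.Injective f
  · refine mul_nonneg (sq_nonneg _) ?_
    have e3 : ∀ J : Fin N → ℕ,
        (∏ i, β * (J (f i) : ℝ)) * ∏ k, (p.coeff (J k) * Real.exp (-(β * s k)) ^ J k)
        = ∏ k, ((if k ∈ Finset.univ.image f then β * (J k : ℝ) else 1)
            * (p.coeff (J k) * Real.exp (-(β * s k)) ^ J k)) := by
      intro J
      have e6 : ∏ i, β * (J (f i) : ℝ)
          = ∏ k, (if k ∈ Finset.univ.image f then β * (J k : ℝ) else 1) := by
        rw [Finset.prod_ite_mem, Finset.univ_inter, Finset.prod_image fun x _ y _ h => hf h]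
      rw [e6, ← Finset.prod_mul_distrib]
    simp_rw [e3]
    rw [Finset.sum_prod_piFinset p.support (fun (k : Fin N) (j : ℕ) =>
      (if k ∈ Finset.univ.image f then β * (j : ℝ) else 1)
            * (p.coeff j * Real.exp (-(β * s k)) ^ j))]
    refine Finset.prod_nonneg fun k _ => ?_
    by_cases hk : k ∈ Finset.univ.image f
    · simp only [hk, if_true]
      have e4 : ∑ j ∈ p.support, β * (j : ℝ) * (p.coeff j * Real.exp (-(β * s k)) ^ j)
          = β * (Real.exp (-(β * s k)) * p.derivative.eval (Real.exp (-(β * s k)))) := by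
        rw [Polynomial.derivative_eval, Polynomial.sum_def, Finset.mul_sum, Finset.mul_sum]
        refine Finset.sum_congr rfl fun j _ => ?_
        rcases Nat.eq_zero_or_pos j with h | h
        · subst h; simp
        · obtain ⟨m, rfl⟩ : ∃ m, j = m + 1 := ⟨j - 1, by omega⟩
          simp only [Nat.add_sub_cancel]
          ring
      rw [e4]
      exact mul_nonneg hβ (mul_nonneg (Real.exp_pos _).le (hp2 _ (hq k)))
    · simp only [hk, if_false, one_mul]
      have e5 : ∑ j ∈ p.support, p.coeff j * Real.exp (-(β * s k)) ^ j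
          = p.eval (Real.exp (-(β * s k))) := by
        rw [Polynomial.eval_eq_sum, Polynomial.sum_def]
      rw [e5]
      exact hp1 _ (hq k)
  · rw [dfam_eq_zero a f hf]; simp

end Pool.Agent.Lib.MP_a34d76_pr
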