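import Mathlib
import Pool.Agent.Lib.MP_a34d76_pr.SymDet

open MeasureTheory Matrix Finset

namespace Pool.Agent.Lib.MP_a34d76_pr

variable {d N : ℕ}

/-- The quadratic form `x ↦ ∑ k, t k * (a k ⬝ᵥ x)^2`. -/
def qf (a : Fin N → Fin d → ℝ) (t : Fin N → ℝ) (x : Fin d → ℝ) : ℝ :=
  ∑ k, t k * (a k ⬝ᵥ x) ^ 2

theorem qf_nonneg {a : Fin N → Fin d → ℝ} {t : Fin N → ℝ} (ht : ∀ k, 0 ≤ t k) (x : Fin d → ℝ) :
    0 ≤ qf a t x := Finset.sum_nonneg fun k _ => mul_nonneg (ht k) (sq_nonneg _)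

theorem continuous_qf (a : Fin N → Fin d → ℝ) (t : Fin N → ℝ) : Continuous (qf a t) := by
  unfold qf
  fun_prop

theorem qf_eq_gram (a : Fin N → Fin d → ℝ) (t : Fin N → ℝ) (x : Fin d → ℝ) :
    qf a t x = x ⬝ᵥ (gram a t *ᵥ x) := by
  simp only [qf, gram, dotProduct, mulVec, Matrix.of_apply, pow_two, Finset.mul_sum,
    Finset.sum_mul]
  rw [Finset.sum_comm]
  refine Finset.sum_congr rfl fun i _ => ?_
  rw [Finset.sum_comm]
  refine Finset.sum_congr rfl fun j _ => ?_
  refine Finset.sum_congr rfl fun k _ => ?_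
  ring

open scoped MatrixOrder in
theorem exists_factor (a : Fin N → Fin d → ℝ) {t : Fin N → ℝ} (ht : ∀ k, 0 ≤ t k) :
    ∃ P : Matrix (Fin d) (Fin d) ℝ, gram a t = Pᵀ * P := by
  set R : Matrix (Fin N) (Fin d) ℝ := Matrix.of fun k i => Real.sqrt (t k) * a k i with hR
  have h1 : gram a t = Rᴴ * R := by
    ext i j
    simp only [gram, Matrix.of_apply, Matrix.mul_apply, Matrix.conjTranspose_apply, hR, star_trivial]
    refine Finset.sum_congr rfl fun k _ => ?_
    have := Real.mul_self_sqrt (ht k)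
    calc t k * a k i * a k j = (Real.sqrt (t k) * Real.sqrt (t k)) * a k i * a k j := by rw [this]
      _ = _ := by ring
  have h2 : (gram a t).PosSemidef := by
    rw [h1]; exact Matrix.posSemidef_conjTranspose_mul_self R
  obtain ⟨P, hP⟩ := CStarAlgebra.nonneg_iff_eq_star_mul_self.mp h2.nonneg
  refine ⟨P, ?_⟩
  rw [hP, Matrix.star_eq_conjTranspose, Matrix.conjTranspose_eq_transpose_of_trivial]

theorem qf_eq_sum_sq {a : Fin N → Fin d → ℝ} {t : Fin N → ℝ} {P : Matrix (Fin d) (Fin d) ℝ}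
    (hP : gram a t = Pᵀ * P) (x : Fin d → ℝ) : qf a t x = ∑ i, (P *ᵥ x) i ^ 2 := by
  rw [qf_eq_gram, hP, ← Matrix.mulVec_mulVec, Matrix.dotProduct_mulVec, Matrix.vecMul_transpose]
  simp [dotProduct, pow_two]

/-- Multivariate Gaussian integral. -/
theorem integral_gauss {a : Fin N → Fin d → ℝ} {t : Fin N → ℝ} (ht : ∀ k, 0 < t k)
    (ha : ∀ x : Fin d → ℝ, (∀ k, a k ⬝ᵥ x = 0) → x = 0) :
    0 < (gram a t).det ∧ ∫ x : Fin d → ℝ, Real.exp (-qf a t x)
      = Real.sqrt Real.pi ^ d / Real.sqrt (gram a t).det := by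
  obtain ⟨P, hP⟩ := exists_factor a fun k => (ht k).le
  have hdet : (gram a t).det = P.det ^ 2 := by
    rw [hP, Matrix.det_mul, Matrix.det_transpose, pow_two]
  have hP0 : P.det ≠ 0 := by
    intro h0
    obtain ⟨v, hv, hPv⟩ := Matrix.exists_mulVec_eq_zero_iff.2 h0
    apply hv
    apply ha
    have h1 : qf a t v = 0 := by rw [qf_eq_sum_sq hP, hPv]; simp
    unfold qf at h1
    rw [Finset.sum_eq_zero_iff_of_nonneg fun k _ => mul_nonneg (ht k).le (sq_nonneg _)] at h1
    intro k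
    have := h1 k (Finset.mem_univ k)
    rcases mul_eq_zero.1 this with h | h
    · exact absurd h (ht k).ne'
    · exact pow_eq_zero_iff (two_ne_zero) |>.1 h
  have hpos : 0 < (gram a t).det := by rw [hdet]; positivity
  refine ⟨hpos, ?_⟩
  have hmap := Real.map_matrix_volume_pi_eq_smul_volume_pi hP0
  have hg : ∫ x : Fin d → ℝ, Real.exp (-∑ i, x i ^ 2) = Real.sqrt Real.pi ^ d := by
    have e1 : ∀ x : Fin d → ℝ, Real.exp (-∑ i, x i ^ 2) = ∏ i, Real.exp (-1 * x i ^ 2) := by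
      intro x
      rw [← Finset.sum_neg_distrib, Real.exp_sum]
      simp
    simp_rw [e1]
    rw [MeasureTheory.integral_fintype_prod_volume_eq_prod (fun (_ : Fin d) (y : ℝ) =>
      Real.exp (-1 * y ^ 2))]
    simp only [integral_gaussian]
    simp
  have hmeas : Measurable fun x : Fin d → ℝ => Matrix.toLin' P x := by
    apply Continuous.measurable
    exact LinearMap.continuous_on_pi _
  have e2 : ∫ x : Fin d → ℝ, Real.exp (-qf a t x)
      = ∫ y, Real.exp (-∑ i, y i ^ 2) ∂(Measure.map (Matrix.toLin' P) volume) := by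
    rw [integral_map hmeas.aemeasurable]
    · refine integral_congr_ae (Filter.Eventually.of_forall fun x => ?_)
      simp only [Matrix.toLin'_apply]
      rw [qf_eq_sum_sq hP]
    · apply Continuous.aestronglyMeasurable
      fun_prop
  rw [e2, hmap, integral_smul_measure, hg, ENNReal.toReal_ofReal (abs_nonneg _), hdet,
    Real.sqrt_sq_eq_abs, smul_eq_mul, abs_inv]
  field_simp

theorem integrable_gauss {a : Fin N → Fin d → ℝ} {t : Fin N → ℝ} (ht : ∀ k, 0 < t k)
    (ha : ∀ x : Fin d → ℝ, (∀ k, a k ⬝ᵥ x = 0) → x = 0) :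
    Integrable fun x : Fin d → ℝ => Real.exp (-qf a t x) := by
  obtain ⟨h1, h2⟩ := integral_gauss ht ha
  by_contra h
  rw [integral_undef h] at h2
  have : (0 : ℝ) < Real.sqrt Real.pi ^ d / Real.sqrt (gram a t).det := by positivity
  linarith

end Pool.Agent.Lib.MP_a34d76_pr
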