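import Mathlib
import Pool.Agent.Lib.MP_a34d76_pr.SymGauss

open MeasureTheory Matrix Finset

namespace Pool.Agent.Lib.MP_a34d76_pr

variable {d N : ℕ}

/-- The joint density on pairs. -/
noncomputable def Wd (a : Fin N → Fin d → ℝ) (p : Polynomial ℝ) (β : ℝ)
    (z : (Fin d → ℝ) × (Fin d → ℝ)) : ℝ :=
  ∑ J ∈ Fintype.piFinset (fun _ : Fin N => p.support),
    (∏ k, p.coeff (J k)) * Real.sqrt (gram a fun k => β * J k).det
      * Real.exp (-(qf a (fun k => β * J k) z.1 + qf a (fun k => β * J k) z.2))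

theorem t_pos {p : Polynomial ℝ} {β : ℝ} (hβ : 0 < β) (hp0 : p.coeff 0 = 0) {J : Fin N → ℕ}
    (hJ : J ∈ Fintype.piFinset (fun _ : Fin N => p.support)) (k : Fin N) : 0 < β * (J k : ℝ) := by
  have h1 := Fintype.mem_piFinset.1 hJ k
  have h2 : J k ≠ 0 := by
    intro h
    rw [h, Polynomial.mem_support_iff] at h1
    exact h1 hp0
  have h3 : (0 : ℝ) < J k := by exact_mod_cast Nat.pos_of_ne_zero h2
  positivity

theorem Wd_nonneg {a : Fin N → Fin d → ℝ} {p : Polynomial ℝ} {β : ℝ} (hβ : 0 < β)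
    (hp0 : p.coeff 0 = 0)
    (hp1 : ∀ q ∈ Set.Icc (0 : ℝ) 1, 0 ≤ p.eval q)
    (hp2 : ∀ q ∈ Set.Icc (0 : ℝ) 1, 0 ≤ p.derivative.eval q)
    (ha : ∀ x : Fin d → ℝ, (∀ k, a k ⬝ᵥ x = 0) → x = 0)
    (z : (Fin d → ℝ) × (Fin d → ℝ)) : 0 ≤ Wd a p β z := by
  have hpi : (0 : ℝ) < Real.sqrt Real.pi ^ d := by positivity
  refine nonneg_of_mul_nonneg_right ?_ hpi
  have e1 : Real.sqrt Real.pi ^ d * Wd a p β z
      = ∫ w : Fin d → ℝ, ∑ J ∈ Fintype.piFinset (fun _ : Fin N => p.support),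
        (∏ k, p.coeff (J k)) * (gram a fun k => β * J k).det
          * Real.exp (-∑ k, β * J k * ((a k ⬝ᵥ z.1) ^ 2 + (a k ⬝ᵥ z.2) ^ 2 + (a k ⬝ᵥ w) ^ 2)) := by
    have e2 : ∀ J ∈ Fintype.piFinset (fun _ : Fin N => p.support), ∀ w : Fin d → ℝ,
        (∏ k, p.coeff (J k)) * (gram a fun k => β * J k).det
          * Real.exp (-∑ k, β * J k * ((a k ⬝ᵥ z.1) ^ 2 + (a k ⬝ᵥ z.2) ^ 2 + (a k ⬝ᵥ w) ^ 2))
        = ((∏ k, p.coeff (J k)) * (gram a fun k => β * J k).det
          * Real.exp (-(qf a (fun k => β * J k) z.1 + qf a (fun k => β * J k) z.2)))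
          * Real.exp (-qf a (fun k => β * J k) w) := by
      intro J _ w
      rw [mul_assoc _ (Real.exp _) (Real.exp _), ← Real.exp_add]
      congr 2
      simp only [qf]
      rw [← Finset.sum_add_distrib, ← Finset.sum_neg_distrib, ← Finset.sum_neg_distrib,
        ← Finset.sum_neg_distrib, ← Finset.sum_add_distrib]
      refine Finset.sum_congr rfl fun k _ => ?_
      ring
    rw [integral_finsetSum]
    · rw [Wd, Finset.mul_sum]
      refine Finset.sum_congr rfl fun J hJ => ?_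
      simp_rw [e2 J hJ]
      rw [integral_const_mul]
      obtain ⟨hdet, hint⟩ := integral_gauss (fun k => t_pos hβ hp0 hJ k) ha
      rw [hint]
      have hs : Real.sqrt (gram a fun k => β * (J k : ℝ)).det ≠ 0 := (Real.sqrt_pos.2 hdet).ne'
      have hss := Real.mul_self_sqrt hdet.le
      field_simp
      rw [pow_two, hss]
    · intro J hJ
      simp_rw [e2 J hJ]
      exact (integrable_gauss (fun k => t_pos hβ hp0 hJ k) ha).const_mul _
  rw [e1]
  refine integral_nonneg fun w => ?_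
  exact omega_nonneg a p β hβ.le hp1 hp2
    (fun k => (a k ⬝ᵥ z.1) ^ 2 + (a k ⬝ᵥ z.2) ^ 2 + (a k ⬝ᵥ w) ^ 2) (fun k => by positivity)

/-- Rotation in the plane of pairs. -/
def rotL (d : ℕ) (c s : ℝ) : ((Fin d → ℝ) × (Fin d → ℝ)) →ₗ[ℝ] ((Fin d → ℝ) × (Fin d → ℝ)) where
  toFun z := (c • z.1 + s • z.2, -s • z.1 + c • z.2)
  map_add' x y := by
    ext i <;> simp <;> ring
  map_smul' r x := by
    ext i <;> simp <;> ring

@[simp] theorem rotL_apply (c s : ℝ) (z : (Fin d → ℝ) × (Fin d → ℝ)) :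
    rotL d c s z = (c • z.1 + s • z.2, -s • z.1 + c • z.2) := rfl

/-- Reflection of the second component. -/
def reflL (d : ℕ) : ((Fin d → ℝ) × (Fin d → ℝ)) →ₗ[ℝ] ((Fin d → ℝ) × (Fin d → ℝ)) where
  toFun z := (z.1, -z.2)
  map_add' x y := by
    ext i <;> simp <;> ring
  map_smul' r x := by
    ext i
    · simp
    · simp

@[simp] theorem reflL_apply (z : (Fin d → ℝ) × (Fin d → ℝ)) : reflL d z = (z.1, -z.2) := rfl

theorem det_rotL_sq {c s : ℝ} (h : c ^ 2 + s ^ 2 = 1) : LinearMap.det (rotL d c s) ^ 2 = 1 := by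
  have h1 : (rotL d c s) ∘ₗ (rotL d c (-s)) = LinearMap.id := by
    apply LinearMap.ext
    intro z
    simp only [LinearMap.comp_apply, rotL_apply, LinearMap.id_apply]
    ext i
    · simp
      linear_combination (z.1 i) * h
    · simp
      linear_combination (z.2 i) * h
  have h2 : (reflL d) ∘ₗ (reflL d) = LinearMap.id := by
    apply LinearMap.ext
    intro z
    simp
  have h3 : (reflL d) ∘ₗ (rotL d c s) ∘ₗ (reflL d) = rotL d c (-s) := by
    apply LinearMap.ext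
    intro z
    simp only [LinearMap.comp_apply, rotL_apply, reflL_apply]
    ext i
    · simp
    · simp
      ring
  have d1 : LinearMap.det (rotL d c s) * LinearMap.det (rotL d c (-s)) = 1 := by
    rw [← LinearMap.det_comp, h1, LinearMap.det_id]
  have d2 : LinearMap.det (reflL d) * LinearMap.det (reflL d) = 1 := by
    rw [← LinearMap.det_comp, h2, LinearMap.det_id]
  have d3 : LinearMap.det (rotL d c (-s)) = LinearMap.det (rotL d c s) := by
    rw [← h3, LinearMap.det_comp, LinearMap.det_comp]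
    linear_combination (LinearMap.det (rotL d c s)) * d2
  rw [d3] at d1
  rw [pow_two]; exact d1

theorem measurePreserving_rotL {c s : ℝ} (h : c ^ 2 + s ^ 2 = 1) :
    MeasurePreserving (rotL d c s) volume volume := by
  have h1 := det_rotL_sq (d := d) h
  have h0 : LinearMap.det (rotL d c s) ≠ 0 := by
    intro h2; rw [h2] at h1; norm_num at h1
  have h3 : |(LinearMap.det (rotL d c s))⁻¹| = 1 := by
    rw [abs_inv, inv_eq_one]
    rw [← sq_abs] at h1
    exact (pow_eq_one_iff_of_nonneg (abs_nonneg _) two_ne_zero).1 h1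
  refine ⟨(LinearMap.continuous_of_finiteDimensional _).measurable, ?_⟩
  have : (volume : Measure ((Fin d → ℝ) × (Fin d → ℝ))).IsAddHaarMeasure :=
    Measure.prod.instIsAddHaarMeasure _ _
  rw [Measure.map_linearMap_addHaar_eq_smul_addHaar volume h0, h3]
  simp

theorem Wd_rotL (a : Fin N → Fin d → ℝ) (p : Polynomial ℝ) (β : ℝ) {c s : ℝ}
    (h : c ^ 2 + s ^ 2 = 1) (z : (Fin d → ℝ) × (Fin d → ℝ)) :
    Wd a p β (rotL d c s z) = Wd a p β z := by
  unfold Wd
  refine Finset.sum_congr rfl fun J _ => ?_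
  congr 3
  simp only [qf, rotL_apply]
  rw [← Finset.sum_add_distrib, ← Finset.sum_add_distrib]
  refine Finset.sum_congr rfl fun k _ => ?_
  simp only [dotProduct_add, dotProduct_smul, smul_eq_mul]
  linear_combination (β * (J k : ℝ) * ((a k ⬝ᵥ z.1) ^ 2 + (a k ⬝ᵥ z.2) ^ 2)) * h

theorem continuous_Wd (a : Fin N → Fin d → ℝ) (p : Polynomial ℝ) (β : ℝ) :
    Continuous (Wd a p β) := by
  unfold Wd
  refine continuous_finsetSum _ fun J _ => ?_
  refine continuous_const.mul (Real.continuous_exp.comp ?_)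
  exact (((continuous_qf a _).comp continuous_fst).add ((continuous_qf a _).comp continuous_snd)).neg

/-- The marginal density. -/
noncomputable def gd (a : Fin N → Fin d → ℝ) (p : Polynomial ℝ) (β : ℝ) (x : Fin d → ℝ) : ℝ :=
  ∏ k, p.eval (Real.exp (-(β * (a k ⬝ᵥ x) ^ 2)))

theorem gd_eq (a : Fin N → Fin d → ℝ) (p : Polynomial ℝ) (β : ℝ) (x : Fin d → ℝ) :
    gd a p β x = ∑ J ∈ Fintype.piFinset (fun _ : Fin N => p.support),
      (∏ k, p.coeff (J k)) * Real.exp (-qf a (fun k => β * J k) x) := by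
  unfold gd
  simp_rw [Polynomial.eval_eq_sum, Polynomial.sum_def]
  rw [Finset.prod_univ_sum]
  refine Finset.sum_congr rfl fun J _ => ?_
  rw [Finset.prod_mul_distrib]
  congr 1
  simp only [qf]
  rw [← Finset.sum_neg_distrib, Real.exp_sum]
  refine Finset.prod_congr rfl fun k _ => ?_
  rw [← Real.exp_nat_mul]
  congr 1; ring

theorem integrable_F_Wd {a : Fin N → Fin d → ℝ} {p : Polynomial ℝ} {β : ℝ} (hβ : 0 < β)
    (hp0 : p.coeff 0 = 0) (ha : ∀ x : Fin d → ℝ, (∀ k, a k ⬝ᵥ x = 0) → x = 0)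
    {F : (Fin d → ℝ) × (Fin d → ℝ) → ℝ} (hF : Measurable F) {L : ℝ} (hL : ∀ x, |F x| ≤ L) :
    Integrable fun z => F z * Wd a p β z := by
  have h1 : Integrable (Wd a p β) := by
    unfold Wd
    refine integrable_finsetSum _ fun J hJ => ?_
    refine Integrable.const_mul ?_ _
    have h2 := integrable_gauss (fun k => t_pos hβ hp0 hJ k) ha
    have h3 := h2.mul_prod h2
    refine h3.congr (Filter.Eventually.of_forall fun z => ?_)
    simp only
    rw [← Real.exp_add]
    congr 1; ring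
  refine h1.bdd_mul (c := L) hF.aestronglyMeasurable (Filter.Eventually.of_forall fun z => ?_)
  simpa [Real.norm_eq_abs] using hL z

theorem integral_fst_Wd {a : Fin N → Fin d → ℝ} {p : Polynomial ℝ} {β : ℝ} (hβ : 0 < β)
    (hp0 : p.coeff 0 = 0) (ha : ∀ x : Fin d → ℝ, (∀ k, a k ⬝ᵥ x = 0) → x = 0)
    {F : (Fin d → ℝ) → ℝ} (hF : Measurable F) {L : ℝ} (hL : ∀ x, |F x| ≤ L) :
    ∫ z : (Fin d → ℝ) × (Fin d → ℝ), F z.1 * Wd a p β z
      = Real.sqrt Real.pi ^ d * ∫ x, F x * gd a p β x := by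
  have hint : ∀ J ∈ Fintype.piFinset (fun _ : Fin N => p.support),
      Integrable fun x => F x * Real.exp (-qf a (fun k => β * (J k : ℝ)) x) := by
    intro J hJ
    refine (integrable_gauss (fun k => t_pos hβ hp0 hJ k) ha).bdd_mul (c := L)
      hF.aestronglyMeasurable (Filter.Eventually.of_forall fun z => ?_)
    simpa [Real.norm_eq_abs] using hL z
  have e1 : ∀ J : Fin N → ℕ, ∀ z : (Fin d → ℝ) × (Fin d → ℝ),
      F z.1 * ((∏ k, p.coeff (J k)) * Real.sqrt (gram a fun k => β * J k).det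
      * Real.exp (-(qf a (fun k => β * J k) z.1 + qf a (fun k => β * J k) z.2)))
      = ((∏ k, p.coeff (J k)) * Real.sqrt (gram a fun k => β * J k).det)
        * ((F z.1 * Real.exp (-qf a (fun k => β * (J k : ℝ)) z.1))
          * Real.exp (-qf a (fun k => β * (J k : ℝ)) z.2)) := by
    intro J z
    rw [neg_add, Real.exp_add]
    ring
  have e2 : ∫ z : (Fin d → ℝ) × (Fin d → ℝ), F z.1 * Wd a p β z
      = ∑ J ∈ Fintype.piFinset (fun _ : Fin N => p.support),
        Real.sqrt Real.pi ^ d * ((∏ k, p.coeff (J k))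
          * ∫ x, F x * Real.exp (-qf a (fun k => β * (J k : ℝ)) x)) := by
    simp_rw [Wd, Finset.mul_sum]
    rw [integral_finsetSum]
    · refine Finset.sum_congr rfl fun J hJ => ?_
      simp_rw [e1 J]
      rw [integral_const_mul]
      obtain ⟨hdet, hi⟩ := integral_gauss (fun k => t_pos hβ hp0 hJ k) ha
      rw [Measure.volume_eq_prod, integral_prod_mul (fun x => F x *
        Real.exp (-qf a (fun k => β * (J k : ℝ)) x))
        (fun y => Real.exp (-qf a (fun k => β * (J k : ℝ)) y)), hi]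
      have hs : Real.sqrt (gram a fun k => β * (J k : ℝ)).det ≠ 0 := (Real.sqrt_pos.2 hdet).ne'
      field_simp
    · intro J hJ
      simp_rw [e1 J]
      exact ((hint J hJ).mul_prod (integrable_gauss (fun k => t_pos hβ hp0 hJ k) ha)).const_mul _
  rw [e2, ← Finset.mul_sum]
  congr 1
  simp_rw [gd_eq, Finset.mul_sum]
  rw [integral_finsetSum]
  · refine Finset.sum_congr rfl fun J hJ => ?_
    rw [← integral_const_mul]
    refine integral_congr_ae (Filter.Eventually.of_forall fun x => ?_)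
    simp only
    ring
  · intro J hJ
    refine ((hint J hJ).const_mul (∏ k, p.coeff (J k))).congr
      (Filter.Eventually.of_forall fun x => ?_)
    simp only
    ring

theorem integral_rot_Wd {a : Fin N → Fin d → ℝ} {p : Polynomial ℝ} {β : ℝ} (hβ : 0 < β)
    (hp0 : p.coeff 0 = 0) (ha : ∀ x : Fin d → ℝ, (∀ k, a k ⬝ᵥ x = 0) → x = 0)
    {F : (Fin d → ℝ) → ℝ} (hF : Measurable F) {L : ℝ} (hL : ∀ x, |F x| ≤ L) {c s : ℝ}
    (h : c ^ 2 + s ^ 2 = 1) :
    ∫ z : (Fin d → ℝ) × (Fin d → ℝ), F (c • z.1 + s • z.2) * Wd a p β z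
      = Real.sqrt Real.pi ^ d * ∫ x, F x * gd a p β x := by
  rw [← integral_fst_Wd hβ hp0 ha hF hL]
  have hmp := measurePreserving_rotL (d := d) h
  conv_rhs => rw [← hmp.map_eq]
  rw [integral_map hmp.measurable.aemeasurable]
  · refine integral_congr_ae (Filter.Eventually.of_forall fun z => ?_)
    simp only
    rw [Wd_rotL a p β h]
    rfl
  · exact ((hF.comp measurable_fst).mul (continuous_Wd a p β).measurable).aestronglyMeasurable

/-- Dual form of the mixability of the density `gd`. -/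
theorem key_dual {a : Fin N → Fin d → ℝ} {p : Polynomial ℝ} {β : ℝ} (hβ : 0 < β)
    (hp0 : p.coeff 0 = 0)
    (hp1 : ∀ q ∈ Set.Icc (0 : ℝ) 1, 0 ≤ p.eval q)
    (hp2 : ∀ q ∈ Set.Icc (0 : ℝ) 1, 0 ≤ p.derivative.eval q)
    (ha : ∀ x : Fin d → ℝ, (∀ k, a k ⬝ᵥ x = 0) → x = 0)
    {n : ℕ} (hn : 2 ≤ n) {F : (Fin d → ℝ) → ℝ} (hF : Measurable F) {L : ℝ}
    (hL : ∀ x, |F x| ≤ L)
    (hsum : ∀ x : Fin n → Fin d → ℝ, ∑ i, x i = 0 → 0 ≤ ∑ i, F (x i)) :
    0 ≤ ∫ x, F x * gd a p β x := by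
  have hn0 : n ≠ 0 := by omega
  have hprim := Complex.isPrimitiveRoot_exp n hn0
  set ζ := Complex.exp (2 * Real.pi * Complex.I / n) with hζ
  have hz0 : ∑ j : Fin n, ζ ^ (j : ℕ) = 0 := by
    rw [Fin.sum_univ_eq_sum_range (fun j => ζ ^ j)]
    exact hprim.geom_sum_eq_zero (by omega)
  have hnorm : ∀ j : ℕ, (ζ ^ j).re ^ 2 + (ζ ^ j).im ^ 2 = 1 := by
    intro j
    have h1 : ‖ζ ^ j‖ = 1 := by rw [norm_pow, hprim.norm'_eq_one hn0, one_pow]
    have h2 := Complex.sq_norm (ζ ^ j)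
    rw [h1, Complex.normSq_apply] at h2
    linarith [h2]
  have hre : ∑ j : Fin n, (ζ ^ (j : ℕ)).re = 0 := by
    rw [← Complex.re_sum, hz0]; rfl
  have him : ∑ j : Fin n, (ζ ^ (j : ℕ)).im = 0 := by
    rw [← Complex.im_sum, hz0]; rfl
  have hnn : (0 : ℝ) < n * Real.sqrt Real.pi ^ d := by
    have : (0 : ℝ) < n := by exact_mod_cast (by omega : 0 < n)
    positivity
  refine nonneg_of_mul_nonneg_right ?_ hnn
  have e1 : (n * Real.sqrt Real.pi ^ d) * ∫ x, F x * gd a p β x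
      = ∫ z : (Fin d → ℝ) × (Fin d → ℝ),
        (∑ j : Fin n, F ((ζ ^ (j : ℕ)).re • z.1 + (ζ ^ (j : ℕ)).im • z.2)) * Wd a p β z := by
    simp_rw [Finset.sum_mul]
    rw [integral_finsetSum]
    · simp_rw [integral_rot_Wd hβ hp0 ha hF hL (hnorm _)]
      rw [Finset.sum_const, Finset.card_univ, Fintype.card_fin, nsmul_eq_mul]
      ring
    · intro j _
      exact integrable_F_Wd hβ hp0 ha (F := fun z : (Fin d → ℝ) × (Fin d → ℝ) =>
        F ((ζ ^ (j : ℕ)).re • z.1 + (ζ ^ (j : ℕ)).im • z.2)) (hF.comp (by fun_prop))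
        (fun z => hL _)
  rw [e1]
  refine integral_nonneg fun z => mul_nonneg ?_ (Wd_nonneg hβ hp0 hp1 hp2 ha z)
  apply hsum
  rw [Finset.sum_add_distrib, ← Finset.sum_smul, ← Finset.sum_smul, hre, him]
  simp

end Pool.Agent.Lib.MP_a34d76_pr
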