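import Mathlib
import Pool.Agent.Lib.MP_a34d76_pr.SymLift

open MeasureTheory Matrix Finset Filter Topology

namespace Pool.Agent.Lib.MP_a34d76_pr

variable {d N : ℕ}

/-- The polynomial `1 - (1 - X)^m`. -/
noncomputable def pm (m : ℕ) : Polynomial ℝ := 1 - (1 - Polynomial.X) ^ m

theorem pm_eval (m : ℕ) (q : ℝ) : (pm m).eval q = 1 - (1 - q) ^ m := by
  simp [pm]

theorem pm_coeff_zero (m : ℕ) : (pm m).coeff 0 = 0 := by
  rw [Polynomial.coeff_zero_eq_eval_zero, pm_eval]; simp

theorem pm_nonneg (m : ℕ) (q : ℝ) (hq : q ∈ Set.Icc (0 : ℝ) 1) : 0 ≤ (pm m).eval q := by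
  rw [pm_eval, sub_nonneg]
  exact pow_le_one₀ (by linarith [hq.2]) (by linarith [hq.1])

theorem pm_le_one (m : ℕ) (q : ℝ) (hq : q ∈ Set.Icc (0 : ℝ) 1) : (pm m).eval q ≤ 1 := by
  rw [pm_eval]
  have : 0 ≤ (1 - q) ^ m := pow_nonneg (by linarith [hq.2]) m
  linarith

theorem pm_deriv_nonneg (m : ℕ) (q : ℝ) (hq : q ∈ Set.Icc (0 : ℝ) 1) :
    0 ≤ (pm m).derivative.eval q := by
  have e : (pm m).derivative = Polynomial.C (m : ℝ) * (1 - Polynomial.X) ^ (m - 1) := by
    simp [pm, Polynomial.derivative_pow]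
  rw [e]
  simp only [Polynomial.eval_mul, Polynomial.eval_C, Polynomial.eval_pow, Polynomial.eval_sub,
    Polynomial.eval_one, Polynomial.eval_X]
  exact mul_nonneg (Nat.cast_nonneg m) (pow_nonneg (by linarith [hq.2]) _)

/-- The cut-off function. -/
noncomputable def phi (m : ℕ) (s : ℝ) : ℝ := (pm m).eval (Real.exp (-(Real.log m * s)))

/-- The limit cut-off function. -/
noncomputable def phiInf (s : ℝ) : ℝ :=
  if s < 1 then 1 else if s = 1 then 1 - Real.exp (-1) else 0

theorem exp_mem {m : ℕ} (hm : 1 ≤ m) {s : ℝ} (hs : 0 ≤ s) :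
    Real.exp (-(Real.log m * s)) ∈ Set.Icc (0 : ℝ) 1 := by
  have h1 : 0 ≤ Real.log m := Real.log_nonneg (by exact_mod_cast hm)
  exact ⟨(Real.exp_pos _).le, Real.exp_le_one_iff.2 (by have := mul_nonneg h1 hs; linarith)⟩

theorem m_mul_exp {m : ℕ} (hm : 1 ≤ m) (s : ℝ) :
    (m : ℝ) * Real.exp (-(Real.log m * s)) = Real.exp (Real.log m * (1 - s)) := by
  have h1 : (0 : ℝ) < m := by exact_mod_cast hm
  conv_lhs => rw [← Real.exp_log h1]
  rw [Real.log_exp, ← Real.exp_add]
  congr 1; ring

theorem phi_nonneg {m : ℕ} (hm : 1 ≤ m) {s : ℝ} (hs : 0 ≤ s) : 0 ≤ phi m s :=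
  pm_nonneg m _ (exp_mem hm hs)

theorem phi_le_exp {m : ℕ} (hm : 1 ≤ m) {s : ℝ} (hs : 0 ≤ s) :
    phi m s ≤ Real.exp (Real.log m * (1 - s)) := by
  rw [← m_mul_exp hm, phi, pm_eval]
  have h1 := exp_mem hm hs
  have h2 := one_add_mul_le_pow (a := -Real.exp (-(Real.log m * s)))
    (by linarith [h1.2]) m
  have h3 : (1 - Real.exp (-(Real.log m * s))) ^ m
      = (1 + -Real.exp (-(Real.log m * s))) ^ m := by ring
  rw [h3]
  linarith

theorem phi_le_one {m : ℕ} (hm : 1 ≤ m) {s : ℝ} (hs : 0 ≤ s) : phi m s ≤ 1 :=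
  pm_le_one m _ (exp_mem hm hs)

theorem phi_le {m : ℕ} (hm : 2 ≤ m) {s : ℝ} (hs : 0 ≤ s) :
    phi m s ≤ 2 * Real.exp (-(Real.log 2 * s)) := by
  have h0 : (2 : ℝ) * Real.exp (-(Real.log 2 * s)) = Real.exp (Real.log 2 * (1 - s)) := by
    have := m_mul_exp (m := 2) (by norm_num) s
    simpa using this
  have hl2 : 0 < Real.log 2 := Real.log_pos (by norm_num)
  rw [h0]
  rcases le_or_gt 1 s with h | h
  · refine (phi_le_exp (by omega) hs).trans ?_
    apply Real.exp_le_exp.2
    have : Real.log 2 ≤ Real.log m := Real.log_le_log (by norm_num) (by exact_mod_cast hm)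
    nlinarith
  · refine (phi_le_one (by omega) hs).trans ?_
    apply Real.one_le_exp
    have : 0 < 1 - s := by linarith
    positivity

theorem tendsto_log_nat : Tendsto (fun m : ℕ => Real.log m) atTop atTop :=
  Real.tendsto_log_atTop.comp tendsto_natCast_atTop_atTop

theorem tendsto_phi {s : ℝ} (hs : 0 ≤ s) : Tendsto (fun m => phi m s) atTop (𝓝 (phiInf s)) := by
  rcases lt_trichotomy s 1 with h | h | h
  · -- `s < 1`
    have e : phiInf s = 1 := by simp [phiInf, h]
    rw [e]
    have hlim : Tendsto (fun m : ℕ => 1 - Real.exp (-Real.exp (Real.log m * (1 - s)))) atTop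
        (𝓝 (1 - 0)) := by
      refine tendsto_const_nhds.sub ?_
      refine Real.tendsto_exp_atBot.comp ?_
      refine tendsto_neg_atTop_atBot.comp ?_
      refine Real.tendsto_exp_atTop.comp ?_
      exact tendsto_log_nat.atTop_mul_const (by linarith)
    rw [sub_zero] at hlim
    refine tendsto_of_tendsto_of_tendsto_of_le_of_le' hlim tendsto_const_nhds ?_ ?_
    · filter_upwards [eventually_ge_atTop 1] with m hm
      rw [phi, pm_eval]
      have h1 := exp_mem hm hs
      have h2 : (1 - Real.exp (-(Real.log m * s))) ^ m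
          ≤ Real.exp (-Real.exp (Real.log m * (1 - s))) := by
        rw [← m_mul_exp hm]
        have h3 : 1 - Real.exp (-(Real.log m * s))
            ≤ Real.exp (-Real.exp (-(Real.log m * s))) := by
          have := Real.add_one_le_exp (-Real.exp (-(Real.log m * s)))
          linarith
        calc (1 - Real.exp (-(Real.log m * s))) ^ m
            ≤ (Real.exp (-Real.exp (-(Real.log m * s)))) ^ m :=
              pow_le_pow_left₀ (by linarith [h1.2]) h3 m
          _ = _ := by
              rw [← Real.exp_nat_mul]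
              congr 1; ring
      linarith
    · filter_upwards [eventually_ge_atTop 1] with m hm
      exact phi_le_one hm hs
  · -- `s = 1`
    subst h
    have e : phiInf 1 = 1 - Real.exp (-1) := by simp [phiInf]
    rw [e]
    have h1 := Real.tendsto_one_add_div_pow_exp (-1)
    refine (tendsto_const_nhds.sub h1).congr' ?_
    filter_upwards [eventually_ge_atTop 1] with m hm
    have hm' : (0 : ℝ) < m := by exact_mod_cast hm
    rw [phi, pm_eval, mul_one, Real.exp_neg, Real.exp_log hm']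
    congr 2
    ring
  · -- `1 < s`
    have e : phiInf s = 0 := by
      simp [phiInf, not_lt.2 h.le, h.ne']
    rw [e]
    have hlim : Tendsto (fun m : ℕ => Real.exp (Real.log m * (1 - s))) atTop (𝓝 0) := by
      refine Real.tendsto_exp_atBot.comp ?_
      exact tendsto_log_nat.atTop_mul_const_of_neg (by linarith)
    refine tendsto_of_tendsto_of_tendsto_of_le_of_le' tendsto_const_nhds hlim ?_ ?_
    · filter_upwards [eventually_ge_atTop 1] with m hm
      exact phi_nonneg hm hs
    · filter_upwards [eventually_ge_atTop 1] with m hm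
      exact phi_le_exp hm hs

/-- The limit density. -/
noncomputable def gInf (a : Fin N → Fin d → ℝ) (x : Fin d → ℝ) : ℝ :=
  ∏ k, phiInf ((a k ⬝ᵥ x) ^ 2)

theorem gInf_eq_one {a : Fin N → Fin d → ℝ} {x : Fin d → ℝ} (h : ∀ k, |a k ⬝ᵥ x| < 1) :
    gInf a x = 1 := by
  refine Finset.prod_eq_one fun k _ => ?_
  have : (a k ⬝ᵥ x) ^ 2 < 1 := by rw [sq_lt_one_iff_abs_lt_one]; exact h k
  simp [phiInf, this]

theorem gInf_eq_zero {a : Fin N → Fin d → ℝ} {x : Fin d → ℝ} (h : ∃ k, 1 < |a k ⬝ᵥ x|) :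
    gInf a x = 0 := by
  obtain ⟨k, hk⟩ := h
  refine Finset.prod_eq_zero (Finset.mem_univ k) ?_
  have : 1 < (a k ⬝ᵥ x) ^ 2 := by rw [one_lt_sq_iff_one_lt_abs]; exact hk
  simp [phiInf, not_lt.2 this.le, this.ne']

theorem phiInf_mem (s : ℝ) : phiInf s ∈ Set.Icc (0 : ℝ) 1 := by
  unfold phiInf
  split_ifs
  · simp
  · have h1 : Real.exp (-1) ≤ 1 := Real.exp_le_one_iff.2 (by norm_num)
    have h2 := Real.exp_pos (-1)
    exact ⟨by linarith, by linarith⟩
  · simp

theorem gInf_mem (a : Fin N → Fin d → ℝ) (x : Fin d → ℝ) : gInf a x ∈ Set.Icc (0 : ℝ) 1 :=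
  ⟨Finset.prod_nonneg fun _ _ => (phiInf_mem _).1,
    Finset.prod_le_one (fun _ _ => (phiInf_mem _).1) fun _ _ => (phiInf_mem _).2⟩

theorem measurable_phiInf : Measurable phiInf := by
  unfold phiInf
  refine Measurable.ite measurableSet_Iio measurable_const ?_
  exact Measurable.ite (measurableSet_singleton 1) measurable_const measurable_const

theorem measurable_gInf (a : Fin N → Fin d → ℝ) : Measurable (gInf a) := by
  unfold gInf
  refine Finset.measurable_fun_prod _ fun k _ => measurable_phiInf.comp ?_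
  apply Continuous.measurable
  fun_prop

/-- The limit of the dual inequality. -/
theorem key_limit {a : Fin N → Fin d → ℝ}
    (ha : ∀ x : Fin d → ℝ, (∀ k, a k ⬝ᵥ x = 0) → x = 0)
    {n : ℕ} (hn : 2 ≤ n) {F : (Fin d → ℝ) → ℝ} (hF : Measurable F) {L : ℝ}
    (hL : ∀ x, |F x| ≤ L)
    (hsum : ∀ x : Fin n → Fin d → ℝ, ∑ i, x i = 0 → 0 ≤ ∑ i, F (x i)) :
    0 ≤ ∫ x, F x * gInf a x := by
  have hL0 : 0 ≤ L := (abs_nonneg _).trans (hL 0)
  have hl2 : 0 < Real.log 2 := Real.log_pos (by norm_num)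
  have hpos : ∀ m : ℕ, 2 ≤ m → 0 ≤ ∫ x, F x * gd a (pm m) (Real.log m) x := by
    intro m hm
    refine key_dual ?_ (pm_coeff_zero m) (pm_nonneg m) (pm_deriv_nonneg m) ha hn hF hL hsum
    exact Real.log_pos (by exact_mod_cast hm)
  have hgd : ∀ (m : ℕ) (x : Fin d → ℝ), gd a (pm m) (Real.log m) x
      = ∏ k, phi m ((a k ⬝ᵥ x) ^ 2) := fun m x => rfl
  have hlim : Tendsto (fun m : ℕ => ∫ x, F x * gd a (pm m) (Real.log m) x) atTop
      (𝓝 (∫ x, F x * gInf a x)) := by
    refine tendsto_integral_filter_of_dominated_convergence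
      (fun x => L * (2 ^ N * Real.exp (-qf a (fun _ => Real.log 2) x))) ?_ ?_ ?_ ?_
    · refine Eventually.of_forall fun m => ?_
      refine (hF.mul ?_).aestronglyMeasurable
      have : Continuous (gd a (pm m) (Real.log m)) := by
        unfold gd
        refine continuous_finsetProd _ fun k _ => ?_
        refine (pm m).continuous.comp (Real.continuous_exp.comp ?_)
        fun_prop
      exact this.measurable
    · filter_upwards [eventually_ge_atTop 2] with m hm
      refine Eventually.of_forall fun x => ?_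
      rw [Real.norm_eq_abs, abs_mul]
      have h1 : |gd a (pm m) (Real.log m) x| ≤ 2 ^ N * Real.exp (-qf a (fun _ => Real.log 2) x) := by
        rw [hgd, abs_of_nonneg (Finset.prod_nonneg fun k _ => phi_nonneg (by omega) (sq_nonneg _))]
        have e : (2 : ℝ) ^ N * Real.exp (-qf a (fun _ => Real.log 2) x)
            = ∏ k : Fin N, 2 * Real.exp (-(Real.log 2 * (a k ⬝ᵥ x) ^ 2)) := by
          rw [Finset.prod_mul_distrib, qf, ← Finset.sum_neg_distrib, Real.exp_sum]
          simp
        rw [e]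
        exact Finset.prod_le_prod (fun k _ => phi_nonneg (by omega) (sq_nonneg _))
          fun k _ => phi_le hm (sq_nonneg _)
      exact mul_le_mul (hL x) h1 (abs_nonneg _) hL0
    · exact ((integrable_gauss (fun _ => hl2) ha).const_mul _).const_mul _
    · refine Eventually.of_forall fun x => ?_
      refine tendsto_const_nhds.mul ?_
      simp_rw [hgd]
      exact tendsto_finsetProd _ fun k _ => tendsto_phi (sq_nonneg _)
  exact ge_of_tendsto hlim ((eventually_ge_atTop 2).mono hpos)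

end Pool.Agent.Lib.MP_a34d76_pr
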