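import Mathlib
import Pool.Agent.Lib.MP_a34d76_pr.SymLimit
import Pool.Agent.Lib.MP_a34d76_pr.Dual

open MeasureTheory Matrix Finset Filter Topology

namespace Pool.Agent.Lib.MP_a34d76_pr

variable {d : ℕ}

theorem exists_dot (f : (Fin d → ℝ) →L[ℝ] ℝ) (r : ℝ) :
    ∃ a : Fin d → ℝ, ∀ x, a ⬝ᵥ x = r * f x := by
  refine ⟨fun i => r * f (Pi.single i 1), fun x => ?_⟩
  have h := LinearMap.pi_apply_eq_sum_univ (f : (Fin d → ℝ) →ₗ[ℝ] ℝ) x
  have h' : f x = ∑ i, x i • f (Pi.single i 1) := by
    have e : f x = (f : (Fin d → ℝ) →ₗ[ℝ] ℝ) x := rfl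
    rw [e, h]
    refine Finset.sum_congr rfl fun i _ => ?_
    congr 1
    change f _ = f _
    congr 1
    ext j
    simp [Pi.single_apply, eq_comm]
  rw [h', Finset.mul_sum]
  simp only [dotProduct, smul_eq_mul]
  refine Finset.sum_congr rfl fun i _ => ?_
  ring

/-- Approximation of a symmetric convex body by symmetric polytopes. -/
theorem exists_polytope {K : Set (Fin d → ℝ)} (hK : IsCompact K) (hc : Convex ℝ K)
    (hs : ∀ x ∈ K, -x ∈ K) (h0 : (0 : Fin d → ℝ) ∈ interior K) {r : ℝ} (hr0 : 0 < r)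
    (hr1 : r < 1) :
    ∃ (N : ℕ) (a : Fin N → Fin d → ℝ), (∀ x ∈ K, ∀ k, |a k ⬝ᵥ x| < 1) ∧
      (∀ x, r • x ∉ K → ∃ k, 1 < |a k ⬝ᵥ x|) ∧
      (∀ x : Fin d → ℝ, (∀ k, a k ⬝ᵥ x = 0) → x = 0) := by
  have hnhds : K ∈ 𝓝 (0 : Fin d → ℝ) := mem_interior_iff_mem_nhds.1 h0
  have h0K : (0 : Fin d → ℝ) ∈ K := interior_subset h0
  have hcont : Continuous (gauge K) := continuous_gauge hc hnhds
  have hle : ∀ x, gauge K x ≤ 1 → x ∈ K := by
    intro x hx
    have := (gauge_le_one_iff_mem_closure hc hnhds).1 hx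
    rwa [hK.isClosed.closure_eq] at this
  obtain ⟨ν, hν1, hν2⟩ : ∃ ν : ℝ, 1 < ν ∧ ν < r⁻¹ := exists_between ((one_lt_inv₀ hr0).2 hr1)
  have hν0 : 0 < ν := by linarith
  set S : Set (Fin d → ℝ) := {x | gauge K x = ν} with hS
  have hSc : IsCompact S := by
    have h1 : IsCompact ((fun y : Fin d → ℝ => ν • y) '' K) := hK.image (by fun_prop)
    refine h1.of_isClosed_subset (isClosed_eq hcont continuous_const) fun x hx => ?_
    refine ⟨ν⁻¹ • x, hle _ ?_, ?_⟩
    · rw [gauge_smul_of_nonneg (by positivity : (0 : ℝ) ≤ ν⁻¹)]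
      have : gauge K x = ν := hx
      rw [this, smul_eq_mul, inv_mul_cancel₀ hν0.ne']
    · simp only
      rw [smul_smul, mul_inv_cancel₀ hν0.ne', one_smul]
  have hsep : ∀ x ∈ S, ∃ a : Fin d → ℝ, (∀ y ∈ K, |a ⬝ᵥ y| < 1) ∧ 1 < a ⬝ᵥ x := by
    intro x hx
    have hxK : x ∉ K := by
      intro h
      have h1 : gauge K x ≤ 1 := gauge_le_one_of_mem h
      have h2 : gauge K x = ν := hx
      linarith
    obtain ⟨f, u, hfu, hux⟩ := geometric_hahn_banach_closed_point hc hK.isClosed hxK
    have hu : 0 < u := by have := hfu 0 h0K; simpa using this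
    obtain ⟨a, ha⟩ := exists_dot f u⁻¹
    refine ⟨a, fun y hy => ?_, ?_⟩
    · rw [ha, abs_lt]
      have h1 := hfu y hy
      have h2 := hfu (-y) (hs y hy)
      rw [map_neg] at h2
      constructor
      · rw [← sub_pos]
        have : u⁻¹ * f y - -1 = u⁻¹ * (u + f y) := by field_simp; ring
        rw [this]
        have : 0 < u + f y := by linarith
        positivity
      · rw [inv_mul_lt_iff₀ hu]; linarith
    · rw [ha, lt_inv_mul_iff₀ hu]; linarith
  choose! A hA1 hA2 using hsep
  have hU : ∀ x ∈ S, {y : Fin d → ℝ | 1 < A x ⬝ᵥ y} ∈ 𝓝 x := by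
    intro x hx
    refine IsOpen.mem_nhds ?_ (hA2 x hx)
    exact isOpen_lt continuous_const (by fun_prop)
  obtain ⟨t, ht1, ht2⟩ := hSc.elim_nhds_subcover (fun x => {y : Fin d → ℝ | 1 < A x ⬝ᵥ y}) hU
  have hout : ∀ x, r • x ∉ K → ∃ k, 1 < |A (t.equivFin.symm k) ⬝ᵥ x| := by
    intro x hx
    have h1 : 1 < gauge K (r • x) := by
      by_contra hcon
      exact hx (hle _ (not_lt.1 hcon))
    rw [gauge_smul_of_nonneg hr0.le, smul_eq_mul] at h1
    have h2 : r⁻¹ < gauge K x := by
      rw [inv_lt_iff_one_lt_mul₀ hr0, mul_comm]; exact h1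
    have h3 : 0 < gauge K x := (inv_pos.2 hr0).trans h2
    have h4 : (ν / gauge K x) • x ∈ S := by
      change gauge K ((ν / gauge K x) • x) = ν
      rw [gauge_smul_of_nonneg (by positivity : 0 ≤ ν / gauge K x), smul_eq_mul]
      field_simp
    obtain ⟨y, hy, hxy⟩ := Set.mem_iUnion₂.1 (ht2 h4)
    refine ⟨t.equivFin ⟨y, hy⟩, ?_⟩
    rw [Equiv.symm_apply_apply]
    have h5 : 1 < A y ⬝ᵥ ((ν / gauge K x) • x) := hxy
    rw [dotProduct_smul, smul_eq_mul] at h5
    have h6 : ν / gauge K x < 1 := (div_lt_one h3).2 (hν2.trans h2)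
    have h7 : 0 < ν / gauge K x := by positivity
    have h8 : 1 < A y ⬝ᵥ x := by
      by_contra hcon
      push Not at hcon
      nlinarith
    exact h8.trans_le (le_abs_self _)
  refine ⟨t.card, fun k => A (t.equivFin.symm k), fun x hx k => ?_, hout, fun x hx => ?_⟩
  · exact hA1 _ (ht1 _ (t.equivFin.symm k).2) x hx
  · by_contra hne
    obtain ⟨R, hR⟩ := hK.isBounded.exists_norm_le
    have hxn : 0 < ‖x‖ := norm_pos_iff.2 hne
    have hR0 : 0 ≤ R := by
      have := hR 0 h0K; simpa using this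
    have h1 : r • (((R + 1) / (r * ‖x‖)) • x) ∉ K := by
      intro h
      have h2 := hR _ h
      rw [smul_smul, norm_smul, Real.norm_eq_abs, abs_of_nonneg (by positivity)] at h2
      have h3 : r * ((R + 1) / (r * ‖x‖)) * ‖x‖ = R + 1 := by field_simp
      rw [h3] at h2
      linarith
    obtain ⟨k, hk⟩ := hout _ h1
    rw [dotProduct_smul, hx k] at hk
    simp at hk
    linarith

/-- The dual inequality for symmetric convex bodies. -/
theorem sym_dual {K : Set (Fin d → ℝ)} (hK : IsCompact K) (hc : Convex ℝ K)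
    (hs : ∀ x ∈ K, -x ∈ K) (h0 : (0 : Fin d → ℝ) ∈ interior K) {n : ℕ} (hn : 2 ≤ n)
    (h : C(Fin d → ℝ, ℝ)) (hh : ∀ x ∈ Conf n K, 0 ≤ ∑ i, h (x i)) :
    0 ≤ ∫ x in K, h x := by
  have h0K : (0 : Fin d → ℝ) ∈ K := interior_subset h0
  obtain ⟨L, hL⟩ := hK.exists_bound_of_continuousOn h.continuous.continuousOn
  have hL' : ∀ x ∈ K, |h x| ≤ L := fun x hx => by simpa [Real.norm_eq_abs] using hL x hx
  have hL0 : 0 ≤ L := (abs_nonneg _).trans (hL' 0 h0K)
  set r : ℕ → ℝ := fun j => 1 - 1 / ((j : ℝ) + 2) with hr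
  have hr0 : ∀ j, 1 / 2 ≤ r j := by
    intro j
    have h1 : (1 : ℝ) / ((j : ℝ) + 2) ≤ 1 / 2 := by
      apply one_div_le_one_div_of_le (by norm_num)
      have : (0 : ℝ) ≤ j := Nat.cast_nonneg j
      linarith
    simp only [hr]; linarith
  have hr1 : ∀ j, r j < 1 := by
    intro j
    have h1 : (0 : ℝ) < 1 / ((j : ℝ) + 2) := by positivity
    simp only [hr]; linarith
  have hrpos : ∀ j, 0 < r j := fun j => by linarith [hr0 j]
  have hrlim : Tendsto r atTop (𝓝 1) := by
    have h1 : Tendsto (fun j : ℕ => 1 / ((j : ℝ) + 2)) atTop (𝓝 0) := by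
      refine Tendsto.const_div_atTop ?_ _
      exact tendsto_atTop_add_const_right _ _ tendsto_natCast_atTop_atTop
    have h2 := (tendsto_const_nhds (x := (1 : ℝ))).sub h1
    rwa [sub_zero] at h2
  choose N a hin hout hspan using fun j => exists_polytope hK hc hs h0 (hrpos j) (hr1 j)
  classical
  set F : ℕ → (Fin d → ℝ) → ℝ := fun j x => if r j • x ∈ K then h (r j • x) else n * L with hF
  have hFm : ∀ j, Measurable (F j) := by
    intro j
    refine Measurable.ite ?_ ?_ measurable_const
    · exact (continuous_const_smul (r j)).measurable hK.measurableSet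
    · exact (h.continuous.comp (continuous_const_smul (r j))).measurable
  have hnL : 0 ≤ (n : ℝ) * L := by positivity
  have hFb : ∀ j x, |F j x| ≤ L + n * L := by
    intro j x
    simp only [hF]
    split_ifs with hx
    · have := hL' _ hx; linarith
    · rw [abs_of_nonneg hnL]; linarith
  have hsum : ∀ j, ∀ x : Fin n → Fin d → ℝ, ∑ i, x i = 0 → 0 ≤ ∑ i, F j (x i) := by
    intro j x hx
    by_cases hall : ∀ i, r j • x i ∈ K
    · have e : ∑ i, F j (x i) = ∑ i, h (r j • x i) := by
        refine Finset.sum_congr rfl fun i _ => ?_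
        simp only [hF, hall i, if_true]
      rw [e]
      exact hh (fun i => r j • x i) ⟨hall, by rw [← Finset.smul_sum, hx, smul_zero]⟩
    · push Not at hall
      obtain ⟨i0, hi0⟩ := hall
      rw [← Finset.add_sum_erase _ _ (Finset.mem_univ i0)]
      have e1 : F j (x i0) = n * L := by simp only [hF, hi0, if_false]
      have e2 : -((n : ℝ) * L) ≤ ∑ i ∈ Finset.univ.erase i0, F j (x i) := by
        have h1 : ∀ i ∈ Finset.univ.erase i0, -L ≤ F j (x i) := by
          intro i _
          simp only [hF]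
          split_ifs with hx
          · exact (abs_le.1 (hL' _ hx)).1
          · linarith
        have h2 := Finset.sum_le_sum h1
        rw [Finset.sum_const, nsmul_eq_mul] at h2
        have h3 : ((Finset.univ.erase i0).card : ℝ) ≤ n := by
          have : (Finset.univ.erase i0).card ≤ n := by
            calc (Finset.univ.erase i0).card ≤ (Finset.univ : Finset (Fin n)).card :=
                  Finset.card_erase_le
              _ = n := by simp
          exact_mod_cast this
        nlinarith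
      rw [e1]; linarith
  have hkey : ∀ j, 0 ≤ ∫ x, F j x * gInf (a j) x := fun j =>
    key_limit (hspan j) hn (hFm j) (hFb j) (hsum j)
  have hlim : Tendsto (fun j => ∫ x, F j x * gInf (a j) x) atTop
      (𝓝 (∫ x, K.indicator (fun x => h x) x)) := by
    have hK2 : IsCompact ((fun y : Fin d → ℝ => (2 : ℝ) • y) '' K) := hK.image (by fun_prop)
    have hscale : ∀ j x, r j • x ∈ K → x ∈ (fun y : Fin d → ℝ => (2 : ℝ) • y) '' K := by
      intro j x hx
      have h1 : (1 / 2 : ℝ) • x ∈ K := by
        have e : (1 / 2 : ℝ) • x = (1 / (2 * r j)) • (r j • x) := by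
          rw [smul_smul]; congr 1
          have := (hrpos j).ne'
          field_simp
        rw [e]
        refine hc.smul_mem_of_zero_mem h0K hx ⟨?_, ?_⟩
        · have := hrpos j; positivity
        · rw [div_le_one (by linarith [hrpos j])]
          linarith [hr0 j]
      exact ⟨(1 / 2 : ℝ) • x, h1, by simp only; rw [smul_smul]; norm_num⟩
    refine tendsto_integral_filter_of_dominated_convergence
      (((fun y : Fin d → ℝ => (2 : ℝ) • y) '' K).indicator fun _ => L) ?_ ?_ ?_ ?_
    · exact Eventually.of_forall fun j =>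
        ((hFm j).mul (measurable_gInf (a j))).aestronglyMeasurable
    · refine Eventually.of_forall fun j => Eventually.of_forall fun x => ?_
      by_cases hx : r j • x ∈ K
      · rw [Set.indicator_of_mem (hscale j x hx), norm_mul, Real.norm_eq_abs, Real.norm_eq_abs]
        have h1 := gInf_mem (a j) x
        have h2 : |gInf (a j) x| ≤ 1 := by rw [abs_of_nonneg h1.1]; exact h1.2
        have h3 : |F j x| ≤ L := by simp only [hF, hx, if_true]; exact hL' _ hx
        calc |F j x| * |gInf (a j) x| ≤ L * 1 := mul_le_mul h3 h2 (abs_nonneg _) hL0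
          _ = L := mul_one _
      · rw [gInf_eq_zero (hout j x hx), mul_zero, norm_zero]
        exact Set.indicator_nonneg (fun _ _ => hL0) x
    · exact (integrable_indicator_iff hK2.measurableSet).2
        (integrableOn_const hK2.measure_lt_top.ne)
    · refine Eventually.of_forall fun x => ?_
      by_cases hx : x ∈ K
      · rw [Set.indicator_of_mem hx]
        have e : ∀ j, F j x * gInf (a j) x = h (r j • x) := by
          intro j
          have h1 : r j • x ∈ K :=
            hc.smul_mem_of_zero_mem h0K hx ⟨(hrpos j).le, (hr1 j).le⟩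
          rw [gInf_eq_one (hin j x hx), mul_one]
          simp only [hF, h1, if_true]
        simp_rw [e]
        have h2 : Tendsto (fun j => r j • x) atTop (𝓝 ((1 : ℝ) • x)) :=
          hrlim.smul tendsto_const_nhds
        rw [one_smul] at h2
        exact (h.continuous.tendsto x).comp h2
      · rw [Set.indicator_of_notMem hx]
        have h2 : Tendsto (fun j => r j • x) atTop (𝓝 ((1 : ℝ) • x)) :=
          hrlim.smul tendsto_const_nhds
        rw [one_smul] at h2
        have h3 : ∀ᶠ j in atTop, r j • x ∈ Kᶜ :=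
          h2.eventually (hK.isClosed.isOpen_compl.mem_nhds hx)
        refine (tendsto_const_nhds (x := (0 : ℝ))).congr' ?_
        filter_upwards [h3] with j hj
        rw [gInf_eq_zero (hout j x hj), mul_zero]
  have hfin := ge_of_tendsto' hlim hkey
  rwa [integral_indicator hK.measurableSet] at hfin

end Pool.Agent.Lib.MP_a34d76_pr
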