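import Mathlib
import Pool.Agent.Lib.MP_a34d76_pr.SymGauge
import Pool.Agent.Lib.MP_a34d76_pr.Coupling

open MeasureTheory ProbabilityTheory Filter Topology
open scoped NNReal ENNReal

namespace Pool.Agent.Lib.MP_a34d76_pr

variable {d : ℕ} {C : Set (Fin d → ℝ)}

/-- Reduction of mixability of `C` to the dual inequality for a translate of `C`. -/
theorem mixable_of_dual_translate (hC : Convex ℝ C) (h0 : volume C ≠ 0) (h1 : volume C ≠ ⊤)
    {n : ℕ} (hn : 0 < n) (c : Fin d → ℝ)
    (H : Convex ℝ ((fun y : Fin d → ℝ => y + c) ⁻¹' C) →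
      volume ((fun y : Fin d → ℝ => y + c) ⁻¹' C) ≠ 0 →
      volume ((fun y : Fin d → ℝ => y + c) ⁻¹' C) ≠ ⊤ →
      ∀ g : C(Fin d → ℝ, ℝ),
        (∀ x ∈ Conf n (closure ((fun y : Fin d → ℝ => y + c) ⁻¹' C)), 0 ≤ ∑ i, g (x i)) →
        0 ≤ ∫ x, g x ∂(Uf ((fun y : Fin d → ℝ => y + c) ⁻¹' C))) :
    ∃ P : Measure (Fin n → (Fin d → ℝ)),
      IsProbabilityMeasure P ∧
      (∀ i : Fin n, P.map (fun x : Fin n → (Fin d → ℝ) => x i)
        = (volume C)⁻¹ • volume.restrict C) ∧
      ∃ c : Fin d → ℝ, ∀ᵐ x ∂P, (∑ i, x i) = c := by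
  have hP := isProb_Uf h0 h1
  set C' : Set (Fin d → ℝ) := (fun y => y + c) ⁻¹' C with hC'
  have hemb : MeasurableEmbedding fun y : Fin d → ℝ => y + c := measurableEmbedding_addRight c
  have hmp : MeasurePreserving (fun y : Fin d → ℝ => y + c) volume volume :=
    measurePreserving_add_right volume c
  have hconv : Convex ℝ C' := by
    intro x hx y hy a b ha hb hab
    simp only [hC', Set.mem_preimage] at hx hy ⊢
    have e : a • x + b • y + c = a • (x + c) + b • (y + c) := by
      calc a • x + b • y + c = a • x + b • y + (a + b) • c := by rw [hab, one_smul]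
        _ = _ := by module
    rw [e]
    exact hC hx hy ha hb hab
  have hvol : volume C' = volume C := by
    rw [hC']; exact measure_preimage_add_right volume c C
  have hmap : (Uf C').map (fun y => y + c) = Uf C := by
    rw [Uf, Uf, Measure.map_smul, hvol]
    congr 1
    exact (hmp.restrict_preimage_emb hemb C).map_eq
  have h0' : volume C' ≠ 0 := by rw [hvol]; exact h0
  have h1' : volume C' ≠ ⊤ := by rw [hvol]; exact h1
  have hP' := isProb_Uf h0' h1'
  have hmemcl : ∀ᵐ x ∂(Uf C'), x ∈ closure C' := by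
    filter_upwards [ae_Uf_mem hconv] with x hx using subset_closure hx
  obtain ⟨P, hPp, hPm, hPs⟩ := exists_coupling hn
    (isBounded_of_convex hconv h0' h1').isCompact_closure hmemcl
    (H hconv h0' h1')
  have hT : Measurable fun (x : Fin n → Fin d → ℝ) (i : Fin n) => x i + c := by fun_prop
  refine ⟨P.map fun x i => x i + c, Measure.isProbabilityMeasure_map hT.aemeasurable,
    fun i => ?_, n • c, ?_⟩
  · rw [Measure.map_map (measurable_pi_apply i) hT]
    change P.map ((fun y => y + c) ∘ fun x : Fin n → Fin d → ℝ => x i) = Uf C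
    have hadd : Measurable fun y : Fin d → ℝ => y + c := by fun_prop
    have hev : Measurable fun x : Fin n → Fin d → ℝ => x i := measurable_pi_apply i
    rw [← Measure.map_map hadd hev, hPm i, hmap]
  · rw [ae_map_iff hT.aemeasurable (measurableSet_eq_fun (by fun_prop) measurable_const)]
    filter_upwards [hPs] with x hx
    rw [Finset.sum_add_distrib, hx, zero_add]
    simp

/-- Complete mixability of the uniform distribution on a centrally symmetric convex body. -/
theorem symmetric_mixable (hC : Convex ℝ C) (h0 : volume C ≠ 0) (h1 : volume C ≠ ⊤)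
    (c : Fin d → ℝ) (hsymm : ∀ x ∈ C, (2 : ℝ) • c - x ∈ C) {n : ℕ} (hn : 2 ≤ n) :
    ∃ P : Measure (Fin n → (Fin d → ℝ)),
      IsProbabilityMeasure P ∧
      (∀ i : Fin n, P.map (fun x : Fin n → (Fin d → ℝ) => x i)
        = (volume C)⁻¹ • volume.restrict C) ∧
      ∃ c : Fin d → ℝ, ∀ᵐ x ∂P, (∑ i, x i) = c := by
  refine mixable_of_dual_translate hC h0 h1 (by omega) c fun hconv h0' h1' g hg => ?_
  set C' : Set (Fin d → ℝ) := (fun y => y + c) ⁻¹' C with hC'
  have hs : ∀ x ∈ C', -x ∈ C' := by
    intro x hx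
    simp only [hC', Set.mem_preimage] at hx ⊢
    have h2 := hsymm _ hx
    have e : (2 : ℝ) • c - (x + c) = -x + c := by module
    rwa [e] at h2
  have hKc : IsCompact (closure C') := (isBounded_of_convex hconv h0' h1').isCompact_closure
  have hsK : ∀ x ∈ closure C', -x ∈ closure C' := by
    intro x hx
    exact map_mem_closure continuous_neg hx hs
  obtain ⟨x0, hx0⟩ := interior_nonempty_of_pos hconv h0'
  have hneg : -x0 ∈ interior C' := by
    have h2 : -interior C' ⊆ interior C' := by
      refine interior_maximal ?_ isOpen_interior.neg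
      intro y hy
      have h3 : -y ∈ C' := interior_subset hy
      have h4 := hs _ h3
      rwa [neg_neg] at h4
    apply h2
    rw [Set.mem_neg, neg_neg]
    exact hx0
  have h00 : (0 : Fin d → ℝ) ∈ interior C' := by
    have h2 := hconv.interior hx0 hneg (by norm_num : (0 : ℝ) ≤ 1 / 2)
      (by norm_num : (0 : ℝ) ≤ 1 / 2) (by norm_num)
    have e : (1 / 2 : ℝ) • x0 + (1 / 2 : ℝ) • -x0 = 0 := by module
    rwa [e] at h2
  have hfin := sym_dual hKc hconv.closure hsK (interior_mono subset_closure h00) hn g hg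
  have hae : closure C' =ᵐ[volume] C' := by
    refine (ae_le_set.2 ?_).antisymm subset_closure.eventuallyLE
    refine measure_mono_null ?_ (hconv.addHaar_frontier volume)
    intro x hx
    exact ⟨hx.1, fun h => hx.2 (interior_subset h)⟩
  rw [setIntegral_congr_set hae] at hfin
  rw [integral_Uf]
  exact mul_nonneg (by positivity) hfin

end Pool.Agent.Lib.MP_a34d76_pr
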