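import Mathlib

open Finset

namespace Pool.Agent.Lib.MP_a34d76_pr

/-- Closing a triangle in the plane. -/
theorem exists_unit_triangle {r a : ℝ} (_hr : 0 ≤ r) (ha : 0 ≤ a) (z : ℂ)
    (h1 : |r - a| ≤ ‖z‖) (h2 : ‖z‖ ≤ r + a) :
    ∃ u : ℂ, ‖u‖ = 1 ∧ ‖z + a * u‖ = r := by
  have h1a := (abs_le.1 h1).1
  have h1b := (abs_le.1 h1).2
  -- the direction of `z`
  obtain ⟨v, hv1, hv2⟩ : ∃ v : ℂ, ‖v‖ = 1 ∧ z = (‖z‖ : ℂ) * v := by
    by_cases hz : z = 0
    · exact ⟨1, by simp, by simp [hz]⟩
    · have hz' : (‖z‖ : ℂ) ≠ 0 := by exact_mod_cast (norm_ne_zero_iff.2 hz)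
      refine ⟨z / ‖z‖, ?_, by field_simp⟩
      rw [norm_div, Complex.norm_real, norm_norm, div_self (norm_ne_zero_iff.2 hz)]
  set f : ℝ → ℝ := fun θ => ‖z + a * (v * Complex.exp (θ * Complex.I))‖ with hf
  have hfc : Continuous f := by
    simp only [hf]
    fun_prop
  have hf0 : f 0 = ‖z‖ + a := by
    simp only [hf]
    have e : z + a * (v * Complex.exp ((0 : ℝ) * Complex.I)) = ((‖z‖ + a : ℝ) : ℂ) * v := by
      conv_lhs => rw [hv2]
      push_cast
      simp
      ring
    rw [e, norm_mul, hv1, mul_one, Complex.norm_real, Real.norm_eq_abs,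
      abs_of_nonneg (by positivity)]
  have hfp : f Real.pi = |‖z‖ - a| := by
    simp only [hf]
    have e : z + a * (v * Complex.exp (Real.pi * Complex.I)) = ((‖z‖ - a : ℝ) : ℂ) * v := by
      conv_lhs => rw [hv2]
      rw [Complex.exp_pi_mul_I]
      push_cast
      ring
    rw [e, norm_mul, hv1, mul_one, Complex.norm_real, Real.norm_eq_abs]
  have hmem : r ∈ Set.Icc (f Real.pi) (f 0) := by
    rw [hf0, hfp]
    constructor
    · rw [abs_le]; constructor <;> linarith
    · linarith
  obtain ⟨θ, -, hθ⟩ := intermediate_value_Icc' Real.pi_pos.le hfc.continuousOn hmem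
  refine ⟨v * Complex.exp (θ * Complex.I), ?_, hθ⟩
  rw [norm_mul, hv1, one_mul, Complex.norm_exp_ofReal_mul_I]

/-- The polygon inequality: every weighted sum of unit vectors can be given any admissible norm. -/
theorem exists_unit_polygon {ι : Type*} [DecidableEq ι] (w : ι → ℝ) (s : Finset ι)
    (hw0 : ∀ i ∈ s, 0 ≤ w i) :
    ∀ r : ℝ, 0 ≤ r → r ≤ ∑ i ∈ s, w i → (∀ i ∈ s, 2 * w i ≤ r + ∑ i ∈ s, w i) →
      ∃ u : ι → ℂ, (∀ i, ‖u i‖ = 1) ∧ ‖∑ i ∈ s, (w i : ℂ) * u i‖ = r := by
  induction s using Finset.induction_on with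
  | empty =>
    intro r hr hr2 _
    refine ⟨fun _ => 1, by simp, ?_⟩
    simp at hr2
    simp
    linarith
  | insert j s hj ih =>
    intro r hr hr2 hr3
    rw [Finset.sum_insert hj] at hr2
    simp only [Finset.sum_insert hj] at hr3
    have hwj : 0 ≤ w j := hw0 j (Finset.mem_insert_self _ _)
    have hws : ∀ i ∈ s, 0 ≤ w i := fun i hi => hw0 i (Finset.mem_insert_of_mem hi)
    have hS : 0 ≤ ∑ i ∈ s, w i := Finset.sum_nonneg hws
    have hle : ∀ i ∈ s, w i ≤ ∑ i ∈ s, w i := fun i hi => Finset.single_le_sum hws hi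
    have hj3 := hr3 j (Finset.mem_insert_self _ _)
    set S := ∑ i ∈ s, w i with hSdef
    set r' := min (r + w j) S with hr'
    obtain ⟨u, hu1, hu2⟩ := ih hws r' (le_min (by linarith) hS) (min_le_right _ _) (by
      intro i hi
      have h1 := hr3 i (Finset.mem_insert_of_mem hi)
      have h2 := hle i hi
      rcases min_choice (r + w j) S with h | h
      · rw [hr', h]; linarith
      · rw [hr', h]; linarith)
    obtain ⟨v, hv1, hv2⟩ := exists_unit_triangle (r := r) (a := w j) hr hwj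
      (∑ i ∈ s, (w i : ℂ) * u i) (by
        rw [hu2]
        refine le_min ?_ ?_
        · rw [abs_le]; constructor <;> linarith
        · rw [abs_le]; constructor <;> linarith) (by rw [hu2]; exact min_le_left _ _)
    refine ⟨Function.update u j v, fun i => ?_, ?_⟩
    · by_cases hij : i = j
      · rw [hij, Function.update_self]; exact hv1
      · rw [Function.update_of_ne hij]; exact hu1 i
    · rw [Finset.sum_insert hj, Function.update_self, add_comm]
      have e : ∑ i ∈ s, (w i : ℂ) * Function.update u j v i = ∑ i ∈ s, (w i : ℂ) * u i := by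
        refine Finset.sum_congr rfl fun i hi => ?_
        rw [Function.update_of_ne]
        rintro rfl
        exact hj hi
      rw [e]
      exact hv2

/-- A closed planar polygon with prescribed side lengths. -/
theorem exists_closed_polygon {n : ℕ} (w : Fin n → ℝ) (hw0 : ∀ i, 0 ≤ w i)
    (hw : ∀ i, 2 * w i ≤ ∑ j, w j) :
    ∃ c s : Fin n → ℝ, (∀ i, c i ^ 2 + s i ^ 2 = 1) ∧ ∑ i, w i * c i = 0 ∧ ∑ i, w i * s i = 0 := by
  obtain ⟨u, hu1, hu2⟩ := exists_unit_polygon w Finset.univ (fun i _ => hw0 i) 0 le_rfl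
    (Finset.sum_nonneg fun i _ => hw0 i) (fun i _ => by rw [zero_add]; exact hw i)
  rw [norm_eq_zero] at hu2
  refine ⟨fun i => (u i).re, fun i => (u i).im, fun i => ?_, ?_, ?_⟩
  · have h2 := Complex.sq_norm (u i)
    rw [hu1, Complex.normSq_apply] at h2
    simp only
    linarith [h2]
  · have := congrArg Complex.re hu2
    rw [Complex.re_sum] at this
    simpa using this
  · have := congrArg Complex.im hu2
    rw [Complex.im_sum] at this
    simpa using this

end Pool.Agent.Lib.MP_a34d76_pr
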