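import Mathlib
import Pool.Agent.Lib.MP_a34d76_pr.SymGauge
import Pool.Agent.Lib.MP_a34d76_pr.Polygon

open MeasureTheory Matrix Finset Filter Topology

namespace Pool.Agent.Lib.MP_a34d76_pr

variable {d N : ℕ}

/-- Weighted dual form of the mixability of the density `gd`. -/
theorem key_dual_w {a : Fin N → Fin d → ℝ} {p : Polynomial ℝ} {β : ℝ} (hβ : 0 < β)
    (hp0 : p.coeff 0 = 0)
    (hp1 : ∀ q ∈ Set.Icc (0 : ℝ) 1, 0 ≤ p.eval q)
    (hp2 : ∀ q ∈ Set.Icc (0 : ℝ) 1, 0 ≤ p.derivative.eval q)
    (ha : ∀ x : Fin d → ℝ, (∀ k, a k ⬝ᵥ x = 0) → x = 0)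
    {n : ℕ} {w : Fin n → ℝ} (hw0 : ∀ i, 0 ≤ w i) (hw : ∀ i, 2 * w i ≤ ∑ j, w j)
    {F : Fin n → (Fin d → ℝ) → ℝ} (hF : ∀ i, Measurable (F i)) {L : ℝ}
    (hL : ∀ i x, |F i x| ≤ L)
    (hsum : ∀ x : Fin n → Fin d → ℝ, ∑ i, w i • x i = 0 → 0 ≤ ∑ i, F i (x i)) :
    0 ≤ ∑ i, ∫ x, F i x * gd a p β x := by
  obtain ⟨c, s, hcs, hc0, hs0⟩ := exists_closed_polygon w hw0 hw
  have hnn : (0 : ℝ) < Real.sqrt Real.pi ^ d := by positivity
  refine nonneg_of_mul_nonneg_right ?_ hnn
  have e1 : Real.sqrt Real.pi ^ d * ∑ i, ∫ x, F i x * gd a p β x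
      = ∫ z : (Fin d → ℝ) × (Fin d → ℝ),
        (∑ j : Fin n, F j (c j • z.1 + s j • z.2)) * Wd a p β z := by
    simp_rw [Finset.sum_mul]
    rw [integral_finsetSum]
    · rw [Finset.mul_sum]
      refine Finset.sum_congr rfl fun j _ => ?_
      rw [integral_rot_Wd hβ hp0 ha (hF j) (hL j) (hcs j)]
    · intro j _
      exact integrable_F_Wd hβ hp0 ha (F := fun z : (Fin d → ℝ) × (Fin d → ℝ) =>
        F j (c j • z.1 + s j • z.2)) ((hF j).comp (by fun_prop))
        (fun z => hL j _)
  rw [e1]
  refine integral_nonneg fun z => mul_nonneg ?_ (Wd_nonneg hβ hp0 hp1 hp2 ha z)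
  apply hsum
  simp_rw [smul_add, smul_smul]
  rw [Finset.sum_add_distrib, ← Finset.sum_smul, ← Finset.sum_smul, hc0, hs0]
  simp

/-- The limit of the weighted dual inequality. -/
theorem key_limit_w {a : Fin N → Fin d → ℝ}
    (ha : ∀ x : Fin d → ℝ, (∀ k, a k ⬝ᵥ x = 0) → x = 0)
    {n : ℕ} {w : Fin n → ℝ} (hw0 : ∀ i, 0 ≤ w i) (hw : ∀ i, 2 * w i ≤ ∑ j, w j)
    {F : Fin n → (Fin d → ℝ) → ℝ} (hF : ∀ i, Measurable (F i)) {L : ℝ} (hL0 : 0 ≤ L)
    (hL : ∀ i x, |F i x| ≤ L)
    (hsum : ∀ x : Fin n → Fin d → ℝ, ∑ i, w i • x i = 0 → 0 ≤ ∑ i, F i (x i)) :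
    0 ≤ ∑ i, ∫ x, F i x * gInf a x := by
  have hl2 : 0 < Real.log 2 := Real.log_pos (by norm_num)
  have hpos : ∀ m : ℕ, 2 ≤ m → 0 ≤ ∑ i, ∫ x, F i x * gd a (pm m) (Real.log m) x := by
    intro m hm
    refine key_dual_w ?_ (pm_coeff_zero m) (pm_nonneg m) (pm_deriv_nonneg m) ha hw0 hw hF hL hsum
    exact Real.log_pos (by exact_mod_cast hm)
  have hgd : ∀ (m : ℕ) (x : Fin d → ℝ), gd a (pm m) (Real.log m) x
      = ∏ k, phi m ((a k ⬝ᵥ x) ^ 2) := fun m x => rfl
  have hlim : ∀ i, Tendsto (fun m : ℕ => ∫ x, F i x * gd a (pm m) (Real.log m) x) atTop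
      (𝓝 (∫ x, F i x * gInf a x)) := by
    intro i
    refine tendsto_integral_filter_of_dominated_convergence
      (fun x => L * (2 ^ N * Real.exp (-qf a (fun _ => Real.log 2) x))) ?_ ?_ ?_ ?_
    · refine Eventually.of_forall fun m => ?_
      refine ((hF i).mul ?_).aestronglyMeasurable
      have : Continuous (gd a (pm m) (Real.log m)) := by
        unfold gd
        refine continuous_finsetProd _ fun k _ => ?_
        refine (pm m).continuous.comp (Real.continuous_exp.comp ?_)
        fun_prop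
      exact this.measurable
    · filter_upwards [eventually_ge_atTop 2] with m hm
      refine Eventually.of_forall fun x => ?_
      rw [Real.norm_eq_abs, abs_mul]
      have h1 : |gd a (pm m) (Real.log m) x| ≤ 2 ^ N * Real.exp (-qf a (fun _ => Real.log 2) x) := by
        rw [hgd, abs_of_nonneg (Finset.prod_nonneg fun k _ => phi_nonneg (by omega) (sq_nonneg _))]
        have e : (2 : ℝ) ^ N * Real.exp (-qf a (fun _ => Real.log 2) x)
            = ∏ k : Fin N, 2 * Real.exp (-(Real.log 2 * (a k ⬝ᵥ x) ^ 2)) := by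
          rw [Finset.prod_mul_distrib, qf, ← Finset.sum_neg_distrib, Real.exp_sum]
          simp
        rw [e]
        exact Finset.prod_le_prod (fun k _ => phi_nonneg (by omega) (sq_nonneg _))
          fun k _ => phi_le hm (sq_nonneg _)
      exact mul_le_mul (hL i x) h1 (abs_nonneg _) hL0
    · exact ((integrable_gauss (fun _ => hl2) ha).const_mul _).const_mul _
    · refine Eventually.of_forall fun x => ?_
      refine tendsto_const_nhds.mul ?_
      simp_rw [hgd]
      exact tendsto_finsetProd _ fun k _ => tendsto_phi (sq_nonneg _)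
  exact ge_of_tendsto (tendsto_finsetSum _ fun i _ => hlim i)
    ((eventually_ge_atTop 2).mono hpos)

/-- The weighted dual inequality for symmetric convex bodies. -/
theorem sym_dual_w {K : Set (Fin d → ℝ)} (hK : IsCompact K) (hc : Convex ℝ K)
    (hs : ∀ x ∈ K, -x ∈ K) (h0 : (0 : Fin d → ℝ) ∈ interior K) {n : ℕ}
    {w : Fin n → ℝ} (hw0 : ∀ i, 0 ≤ w i) (hw : ∀ i, 2 * w i ≤ ∑ j, w j)
    (h : Fin n → C(Fin d → ℝ, ℝ))
    (hh : ∀ x : Fin n → Fin d → ℝ, (∀ i, x i ∈ K) → ∑ i, w i • x i = 0 → 0 ≤ ∑ i, h i (x i)) :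
    0 ≤ ∑ i, ∫ x in K, h i x := by
  have h0K : (0 : Fin d → ℝ) ∈ K := interior_subset h0
  obtain ⟨L, hL0, hL'⟩ : ∃ L : ℝ, 0 ≤ L ∧ ∀ i, ∀ x ∈ K, |h i x| ≤ L := by
    have hb : ∀ i, ∃ L : ℝ, ∀ x ∈ K, |h i x| ≤ L := by
      intro i
      obtain ⟨L, hL⟩ := hK.exists_bound_of_continuousOn (h i).continuous.continuousOn
      exact ⟨L, fun x hx => by simpa [Real.norm_eq_abs] using hL x hx⟩
    choose B hB using hb
    refine ⟨∑ i, |B i|, Finset.sum_nonneg fun i _ => abs_nonneg _, fun i x hx => ?_⟩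
    refine (hB i x hx).trans ((le_abs_self _).trans ?_)
    exact Finset.single_le_sum (f := fun i => |B i|) (fun i _ => abs_nonneg _) (Finset.mem_univ i)
  set r : ℕ → ℝ := fun j => 1 - 1 / ((j : ℝ) + 2) with hr
  have hr0 : ∀ j, 1 / 2 ≤ r j := by
    intro j
    have h1 : (1 : ℝ) / ((j : ℝ) + 2) ≤ 1 / 2 := by
      apply one_div_le_one_div_of_le (by norm_num)
      have : (0 : ℝ) ≤ j := Nat.cast_nonneg j
      linarith
    simp only [hr]; linarith
  have hr1 : ∀ j, r j < 1 := by
    intro j
    have h1 : (0 : ℝ) < 1 / ((j : ℝ) + 2) := by positivity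
    simp only [hr]; linarith
  have hrpos : ∀ j, 0 < r j := fun j => by linarith [hr0 j]
  have hrlim : Tendsto r atTop (𝓝 1) := by
    have h1 : Tendsto (fun j : ℕ => 1 / ((j : ℝ) + 2)) atTop (𝓝 0) := by
      refine Tendsto.const_div_atTop ?_ _
      exact tendsto_atTop_add_const_right _ _ tendsto_natCast_atTop_atTop
    have h2 := (tendsto_const_nhds (x := (1 : ℝ))).sub h1
    rwa [sub_zero] at h2
  choose N a hin hout hspan using fun j => exists_polytope hK hc hs h0 (hrpos j) (hr1 j)
  classical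
  set F : ℕ → Fin n → (Fin d → ℝ) → ℝ :=
    fun j i x => if r j • x ∈ K then h i (r j • x) else n * L with hF
  have hFm : ∀ j i, Measurable (F j i) := by
    intro j i
    refine Measurable.ite ?_ ?_ measurable_const
    · exact (continuous_const_smul (r j)).measurable hK.measurableSet
    · exact ((h i).continuous.comp (continuous_const_smul (r j))).measurable
  have hnL : 0 ≤ (n : ℝ) * L := by positivity
  have hFb : ∀ j i x, |F j i x| ≤ L + n * L := by
    intro j i x
    simp only [hF]
    split_ifs with hx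
    · have := hL' i _ hx; linarith
    · rw [abs_of_nonneg hnL]; linarith
  have hsum : ∀ j, ∀ x : Fin n → Fin d → ℝ, ∑ i, w i • x i = 0 → 0 ≤ ∑ i, F j i (x i) := by
    intro j x hx
    by_cases hall : ∀ i, r j • x i ∈ K
    · have e : ∑ i, F j i (x i) = ∑ i, h i (r j • x i) := by
        refine Finset.sum_congr rfl fun i _ => ?_
        simp only [hF, hall i, if_true]
      rw [e]
      refine hh (fun i => r j • x i) hall ?_
      have e2 : ∑ i, w i • (r j • x i) = r j • ∑ i, w i • x i := by
        rw [Finset.smul_sum]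
        refine Finset.sum_congr rfl fun i _ => ?_
        rw [smul_comm]
      rw [e2, hx, smul_zero]
    · push Not at hall
      obtain ⟨i0, hi0⟩ := hall
      rw [← Finset.add_sum_erase _ _ (Finset.mem_univ i0)]
      have e1 : F j i0 (x i0) = n * L := by simp only [hF, hi0, if_false]
      have e2 : -((n : ℝ) * L) ≤ ∑ i ∈ Finset.univ.erase i0, F j i (x i) := by
        have h1 : ∀ i ∈ Finset.univ.erase i0, -L ≤ F j i (x i) := by
          intro i _
          simp only [hF]
          split_ifs with hx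
          · exact (abs_le.1 (hL' i _ hx)).1
          · linarith
        have h2 := Finset.sum_le_sum h1
        rw [Finset.sum_const, nsmul_eq_mul] at h2
        have h3 : ((Finset.univ.erase i0).card : ℝ) ≤ n := by
          have : (Finset.univ.erase i0).card ≤ n := by
            calc (Finset.univ.erase i0).card ≤ (Finset.univ : Finset (Fin n)).card :=
                  Finset.card_erase_le
              _ = n := by simp
          exact_mod_cast this
        nlinarith
      rw [e1]; linarith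
  have hkey : ∀ j, 0 ≤ ∑ i, ∫ x, F j i x * gInf (a j) x := fun j =>
    key_limit_w (hspan j) hw0 hw (hFm j) (by positivity) (hFb j) (hsum j)
  have hlim : ∀ i, Tendsto (fun j => ∫ x, F j i x * gInf (a j) x) atTop
      (𝓝 (∫ x, K.indicator (fun x => h i x) x)) := by
    intro i
    have hK2 : IsCompact ((fun y : Fin d → ℝ => (2 : ℝ) • y) '' K) := hK.image (by fun_prop)
    have hscale : ∀ j x, r j • x ∈ K → x ∈ (fun y : Fin d → ℝ => (2 : ℝ) • y) '' K := by
      intro j x hx
      have h1 : (1 / 2 : ℝ) • x ∈ K := by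
        have e : (1 / 2 : ℝ) • x = (1 / (2 * r j)) • (r j • x) := by
          rw [smul_smul]; congr 1
          have := (hrpos j).ne'
          field_simp
        rw [e]
        refine hc.smul_mem_of_zero_mem h0K hx ⟨?_, ?_⟩
        · have := hrpos j; positivity
        · rw [div_le_one (by linarith [hrpos j])]
          linarith [hr0 j]
      exact ⟨(1 / 2 : ℝ) • x, h1, by simp only; rw [smul_smul]; norm_num⟩
    refine tendsto_integral_filter_of_dominated_convergence
      (((fun y : Fin d → ℝ => (2 : ℝ) • y) '' K).indicator fun _ => L) ?_ ?_ ?_ ?_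
    · exact Eventually.of_forall fun j =>
        ((hFm j i).mul (measurable_gInf (a j))).aestronglyMeasurable
    · refine Eventually.of_forall fun j => Eventually.of_forall fun x => ?_
      by_cases hx : r j • x ∈ K
      · rw [Set.indicator_of_mem (hscale j x hx), norm_mul, Real.norm_eq_abs, Real.norm_eq_abs]
        have h1 := gInf_mem (a j) x
        have h2 : |gInf (a j) x| ≤ 1 := by rw [abs_of_nonneg h1.1]; exact h1.2
        have h3 : |F j i x| ≤ L := by simp only [hF, hx, if_true]; exact hL' i _ hx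
        calc |F j i x| * |gInf (a j) x| ≤ L * 1 := mul_le_mul h3 h2 (abs_nonneg _) hL0
          _ = L := mul_one _
      · rw [gInf_eq_zero (hout j x hx), mul_zero, norm_zero]
        exact Set.indicator_nonneg (fun _ _ => hL0) x
    · exact (integrable_indicator_iff hK2.measurableSet).2
        (integrableOn_const hK2.measure_lt_top.ne)
    · refine Eventually.of_forall fun x => ?_
      by_cases hx : x ∈ K
      · rw [Set.indicator_of_mem hx]
        have e : ∀ j, F j i x * gInf (a j) x = h i (r j • x) := by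
          intro j
          have h1 : r j • x ∈ K :=
            hc.smul_mem_of_zero_mem h0K hx ⟨(hrpos j).le, (hr1 j).le⟩
          rw [gInf_eq_one (hin j x hx), mul_one]
          simp only [hF, h1, if_true]
        simp_rw [e]
        have h2 : Tendsto (fun j => r j • x) atTop (𝓝 ((1 : ℝ) • x)) :=
          hrlim.smul tendsto_const_nhds
        rw [one_smul] at h2
        exact ((h i).continuous.tendsto x).comp h2
      · rw [Set.indicator_of_notMem hx]
        have h2 : Tendsto (fun j => r j • x) atTop (𝓝 ((1 : ℝ) • x)) :=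
          hrlim.smul tendsto_const_nhds
        rw [one_smul] at h2
        have h3 : ∀ᶠ j in atTop, r j • x ∈ Kᶜ :=
          h2.eventually (hK.isClosed.isOpen_compl.mem_nhds hx)
        refine (tendsto_const_nhds (x := (0 : ℝ))).congr' ?_
        filter_upwards [h3] with j hj
        rw [gInf_eq_zero (hout j x hj), mul_zero]
  have hfin := ge_of_tendsto' (tendsto_finsetSum _ fun i _ => hlim i) hkey
  refine hfin.trans_eq (Finset.sum_congr rfl fun i _ => ?_)
  rw [integral_indicator hK.measurableSet]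

end Pool.Agent.Lib.MP_a34d76_pr
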