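import Mathlib

/-! # One-dimensional laws whose density has a concave root: auxiliary inequalities (MP_a34d76_pr) -/

set_option autoImplicit false

namespace Pool.Agent.Lib.MP_a34d76_pr.OneDim

open MeasureTheory Set intervalIntegral

/-- two-level sums -/
theorem sum_two_level (m k : ℕ) (hk : k ≤ m) (u v : ℝ) :
    ∑ i : Fin m, (if (i : ℕ) < k then u else v) = k * u + (m - k : ℝ) * v := by
  rw [Fin.sum_univ_eq_sum_range (fun i => if i < k then u else v) m]
  obtain ⟨l, rfl⟩ := Nat.exists_eq_add_of_le hk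
  rw [Finset.sum_range_add]
  have h1 : ∑ i ∈ Finset.range k, (if i < k then u else v) = k * u := by
    rw [Finset.sum_congr rfl (fun i hi => if_pos (Finset.mem_range.1 hi))]; simp
  have h2 : ∑ i ∈ Finset.range l, (if k + i < k then u else v) = l * v := by
    rw [Finset.sum_congr rfl (fun i _ => if_neg (by omega))]; simp
  rw [h1, h2]; push_cast; ring

/-- admissible functions: the sum over zero-sum `n`-tuples in `[a,b]` is nonnegative -/
def Feas (n : ℕ) (a b : ℝ) (g : ℝ → ℝ) : Prop :=
  ∀ x : Fin n → ℝ, (∀ i, x i ∈ Icc a b) → ∑ i, x i = 0 → 0 ≤ ∑ i, g (x i)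

/-- `k` points at `a`, `m - k` points at `b` and two more points -/
theorem feas_pair {m k : ℕ} (hk : k ≤ m) {a b x y : ℝ} {g : ℝ → ℝ} (hg : Feas (m + 2) a b g)
    (hab : a ≤ b) (hx : x ∈ Icc a b) (hy : y ∈ Icc a b) (hs : k * a + (m - k : ℝ) * b + x + y = 0) :
    0 ≤ k * g a + (m - k : ℝ) * g b + g x + g y := by
  set v : Fin (m + 2) → ℝ :=
    Fin.snoc (Fin.snoc (fun i : Fin m => if (i : ℕ) < k then a else b) x : Fin (m + 1) → ℝ) y with hv
  have h1 : ∑ i, v i = k * a + (m - k : ℝ) * b + x + y := by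
    rw [hv, Fin.sum_univ_castSucc]
    simp only [Fin.snoc_castSucc, Fin.snoc_last]
    rw [Fin.sum_univ_castSucc]
    simp only [Fin.snoc_castSucc, Fin.snoc_last]
    rw [sum_two_level m k hk]
  have h2 : ∑ i, g (v i) = k * g a + (m - k : ℝ) * g b + g x + g y := by
    rw [hv, Fin.sum_univ_castSucc]
    simp only [Fin.snoc_castSucc, Fin.snoc_last]
    rw [Fin.sum_univ_castSucc]
    simp only [Fin.snoc_castSucc, Fin.snoc_last]
    rw [← sum_two_level m k hk]
    congr 2
    refine Finset.sum_congr rfl fun i _ => ?_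
    split_ifs <;> rfl
  rw [← h2]
  refine hg v ?_ (by rw [h1, hs])
  intro i
  refine Fin.lastCases ?_ (fun i => ?_) i
  · rw [hv, Fin.snoc_last]; exact hy
  · rw [hv, Fin.snoc_castSucc]
    refine Fin.lastCases ?_ (fun i => ?_) i
    · rw [Fin.snoc_last]; exact hx
    · rw [Fin.snoc_castSucc]
      split_ifs
      · exact ⟨le_rfl, hab⟩
      · exact ⟨hab, le_rfl⟩

/-- integral of a function and of its reflection in the middle of the interval -/
theorem integral_reflect (g : ℝ → ℝ) (u v : ℝ) :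
    ∫ x in u..v, g (u + v - x) = ∫ x in u..v, g x := by
  rw [intervalIntegral.integral_comp_sub_left (fun x => g x) (u + v)]
  congr 1 <;> ring

/-- The layer inequality: uniform measure on `[a,b]` and suitable atoms at both ends. -/
theorem layer {m : ℕ} (hm : 1 ≤ m) {a b : ℝ} (ha : a < 0) (hb : 0 < b)
    (h1 : -a ≤ (m + 1) * b) (h2 : b ≤ (m + 1) * (-a)) {g : ℝ → ℝ} (hgc : Continuous g)
    (hg : Feas (m + 2) a b g) :
    0 ≤ 2 * (∫ x in a..b, g x) + ((m + 1) * b + a) * g a + ((m + 1) * (-a) - b) * g b := by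
  have hL : 0 < b - a := by linarith
  have hm' : (1 : ℝ) ≤ m := by exact_mod_cast hm
  set p := ((m : ℝ) + 1) * b + a with hp
  have hp0 : 0 ≤ p := by rw [hp]; linarith
  have hpm : p ≤ m * (b - a) := by rw [hp]; nlinarith
  -- choice of k
  obtain ⟨k, hk, hk1, hk2⟩ : ∃ k : ℕ, k + 1 ≤ m ∧ (k : ℝ) * (b - a) ≤ p ∧ p ≤ (k + 1) * (b - a) := by
    by_cases hlt : p < m * (b - a)
    · refine ⟨⌊p / (b - a)⌋₊, ?_, ?_, ?_⟩
      · have : ⌊p / (b - a)⌋₊ < m := by
          rw [Nat.floor_lt (by positivity), div_lt_iff₀ hL]; exact hlt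
        omega
      · rw [← le_div_iff₀ hL]; exact Nat.floor_le (by positivity)
      · rw [← div_le_iff₀ hL]; exact (Nat.lt_floor_add_one _).le
    · refine ⟨m - 1, by omega, ?_, ?_⟩
      · have : ((m - 1 : ℕ) : ℝ) = m - 1 := by push_cast [Nat.cast_sub hm]; ring
        rw [this]; nlinarith
      · have : ((m - 1 : ℕ) : ℝ) = m - 1 := by push_cast [Nat.cast_sub hm]; ring
        rw [this]; linarith
  -- the division point
  set τ := b - (p - k * (b - a)) with hτ
  have hτa : a ≤ τ := by rw [hτ]; linarith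
  have hτb : τ ≤ b := by rw [hτ]; linarith
  have hkc : ((k : ℝ)) ≤ m := by
    have : ((k + 1 : ℕ) : ℝ) ≤ m := by exact_mod_cast hk
    push_cast at this; linarith
  -- first family
  have f1 : ∀ x ∈ Icc a τ, 0 ≤ k * g a + (m - k : ℝ) * g b + g x + g (a + τ - x) := by
    intro x hx
    refine feas_pair (by omega) hg (by linarith) ⟨hx.1, hx.2.trans hτb⟩ ?_ ?_
    · constructor <;> [linarith [hx.2]; linarith [hx.1]]
    · rw [hτ, hp]; ring
  have f2 : ∀ x ∈ Icc τ b, 0 ≤ (k + 1 : ℝ) * g a + (m - (k + 1) : ℝ) * g b + g x + g (τ + b - x) := by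
    intro x hx
    have := feas_pair (m := m) (k := k + 1) hk hg (by linarith) ⟨hτa.trans hx.1, hx.2⟩
      (y := τ + b - x) (by constructor <;> [linarith [hx.2]; linarith [hx.1]])
      (by push_cast; rw [hτ, hp]; ring)
    push_cast at this; exact this
  have i1 : 0 ≤ (τ - a) * (k * g a + (m - k : ℝ) * g b) + 2 * ∫ x in a..τ, g x := by
    have h := intervalIntegral.integral_nonneg (μ := volume) hτa f1
    have e : ∫ x in a..τ, (k * g a + (m - k : ℝ) * g b + g x + g (a + τ - x)) =
        (τ - a) * (k * g a + (m - k : ℝ) * g b) + 2 * ∫ x in a..τ, g x := by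
      rw [intervalIntegral.integral_add, intervalIntegral.integral_add, integral_reflect,
        intervalIntegral.integral_const, smul_eq_mul]
      · ring
      · exact intervalIntegrable_const
      · exact hgc.intervalIntegrable _ _
      · exact (continuous_const.add hgc).intervalIntegrable _ _
      · exact (hgc.comp (by fun_prop)).intervalIntegrable _ _
    rwa [e] at h
  have i2 : 0 ≤ (b - τ) * ((k + 1 : ℝ) * g a + (m - (k + 1) : ℝ) * g b) + 2 * ∫ x in τ..b, g x := by
    have h := intervalIntegral.integral_nonneg (μ := volume) hτb f2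
    have e : ∫ x in τ..b, ((k + 1 : ℝ) * g a + (m - (k + 1) : ℝ) * g b + g x + g (τ + b - x)) =
        (b - τ) * ((k + 1 : ℝ) * g a + (m - (k + 1) : ℝ) * g b) + 2 * ∫ x in τ..b, g x := by
      rw [intervalIntegral.integral_add, intervalIntegral.integral_add, integral_reflect,
        intervalIntegral.integral_const, smul_eq_mul]
      · ring
      · exact intervalIntegrable_const
      · exact hgc.intervalIntegrable _ _
      · exact (continuous_const.add hgc).intervalIntegrable _ _
      · exact (hgc.comp (by fun_prop)).intervalIntegrable _ _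
    rwa [e] at h
  have hsum : (∫ x in a..b, g x) = (∫ x in a..τ, g x) + ∫ x in τ..b, g x :=
    (intervalIntegral.integral_add_adjacent_intervals (hgc.intervalIntegrable _ _)
      (hgc.intervalIntegrable _ _)).symm
  rw [hsum]
  have ea : (τ - a) * (k : ℝ) + (b - τ) * (k + 1 : ℝ) = p := by rw [hτ]; ring
  have eb : (τ - a) * (m - k : ℝ) + (b - τ) * (m - (k + 1) : ℝ) = (m + 1) * (-a) - b := by
    have : (τ - a) * (m - k : ℝ) + (b - τ) * (m - (k + 1) : ℝ) =
      m * (b - a) - ((τ - a) * (k : ℝ) + (b - τ) * (k + 1 : ℝ)) := by ring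
    rw [this, ea, hp]; ring
  rw [← ea, ← eb]
  nlinarith [i1, i2]

/-- monotonicity of increments of powers -/
theorem pow_incr (m : ℕ) {p0 p q : ℝ} (h0 : 0 ≤ p0) (hp : p0 ≤ p) (hq : 0 ≤ q) :
    (p0 + q) ^ m - p0 ^ m ≤ (p + q) ^ m - p ^ m := by
  induction m with
  | zero => simp
  | succ m ih =>
    have e : ∀ r : ℝ, (r + q) ^ (m + 1) - r ^ (m + 1) = (r + q) * ((r + q) ^ m - r ^ m) + q * r ^ m := by
      intro r; ring
    rw [e, e]
    have h1 : 0 ≤ (p0 + q) ^ m - p0 ^ m :=
      sub_nonneg.2 (pow_le_pow_left₀ h0 (by linarith) m)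
    have h2 : p0 ^ m ≤ p ^ m := pow_le_pow_left₀ h0 hp m
    have h3 := mul_le_mul (show p0 + q ≤ p + q by linarith) ih h1 (by linarith)
    have h4 := mul_le_mul_of_nonneg_left h2 hq
    linarith

/-- concavity of `s ↦ (s^m - γ^m)^{1/m}` along the segment that ends in `γ` -/
theorem pow_ineq (m : ℕ) {s γ t : ℝ} (hγ : 0 ≤ γ) (hs : γ ≤ s) (ht0 : 0 ≤ t) (ht1 : t ≤ 1) :
    (1 - t) ^ m * (s ^ m - γ ^ m) ≤ ((1 - t) * s + t * γ) ^ m - γ ^ m := by
  have h := pow_incr m (p0 := (1 - t) * γ) (p := (1 - t) * s) (q := t * γ)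
    (mul_nonneg (by linarith) hγ) (mul_le_mul_of_nonneg_left hs (by linarith)) (mul_nonneg ht0 hγ)
  have e1 : (1 - t) * γ + t * γ = γ := by ring
  rw [e1, mul_pow, mul_pow] at h
  linarith

theorem integral_cone (m : ℕ) (a b : ℝ) :
    ∫ x in a..b, x * (b - x) ^ m = b * (b - a) ^ (m + 1) / (m + 1) - (b - a) ^ (m + 2) / (m + 2) := by
  have hd : ∀ x ∈ uIcc a b, HasDerivAt (fun x : ℝ => -(b * (b - x) ^ (m + 1) / (m + 1)) +
      (b - x) ^ (m + 2) / (m + 2)) (x * (b - x) ^ m) x := by
    intro x _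
    have h1 : HasDerivAt (fun x : ℝ => b - x) (-1) x := by
      simpa using (hasDerivAt_id x).const_sub b
    have h2 := ((h1.pow (m + 1)).const_mul b).div_const ((m : ℝ) + 1)
    have h3 := (h1.pow (m + 2)).div_const ((m : ℝ) + 2)
    have h4 := h2.neg.add h3
    refine h4.congr_deriv ?_
    have e1 : ((m : ℝ) + 1) ≠ 0 := by positivity
    have e2 : ((m : ℝ) + 2) ≠ 0 := by positivity
    simp only [Nat.add_sub_cancel]
    push_cast
    field_simp
    ring
  rw [intervalIntegral.integral_eq_sub_of_hasDerivAt hd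
    ((by fun_prop : Continuous fun x : ℝ => x * (b - x) ^ m).intervalIntegrable _ _)]
  simp only [sub_self, ne_eq, Nat.add_eq_zero_iff, one_ne_zero, and_false, not_false_eq_true, zero_pow,
    OfNat.ofNat_ne_zero]
  ring

/-- The centroid ratio for densities `φ^m - γ^m` with `φ` concave, `φ ≥ γ`. -/
theorem ratio {m : ℕ} {a b γ : ℝ} (ha : a < 0) (hb : 0 < b) (hγ : 0 ≤ γ) {φ : ℝ → ℝ}
    (hφ : Continuous φ) (hconc : ConcaveOn ℝ (Icc a b) φ) (hge : ∀ x ∈ Icc a b, γ ≤ φ x)
    (h0 : γ < φ 0) (hcen : ∫ x in a..b, x * (φ x ^ m - γ ^ m) = 0) (hm : 1 ≤ m) :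
    b ≤ (m + 1) * (-a) := by
  set l := (φ 0 ^ m - γ ^ m) / b ^ m with hl
  have hbm : 0 < b ^ m := pow_pos hb m
  have hl0 : 0 < l := by
    apply div_pos _ hbm
    have := pow_lt_pow_left₀ h0 hγ (by omega : m ≠ 0)
    linarith
  have key : ∀ x ∈ Icc a b, l * (x * (b - x) ^ m) ≤ x * (φ x ^ m - γ ^ m) := by
    intro x hx
    rcases le_total 0 x with h | h
    · -- x between 0 and b
      have ht0 : 0 ≤ x / b := by positivity
      have ht1 : x / b ≤ 1 := by rw [div_le_one hb]; exact hx.2
      have hc : (1 - x / b) * φ 0 + x / b * φ b ≤ φ x := by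
        have := hconc.2 (⟨ha.le, hb.le⟩ : (0:ℝ) ∈ Icc a b) (⟨by linarith, le_rfl⟩ : b ∈ Icc a b)
          (show 0 ≤ 1 - x / b by linarith) ht0 (by ring)
        simp only [smul_eq_mul] at this
        have e : (1 - x / b) * 0 + x / b * b = x := by field_simp; ring
        rwa [e] at this
      have hc2 : (1 - x / b) * φ 0 + x / b * γ ≤ φ x := by
        have := mul_le_mul_of_nonneg_left (hge b ⟨by linarith, le_rfl⟩) ht0
        linarith
      have h1 := pow_ineq m hγ h0.le ht0 ht1
      have h2 := pow_le_pow_left₀ (by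
        have h3 := mul_nonneg (show 0 ≤ 1 - x / b by linarith) (hγ.trans h0.le)
        have h4 := mul_nonneg ht0 hγ
        linarith) hc2 m
      have h3 : l * (b - x) ^ m ≤ φ x ^ m - γ ^ m := by
        have e : l * (b - x) ^ m = (1 - x / b) ^ m * (φ 0 ^ m - γ ^ m) := by
          rw [hl, div_mul_eq_mul_div, div_eq_iff hbm.ne']
          have : b - x = (1 - x / b) * b := by field_simp
          rw [this, mul_pow]; ring
        rw [e]; linarith
      have := mul_le_mul_of_nonneg_left h3 h
      linarith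
    · -- 0 between x and b
      have hbx : 0 < b - x := by linarith
      set t := -x / (b - x) with ht
      have ht0 : 0 ≤ t := div_nonneg (by linarith) hbx.le
      have ht1 : t ≤ 1 := by rw [ht, div_le_one hbx]; linarith
      have h1t : 1 - t = b / (b - x) := by rw [ht]; field_simp; ring
      have hc : (1 - t) * φ x + t * φ b ≤ φ 0 := by
        have := hconc.2 hx (⟨by linarith, le_rfl⟩ : b ∈ Icc a b)
          (show 0 ≤ 1 - t by linarith) ht0 (by ring)
        simp only [smul_eq_mul] at this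
        have e : (1 - t) * x + t * b = 0 := by rw [h1t, ht]; field_simp; ring
        rwa [e] at this
      have hc2 : (1 - t) * φ x + t * γ ≤ φ 0 := by
        have := mul_le_mul_of_nonneg_left (hge b ⟨by linarith, le_rfl⟩) ht0
        linarith
      have h1 := pow_ineq m hγ (hge x hx) ht0 ht1
      have h2 := pow_le_pow_left₀ (by
        have h3 := mul_nonneg (show 0 ≤ 1 - t by linarith) (hγ.trans (hge x hx))
        have h4 := mul_nonneg ht0 hγ
        linarith) hc2 m
      have h3 : φ x ^ m - γ ^ m ≤ l * (b - x) ^ m := by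
        have h4 : (1 - t) ^ m * (φ x ^ m - γ ^ m) ≤ φ 0 ^ m - γ ^ m := by linarith
        have hbxm : 0 < (b - x) ^ m := pow_pos hbx m
        rw [h1t, div_pow, div_mul_eq_mul_div, div_le_iff₀ hbxm] at h4
        rw [hl, div_mul_eq_mul_div, le_div_iff₀ hbm]
        linarith
      have := mul_le_mul_of_nonpos_left h3 h
      linarith
  have hint := intervalIntegral.integral_mono_on (by linarith : a ≤ b)
    ((by fun_prop : Continuous fun x : ℝ => l * (x * (b - x) ^ m)).intervalIntegrable (μ := volume) _ _)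
    ((by fun_prop : Continuous fun x : ℝ => x * (φ x ^ m - γ ^ m)).intervalIntegrable (μ := volume) _ _) key
  rw [hcen, intervalIntegral.integral_const_mul, integral_cone] at hint
  have h5 : b * (b - a) ^ (m + 1) / (m + 1) - (b - a) ^ (m + 2) / (m + 2) ≤ 0 := by
    by_contra hcon
    have := mul_pos hl0 (not_le.1 hcon)
    linarith
  have hT : 0 < (b - a) ^ (m + 1) := pow_pos (by linarith) _
  have e1 : (0:ℝ) < m + 1 := by positivity
  have e2 : (0:ℝ) < m + 2 := by positivity
  have h6 : b * (b - a) ^ (m + 1) / (m + 1) - (b - a) ^ (m + 2) / (m + 2) =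
      (b - a) ^ (m + 1) * (b / (m + 1) - (b - a) / (m + 2)) := by
    rw [pow_succ (b - a) (m + 1)]; ring
  rw [h6] at h5
  have h7 : b / (m + 1) - (b - a) / (m + 2) ≤ 0 := by
    by_contra hcon
    have := mul_pos hT (not_le.1 hcon)
    linarith
  rw [sub_nonpos, div_le_div_iff₀ e1 e2] at h7
  nlinarith

/-- small layers: `∫ G min(h,δ) = δ ∫ G + o(δ)` -/
theorem tendsto_layer {a b : ℝ} (hab : a ≤ b) {h G : ℝ → ℝ} (hh : Continuous h) (hG : Continuous G)
    (hpos : ∀ x ∈ Ioo a b, 0 < h x) :
    Filter.Tendsto (fun δ : ℝ => ∫ x in a..b, G x * (min (max (h x) 0) δ / δ))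
      (nhdsWithin 0 (Ioi 0)) (nhds (∫ x in a..b, G x)) := by
  apply intervalIntegral.tendsto_integral_filter_of_dominated_convergence (fun x => ‖G x‖)
  · refine Filter.Eventually.of_forall fun δ => ?_
    exact (by fun_prop : Continuous fun x : ℝ => G x * (min (max (h x) 0) δ / δ)).aestronglyMeasurable
  · filter_upwards [self_mem_nhdsWithin] with δ hδ
    have hδ : 0 < δ := hδ
    refine Filter.Eventually.of_forall fun x _ => ?_
    rw [norm_mul]
    have h1 : ‖min (max (h x) 0) δ / δ‖ ≤ 1 := by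
      rw [Real.norm_eq_abs, abs_of_nonneg (div_nonneg (le_min (le_max_right _ _) hδ.le) hδ.le),
        div_le_one hδ]
      exact min_le_right _ _
    calc ‖G x‖ * ‖min (max (h x) 0) δ / δ‖ ≤ ‖G x‖ * 1 := mul_le_mul_of_nonneg_left h1 (norm_nonneg _)
      _ = ‖G x‖ := mul_one _
  · exact (hG.norm).intervalIntegrable _ _
  · have hne : ∀ᵐ x : ℝ, x ≠ b := by
      rw [ae_iff]; simp
    filter_upwards [hne] with x hxb hx
    rw [uIoc_of_le hab] at hx
    have hx' : x ∈ Ioo a b := ⟨hx.1, lt_of_le_of_ne hx.2 hxb⟩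
    have h1 := hpos x hx'
    refine (tendsto_const_nhds (x := G x)).congr' ?_
    have : ∀ᶠ δ : ℝ in nhdsWithin 0 (Ioi 0), δ < h x :=
      eventually_nhdsWithin_of_eventually_nhds (gt_mem_nhds h1)
    filter_upwards [this, self_mem_nhdsWithin] with δ hδ hδ0
    have hδ0 : 0 < δ := hδ0
    rw [max_eq_left h1.le, min_eq_right hδ.le, div_self hδ0.ne', mul_one]

theorem integral_pos_of_Ioo {a b : ℝ} (hab : a < b) {h : ℝ → ℝ} (hh : Continuous h)
    (hpos : ∀ x ∈ Ioo a b, 0 < h x) : 0 < ∫ x in a..b, h x :=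
  intervalIntegral.intervalIntegral_pos_of_pos_on (hh.intervalIntegrable _ _) hpos hab

/-- One peeling step. -/
theorem step {a b : ℝ} (ha : a < 0) (hb : 0 < b) {h F : ℝ → ℝ} (hh : Continuous h)
    (hF : Continuous F) (hpos : ∀ x ∈ Ioo a b, 0 < h x)
    (hcen : ∫ x in a..b, x * max (h x) 0 = 0) (hFb : F b = 0) {P : ℝ} (hP : 0 < P)
    (H1 : 0 < (∫ x in a..b, F x) + P * F a) (H2 : 0 < -(a * P) - (b ^ 2 - a ^ 2) / 2) :
    ∃ δ : ℝ, 0 < δ ∧ ∃ a' b' : ℝ, a ≤ a' ∧ a' ≤ 0 ∧ 0 ≤ b' ∧ b' ≤ b ∧
      ∫ x in a'..b', x * max (h x - δ) 0 = 0 ∧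
      ∫ x in a'..b', F x * max (h x - δ) 0 ≤ ∫ x in a..b, F x * max (h x) 0 := by
  set v1 := (∫ x in a..b, F x) + P * F a with hv1
  set v2 := -(a * P) - (b ^ 2 - a ^ 2) / 2 with hv2
  set C := v2 + 1 with hC
  have hC0 : 0 < C := by rw [hC]; linarith
  -- choice of ε
  obtain ⟨ε, hε0, hε1, hε2, hε3⟩ : ∃ ε : ℝ, 0 < ε ∧ ε ≤ 1 ∧ ε * (1 + P) ≤ v2 / 2 ∧
      ε * (1 + P + 2 * C / b) ≤ v1 / 2 := by
    have k1 : 0 < 1 + P := by linarith
    have k2 : 0 < 1 + P + 2 * C / b := by positivity
    refine ⟨min 1 (min (v2 / 2 / (1 + P)) (v1 / 2 / (1 + P + 2 * C / b))), ?_, min_le_left _ _, ?_, ?_⟩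
    · refine lt_min one_pos (lt_min (by positivity) (by positivity))
    · rw [← le_div_iff₀ k1]; exact (min_le_right _ _).trans (min_le_left _ _)
    · rw [← le_div_iff₀ k2]; exact (min_le_right _ _).trans (min_le_right _ _)
  -- choice of η
  obtain ⟨η1, hη1, hFa'⟩ := Metric.continuous_iff.1 hF a ε hε0
  obtain ⟨η2, hη2, hFb'⟩ := Metric.continuous_iff.1 hF b ε hε0
  set η := min (min (η1 / 2) (η2 / 2)) (min ε (min (-a) (b / 2))) with hη
  have hη0 : 0 < η := by
    refine lt_min (lt_min (by positivity) (by positivity)) (lt_min hε0 (lt_min (by linarith) (by linarith)))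
  have e1 : η ≤ η1 / 2 := (min_le_left _ _).trans (min_le_left _ _)
  have e2 : η ≤ η2 / 2 := (min_le_left _ _).trans (min_le_right _ _)
  have e3 : η ≤ ε := (min_le_right _ _).trans (min_le_left _ _)
  have e4 : η ≤ -a := (min_le_right _ _).trans ((min_le_right _ _).trans (min_le_left _ _))
  have e5 : η ≤ b / 2 := (min_le_right _ _).trans ((min_le_right _ _).trans (min_le_right _ _))
  have hFa : ∀ x, a ≤ x → x ≤ a + η → F a - ε ≤ F x := by
    intro x h1 h2
    have := hFa' x (by rw [Real.dist_eq, abs_of_nonneg (by linarith)]; linarith)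
    rw [Real.dist_eq] at this
    have := (abs_lt.1 this).1; linarith
  have hFbb : ∀ x, b - η ≤ x → x ≤ b → -ε ≤ F x := by
    intro x h1 h2
    have := hFb' x (by rw [Real.dist_eq, abs_sub_comm, abs_of_nonneg (by linarith)]; linarith)
    rw [Real.dist_eq, hFb, sub_zero] at this
    exact (abs_lt.1 this).1.le
  -- masses near the ends
  have hmL : 0 < ∫ x in a..(a + η), h x :=
    integral_pos_of_Ioo (by linarith) hh fun x hx => hpos x ⟨hx.1, by linarith [hx.2]⟩
  have hmR : 0 < ∫ x in (b - η)..b, h x :=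
    integral_pos_of_Ioo (by linarith) hh fun x hx => hpos x ⟨by linarith [hx.1], hx.2⟩
  -- choice of δ
  have t1 := (tendsto_layer (by linarith : a ≤ b) hh hF hpos)
  have t2 := (tendsto_layer (by linarith : a ≤ b) hh continuous_id hpos)
  have ev1 := t1.eventually (lt_mem_nhds (show (∫ x in a..b, F x) - ε < ∫ x in a..b, F x by linarith))
  have ev2 := (Metric.tendsto_nhds.1 t2) ε hε0
  have ev3 : ∀ᶠ δ : ℝ in nhdsWithin 0 (Ioi 0), δ < (∫ x in a..(a + η), h x) / (P + η) :=
    eventually_nhdsWithin_of_eventually_nhds (gt_mem_nhds (by positivity))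
  have ev4 : ∀ᶠ δ : ℝ in nhdsWithin 0 (Ioi 0), δ < (b - η) * (∫ x in (b - η)..b, h x) / (C + b * η) :=
    eventually_nhdsWithin_of_eventually_nhds (gt_mem_nhds (by
      have : 0 < b - η := by linarith
      positivity))
  obtain ⟨δ, ⟨⟨⟨d1, d2⟩, d3⟩, d4⟩, hδ⟩ := ((((ev1.and ev2).and ev3).and ev4).and self_mem_nhdsWithin).exists
  have hδ : 0 < δ := hδ
  rw [lt_div_iff₀ (by positivity)] at d3 d4
  -- abbreviations
  set U : ℝ → ℝ := fun x => max (h x - δ) 0 with hU
  have hUc : Continuous U := by fun_prop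
  have hU0 : ∀ x, 0 ≤ U x := fun x => le_max_right _ _
  have hUh : ∀ x, h x - δ ≤ U x := fun x => le_max_left _ _
  have hsplit : ∀ x, max (h x) 0 = min (max (h x) 0) δ + U x := by
    intro x
    simp only [hU]
    rcases le_total (h x) 0 with h1 | h1
    · rw [max_eq_right h1, min_eq_left hδ.le, max_eq_right (by linarith)]; ring
    · rw [max_eq_left h1]
      rcases le_total (h x) δ with h2 | h2
      · rw [min_eq_left h2, max_eq_right (by linarith)]; ring
      · rw [min_eq_right h2, max_eq_left (by linarith)]; ring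
  have hI : ∀ G : ℝ → ℝ, Continuous G → ∫ x in a..b, G x * max (h x) 0 =
      δ * (∫ x in a..b, G x * (min (max (h x) 0) δ / δ)) + ∫ x in a..b, G x * U x := by
    intro G hG
    rw [← intervalIntegral.integral_const_mul, ← intervalIntegral.integral_add]
    · refine intervalIntegral.integral_congr fun x _ => ?_
      have e : G x * max (h x) 0 = G x * (min (max (h x) 0) δ) + G x * U x := by
        rw [← mul_add, ← hsplit x]
      rw [e]
      have e2 : min (max (h x) 0) δ = δ * (min (max (h x) 0) δ / δ) := by field_simp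
      nth_rewrite 1 [e2]
      ring
    · exact (by fun_prop : Continuous fun x : ℝ => δ * (G x * (min (max (h x) 0) δ / δ))).intervalIntegrable _ _
    · exact (hG.mul hUc).intervalIntegrable _ _
  -- the left cut
  have hcontL : ContinuousOn (fun s : ℝ => ∫ x in a..s, U x) (Icc a (a + η)) :=
    (intervalIntegral.continuous_primitive (fun u v => hUc.intervalIntegrable u v) a).continuousOn
  have hLtop : P * δ ≤ ∫ x in a..(a + η), U x := by
    have h1 : ∫ x in a..(a + η), (h x - δ) ≤ ∫ x in a..(a + η), U x :=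
      intervalIntegral.integral_mono_on (by linarith) ((by fun_prop : Continuous fun x => h x - δ).intervalIntegrable _ _)
        (hUc.intervalIntegrable _ _) fun x _ => hUh x
    rw [intervalIntegral.integral_sub (hh.intervalIntegrable _ _) intervalIntegrable_const,
      intervalIntegral.integral_const, smul_eq_mul] at h1
    nlinarith
  obtain ⟨a', ha', ha'm⟩ := intermediate_value_Icc (by linarith : a ≤ a + η) hcontL
    (show P * δ ∈ Icc (∫ x in a..a, U x) (∫ x in a..(a + η), U x) from
      ⟨by rw [intervalIntegral.integral_same]; positivity, hLtop⟩)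
  simp only at ha'm
  have ha'0 : a' ≤ 0 := by linarith [ha'.2]
  have adj : ∀ (G : ℝ → ℝ), Continuous G → ∀ u v w : ℝ, (∫ x in u..v, G x * U x) + ∫ x in v..w, G x * U x =
      ∫ x in u..w, G x * U x := fun G hG u v w => intervalIntegral.integral_add_adjacent_intervals
        ((hG.mul hUc).intervalIntegrable _ _) ((hG.mul hUc).intervalIntegrable _ _)
  -- first moment of the left cap
  have hL1 : a * (P * δ) ≤ ∫ x in a..a', x * U x := by
    rw [← ha'm, ← intervalIntegral.integral_const_mul]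
    exact intervalIntegral.integral_mono_on ha'.1 ((hUc.const_mul a).intervalIntegrable _ _)
      ((continuous_id.mul hUc).intervalIntegrable _ _) fun x hx => mul_le_mul_of_nonneg_right hx.1 (hU0 x)
  have hL2 : ∫ x in a..a', x * U x ≤ (a + η) * (P * δ) := by
    rw [← ha'm, ← intervalIntegral.integral_const_mul]
    exact intervalIntegral.integral_mono_on ha'.1 ((continuous_id.mul hUc).intervalIntegrable _ _)
      ((hUc.const_mul (a + η)).intervalIntegrable _ _) fun x hx =>
        mul_le_mul_of_nonneg_right (hx.2.trans ha'.2) (hU0 x)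
  have hL3 : (F a - ε) * (P * δ) ≤ ∫ x in a..a', F x * U x := by
    rw [← ha'm, ← intervalIntegral.integral_const_mul]
    exact intervalIntegral.integral_mono_on ha'.1 ((hUc.const_mul _).intervalIntegrable _ _)
      ((hF.mul hUc).intervalIntegrable _ _) fun x hx =>
        mul_le_mul_of_nonneg_right (hFa x hx.1 (hx.2.trans ha'.2)) (hU0 x)
  -- first moment of the rest
  have hxI := hI (fun x => x) continuous_id
  rw [hcen] at hxI
  have hxint : ∫ x in a..b, x = (b ^ 2 - a ^ 2) / 2 := by rw [integral_id]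
  have hid : (∫ x in a..b, id x) = (b ^ 2 - a ^ 2) / 2 := by simp only [id]; exact hxint
  rw [hid, Real.dist_eq] at d2
  simp only [id] at d2
  have d2' := abs_lt.1 d2
  set J := ∫ x in a..b, x * (min (max (h x) 0) δ / δ) with hJ
  have hXb : ∫ x in a'..b, x * U x = -(δ * J) - ∫ x in a..a', x * U x := by
    have := adj (fun x => x) continuous_id a a' b
    linarith
  have hXb1 : 0 < ∫ x in a'..b, x * U x := by
    rw [hXb]
    have h1 : δ * J ≤ δ * ((b ^ 2 - a ^ 2) / 2 + ε) := mul_le_mul_of_nonneg_left (by linarith) hδ.le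
    have h2 : η * P ≤ ε * P := mul_le_mul_of_nonneg_right e3 hP.le
    have h3 : 0 < δ * (v2 - ε - η * P) := mul_pos hδ (by nlinarith)
    rw [hv2] at h3
    nlinarith
  have hXb2 : ∫ x in a'..b, x * U x ≤ C * δ := by
    rw [hXb, hC, hv2]
    have h1 : δ * ((b ^ 2 - a ^ 2) / 2 - ε) ≤ δ * J := mul_le_mul_of_nonneg_left (by linarith) hδ.le
    nlinarith
  -- the right cut
  have hcontR : ContinuousOn (fun s : ℝ => ∫ x in a'..s, x * U x) (Icc (b - η) b) :=
    (intervalIntegral.continuous_primitive (fun u v => (continuous_id.mul hUc).intervalIntegrable u v) a').continuousOn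
  have hRlow : ∫ x in a'..(b - η), x * U x ≤ 0 := by
    have h0 := adj (fun x => x) continuous_id a' (b - η) b
    have h1 : ∫ x in (b - η)..b, (h x - δ) ≤ ∫ x in (b - η)..b, U x :=
      intervalIntegral.integral_mono_on (by linarith) ((by fun_prop : Continuous fun x => h x - δ).intervalIntegrable _ _)
        (hUc.intervalIntegrable _ _) fun x _ => hUh x
    rw [intervalIntegral.integral_sub (hh.intervalIntegrable _ _) intervalIntegrable_const,
      intervalIntegral.integral_const, smul_eq_mul] at h1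
    have h2 : (b - η) * ∫ x in (b - η)..b, U x ≤ ∫ x in (b - η)..b, x * U x := by
      rw [← intervalIntegral.integral_const_mul]
      exact intervalIntegral.integral_mono_on (by linarith) ((hUc.const_mul _).intervalIntegrable _ _)
        ((continuous_id.mul hUc).intervalIntegrable _ _) fun x hx => mul_le_mul_of_nonneg_right hx.1 (hU0 x)
    have h3 : 0 < b - η := by linarith
    have h4 := mul_le_mul_of_nonneg_left h1 h3.le
    have h5 : (b - η) * η ≤ b * η := mul_le_mul_of_nonneg_right (by linarith) hη0.le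
    nlinarith
  obtain ⟨b', hb', hb'm⟩ := intermediate_value_Icc (by linarith : b - η ≤ b) hcontR
    (show (0:ℝ) ∈ Icc (∫ x in a'..(b - η), x * U x) (∫ x in a'..b, x * U x) from ⟨hRlow, hXb1.le⟩)
  simp only at hb'm
  -- mass of the right cap
  have hR0 := adj (fun x => x) continuous_id a' b' b
  rw [hb'm, zero_add] at hR0
  have hR1 : (b / 2) * ∫ x in b'..b, U x ≤ C * δ := by
    refine le_trans ?_ hXb2
    rw [← hR0, ← intervalIntegral.integral_const_mul]
    exact intervalIntegral.integral_mono_on hb'.2 ((hUc.const_mul _).intervalIntegrable _ _)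
      ((continuous_id.mul hUc).intervalIntegrable _ _) fun x hx =>
        mul_le_mul_of_nonneg_right (by linarith [hx.1, hb'.1]) (hU0 x)
  have hR2 : -ε * (∫ x in b'..b, U x) ≤ ∫ x in b'..b, F x * U x := by
    rw [← intervalIntegral.integral_const_mul]
    exact intervalIntegral.integral_mono_on hb'.2 ((hUc.const_mul _).intervalIntegrable _ _)
      ((hF.mul hUc).intervalIntegrable _ _) fun x hx =>
        mul_le_mul_of_nonneg_right (hFbb x (hb'.1.trans hx.1) hx.2) (hU0 x)
  refine ⟨δ, hδ, a', b', ha'.1, ha'0, by linarith [hb'.1], hb'.2, hb'm, ?_⟩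
  rw [hI F hF]
  have s1 := adj F hF a a' b
  have s2 := adj F hF a' b' b
  have s3 : ∫ x in b'..b, U x ≤ 2 * C / b * δ := by
    rw [div_mul_eq_mul_div, le_div_iff₀ hb]; linarith
  have s4 : ε * (∫ x in b'..b, U x) ≤ ε * (2 * C / b * δ) := mul_le_mul_of_nonneg_left s3 hε0.le
  have s5 : δ * ((∫ x in a..b, F x) - ε) ≤ δ * ∫ x in a..b, F x * (min (max (h x) 0) δ / δ) :=
    mul_le_mul_of_nonneg_left d1.le hδ.le
  have s6 : 0 ≤ δ * (v1 - ε * (1 + P + 2 * C / b)) := mul_nonneg hδ.le (by linarith)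
  rw [hv1] at s6
  change ∫ x in a'..b', F x * U x ≤ _
  nlinarith

end Pool.Agent.Lib.MP_a34d76_pr.OneDim
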