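import Pool.Agent.Lib.MP_a34d76_pr.OneDimAux

/-! # One-dimensional laws whose density has a concave root: the dual inequality (MP_a34d76_pr) -/

set_option autoImplicit false

namespace Pool.Agent.Lib.MP_a34d76_pr.OneDim

open MeasureTheory Set intervalIntegral

/-- truncated integrals -/
noncomputable def II (φ : ℝ → ℝ) (m : ℕ) (G : ℝ → ℝ) (c a b : ℝ) : ℝ :=
  ∫ x in a..b, G x * max (φ x ^ m - c) 0

theorem continuous_II {φ G : ℝ → ℝ} (hφ : Continuous φ) (hG : Continuous G) (m : ℕ) :
    Continuous (fun p : ℝ × ℝ × ℝ => II φ m G p.1 p.2.1 p.2.2) := by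
  have e : (fun p : ℝ × ℝ × ℝ => II φ m G p.1 p.2.1 p.2.2) = fun p : ℝ × ℝ × ℝ =>
      (∫ x in (0:ℝ)..p.2.2, G x * max (φ x ^ m - p.1) 0) -
      ∫ x in (0:ℝ)..p.2.1, G x * max (φ x ^ m - p.1) 0 := by
    funext p
    have hc : Continuous fun x : ℝ => G x * max (φ x ^ m - p.1) 0 := by fun_prop
    unfold II
    rw [intervalIntegral.integral_interval_sub_left (hc.intervalIntegrable _ _) (hc.intervalIntegrable _ _)]
  rw [e]
  have hu : Continuous (Function.uncurry fun (p : ℝ × ℝ × ℝ) (x : ℝ) => G x * max (φ x ^ m - p.1) 0) := by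
    unfold Function.uncurry; fun_prop
  exact (intervalIntegral.continuous_parametric_intervalIntegral_of_continuous hu (by fun_prop)).sub
    (intervalIntegral.continuous_parametric_intervalIntegral_of_continuous hu (by fun_prop))

theorem II_eq_zero {φ G : ℝ → ℝ} {m : ℕ} {c a b : ℝ} (hab : a ≤ b)
    (h : ∀ x ∈ Ioo a b, φ x ^ m ≤ c) : II φ m G c a b = 0 := by
  unfold II
  rw [intervalIntegral.integral_of_le hab, integral_Ioc_eq_integral_Ioo]
  rw [setIntegral_congr_fun measurableSet_Ioo (g := fun _ => (0:ℝ))]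
  · simp
  · intro x hx
    simp only
    rw [max_eq_right (by linarith [h x hx]), mul_zero]

/-- the dual inequality for densities `φ^m`, `φ` concave -/
theorem dual {m : ℕ} (hm : 1 ≤ m) {A B : ℝ} (hA : A < 0) (hB : 0 < B) {φ : ℝ → ℝ}
    (hφ : Continuous φ) (hnn : ∀ x, 0 ≤ φ x) (hconc : ConcaveOn ℝ (Icc A B) φ)
    (hcen : ∫ x in A..B, x * φ x ^ m = 0) (hmass : 0 < ∫ x in A..B, φ x ^ m)
    {g : ℝ → ℝ} (hg : Continuous g) (hfeas : Feas (m + 2) A B g) :
    0 ≤ ∫ x in A..B, g x * φ x ^ m := by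
  by_contra hneg
  rw [not_le] at hneg
  set W0 := ∫ x in A..B, g x * φ x ^ m with hW0
  set M0 := ∫ x in A..B, φ x ^ m with hM0
  set κ := -W0 / (2 * M0) with hκ
  have hκ0 : 0 < κ := div_pos (by linarith) (by linarith)
  set w0 := W0 + κ * M0 with hw0
  have hw : w0 < 0 := by
    have : κ * M0 = -W0 / 2 := by rw [hκ]; field_simp
    rw [hw0, this]; linarith
  have hpm0 : ∀ x, 0 ≤ φ x ^ m := fun x => pow_nonneg (hnn x) m
  have hI0 : ∀ G : ℝ → ℝ, II φ m G 0 A B = ∫ x in A..B, G x * φ x ^ m := by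
    intro G
    unfold II
    refine intervalIntegral.integral_congr fun x _ => ?_
    simp only [sub_zero]
    rw [max_eq_left (hpm0 x)]
  -- upper bound of the density
  obtain ⟨Cm, hCm⟩ : ∃ Cm : ℝ, ∀ x ∈ Icc A B, φ x ^ m ≤ Cm := by
    obtain ⟨x, hx, hmax⟩ := isCompact_Icc.exists_isMaxOn (⟨A, ⟨le_rfl, by linarith⟩⟩ : (Icc A B).Nonempty)
      ((hφ.pow m).continuousOn)
    exact ⟨φ x ^ m, fun y hy => hmax hy⟩
  have hCm0 : 0 ≤ Cm := (hpm0 A).trans (hCm A ⟨le_rfl, by linarith⟩)
  set K : Set (ℝ × ℝ × ℝ) := Icc 0 Cm ×ˢ (Icc A 0 ×ˢ Icc 0 B) with hK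
  have hKc : IsCompact K := isCompact_Icc.prod (isCompact_Icc.prod isCompact_Icc)
  set S : Set (ℝ × ℝ × ℝ) := K ∩ ({p | II φ m (fun x => x) p.1 p.2.1 p.2.2 = 0} ∩
    {p | II φ m g p.1 p.2.1 p.2.2 + κ * II φ m (fun _ => 1) p.1 p.2.1 p.2.2 ≤ w0}) with hS
  have hSc : IsCompact S := by
    refine hKc.inter_right (IsClosed.inter ?_ ?_)
    · exact isClosed_eq (continuous_II hφ continuous_id m) continuous_const
    · exact isClosed_le ((continuous_II hφ hg m).add ((continuous_II hφ continuous_const m).const_mul κ))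
        continuous_const
  have hSne : S.Nonempty := by
    refine ⟨(0, A, B), ⟨⟨⟨le_rfl, hCm0⟩, ⟨le_rfl, hA.le⟩, ⟨hB.le, le_rfl⟩⟩, ?_, ?_⟩⟩
    · change II φ m (fun x => x) 0 A B = 0
      rw [hI0]; exact hcen
    · change II φ m g 0 A B + κ * II φ m (fun _ => 1) 0 A B ≤ w0
      rw [hI0, hI0]; simp only [one_mul]; exact le_rfl
  obtain ⟨⟨c, a0, b0⟩, hmem, hmax⟩ := hSc.exists_isMaxOn hSne continuous_fst.continuousOn
  obtain ⟨⟨hc, ha0, hb0⟩, hX0, hW⟩ := hmem
  simp only at hc ha0 hb0
  change II φ m (fun x => x) c a0 b0 = 0 at hX0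
  change II φ m g c a0 b0 + κ * II φ m (fun _ => 1) c a0 b0 ≤ w0 at hW
  have hmax' : ∀ c' a' b', (c', a', b') ∈ S → c' ≤ c := fun c' a' b' h => hmax h
  have hab0 : a0 ≤ b0 := ha0.2.trans hb0.1
  -- quasi concavity
  have hquasi : ∀ x ∈ Icc A B, ∀ y ∈ Icc A B, ∀ z, x ≤ z → z ≤ y → c < φ x ^ m → c < φ y ^ m →
      c < φ z ^ m := by
    intro x hx y hy z hxz hzy h1 h2
    have hz := hconc.quasiconcaveOn (min (φ x) (φ y))
    have hz' := hz.ordConnected.out ⟨hx, min_le_left _ _⟩ ⟨hy, min_le_right _ _⟩ ⟨hxz, hzy⟩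
    have h3 : min (φ x) (φ y) ≤ φ z := hz'.2
    rcases le_total (φ x) (φ y) with h | h
    · rw [min_eq_left h] at h3
      exact h1.trans_le (pow_le_pow_left₀ (hnn x) h3 m)
    · rw [min_eq_right h] at h3
      exact h2.trans_le (pow_le_pow_left₀ (hnn y) h3 m)
  -- support reduction
  set Pset : Set ℝ := {x | x ∈ Icc a0 b0 ∧ c < φ x ^ m} with hPset
  have hPne : Pset.Nonempty := by
    by_contra hemp
    rw [Set.not_nonempty_iff_eq_empty] at hemp
    have hle : ∀ x ∈ Ioo a0 b0, φ x ^ m ≤ c := by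
      intro x hx
      by_contra hcon
      have : x ∈ Pset := ⟨⟨hx.1.le, hx.2.le⟩, not_le.1 hcon⟩
      rw [hemp] at this; exact this
    rw [II_eq_zero hab0 hle, II_eq_zero hab0 hle] at hW
    linarith
  have hPbb : BddBelow Pset := ⟨a0, fun x hx => hx.1.1⟩
  have hPba : BddAbove Pset := ⟨b0, fun x hx => hx.1.2⟩
  set a := sInf Pset with ha
  set b := sSup Pset with hb
  have haa : a0 ≤ a := le_csInf hPne fun x hx => hx.1.1
  have hbb : b ≤ b0 := csSup_le hPne fun x hx => hx.1.2
  have hab : a ≤ b := by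
    obtain ⟨x, hx⟩ := hPne
    exact (csInf_le hPbb hx).trans (le_csSup hPba hx)
  have hAa : A ≤ a := ha0.1.trans haa
  have hbB : b ≤ B := hbb.trans hb0.2
  have hpos : ∀ x ∈ Ioo a b, c < φ x ^ m := by
    intro x hx
    obtain ⟨y, hy, hyx⟩ := exists_lt_of_csInf_lt hPne hx.1
    obtain ⟨z, hz, hxz⟩ := exists_lt_of_lt_csSup hPne hx.2
    exact hquasi y ⟨ha0.1.trans hy.1.1, hy.1.2.trans hb0.2⟩ z ⟨ha0.1.trans hz.1.1, hz.1.2.trans hb0.2⟩ x
      hyx.le hxz.le hy.2 hz.2
  have hred : ∀ G : ℝ → ℝ, Continuous G → II φ m G c a0 b0 = II φ m G c a b := by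
    intro G hG
    have hcG : Continuous fun x : ℝ => G x * max (φ x ^ m - c) 0 := by fun_prop
    have z1 : II φ m G c a0 a = 0 := II_eq_zero haa fun x hx => by
      by_contra hcon
      have : a ≤ x := csInf_le hPbb ⟨⟨hx.1.le, hx.2.le.trans (hab.trans hbb)⟩, not_le.1 hcon⟩
      linarith [hx.2]
    have z2 : II φ m G c b b0 = 0 := II_eq_zero hbb fun x hx => by
      by_contra hcon
      have : x ≤ b := le_csSup hPba ⟨⟨(haa.trans hab).trans hx.1.le, hx.2.le⟩, not_le.1 hcon⟩
      linarith [hx.1]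
    unfold II at z1 z2 ⊢
    rw [← intervalIntegral.integral_add_adjacent_intervals (hcG.intervalIntegrable a0 a)
      (hcG.intervalIntegrable a b0), ← intervalIntegral.integral_add_adjacent_intervals
      (hcG.intervalIntegrable a b) (hcG.intervalIntegrable b b0), z1, z2]
    ring
  rw [hred _ hg, hred _ continuous_const] at hW
  have hX : II φ m (fun x => x) c a b = 0 := by rw [← hred (fun x => x) continuous_id]; exact hX0
  have hab' : a < b := by
    rcases hab.lt_or_eq with h | h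
    · exact h
    · exfalso
      rw [h] at hW
      unfold II at hW
      rw [intervalIntegral.integral_same, intervalIntegral.integral_same] at hW
      linarith
  have hu : ∀ x ∈ Ioo a b, 0 < max (φ x ^ m - c) 0 := fun x hx =>
    lt_max_of_lt_left (by linarith [hpos x hx])
  have hcx : Continuous fun x : ℝ => x * max (φ x ^ m - c) 0 := by fun_prop
  have ha_neg : a < 0 := by
    by_contra hcon
    rw [not_lt] at hcon
    have := intervalIntegral.intervalIntegral_pos_of_pos_on (hcx.intervalIntegrable a b)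
      (fun x hx => mul_pos (lt_of_le_of_lt hcon hx.1) (hu x hx)) hab'
    unfold II at hX; linarith
  have hb_pos : 0 < b := by
    by_contra hcon
    rw [not_lt] at hcon
    have := intervalIntegral.intervalIntegral_pos_of_pos_on (hcx.neg.intervalIntegrable a b)
      (fun x hx => by
        have h1 : x < 0 := lt_of_lt_of_le hx.2 hcon
        have := mul_neg_of_neg_of_pos h1 (hu x hx)
        simpa using this) hab'
    simp only [Pi.neg_apply, intervalIntegral.integral_neg] at this
    unfold II at hX; linarith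
  -- closed interval
  have hcl : ∀ x ∈ Icc a b, c ≤ φ x ^ m := by
    have h1 : closure (Ioo a b) ⊆ {x | c ≤ φ x ^ m} :=
      closure_minimal (fun x hx => (hpos x hx).le) (isClosed_le continuous_const (hφ.pow m))
    rw [closure_Ioo hab'.ne] at h1
    exact h1
  obtain ⟨γ, hγ0, hγ⟩ : ∃ γ : ℝ, 0 ≤ γ ∧ γ ^ m = c :=
    ⟨c ^ ((m : ℝ)⁻¹), Real.rpow_nonneg hc.1 _, Real.rpow_inv_natCast_pow hc.1 (by omega)⟩
  have hge : ∀ x ∈ Icc a b, γ ≤ φ x := by
    intro x hx
    have := hcl x hx
    rw [← hγ] at this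
    exact le_of_pow_le_pow_left₀ (by omega) (hnn x) this
  have h0 : γ < φ 0 := by
    have := hpos 0 ⟨ha_neg, hb_pos⟩
    rw [← hγ] at this
    exact lt_of_pow_lt_pow_left₀ m (hnn 0) this
  have hcab : ConcaveOn ℝ (Icc a b) φ := hconc.subset (Icc_subset_Icc hAa hbB) (convex_Icc a b)
  have hcen' : ∫ x in a..b, x * (φ x ^ m - γ ^ m) = 0 := by
    rw [← hX]
    unfold II
    refine intervalIntegral.integral_congr fun x hx => ?_
    rw [uIcc_of_le hab] at hx
    simp only
    rw [hγ, max_eq_left (by linarith [hcl x hx])]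
  have r1 : b ≤ (m + 1) * (-a) := ratio ha_neg hb_pos hγ0 hφ hcab hge h0 hcen' hm
  have r2 : -a ≤ (m + 1) * b := by
    have hc' : ConcaveOn ℝ (Icc (-b) (-a)) (fun x => φ (-x)) := by
      refine ⟨convex_Icc _ _, fun x hx y hy u v hu hv huv => ?_⟩
      have := hcab.2 (⟨by linarith [hx.2], by linarith [hx.1]⟩ : -x ∈ Icc a b)
        (⟨by linarith [hy.2], by linarith [hy.1]⟩ : -y ∈ Icc a b) hu hv huv
      have e : -(u • x + v • y) = u • (-x) + v • (-y) := by simp only [smul_eq_mul]; ring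
      change u • φ (-x) + v • φ (-y) ≤ φ (-(u • x + v • y))
      rw [e]; exact this
    have hint : ∫ x in (-b)..(-a), x * (φ (-x) ^ m - γ ^ m) = 0 := by
      have h1 : ∫ x in (-b)..(-a), x * (φ (-x) ^ m - γ ^ m) =
          ∫ x in (-b)..(-a), (fun y => -(y * (φ y ^ m - γ ^ m))) (-x) := by
        refine intervalIntegral.integral_congr fun x _ => ?_
        simp
      rw [h1, intervalIntegral.integral_comp_neg (fun y => -(y * (φ y ^ m - γ ^ m))), neg_neg, neg_neg,
        intervalIntegral.integral_neg, hcen', neg_zero]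
    have := ratio (a := -b) (b := -a) (by linarith) (by linarith) hγ0 (hφ.comp continuous_neg) hc'
      (fun x hx => hge (-x) ⟨by linarith [hx.2], by linarith [hx.1]⟩) (by simpa using h0) hint hm
    simpa using this
  -- the multiplier
  set lam := -(κ + g b) / b with hlam
  set F : ℝ → ℝ := fun x => g x + κ + lam * x with hF
  have hFc : Continuous F := by fun_prop
  have hFb : F b = 0 := by simp only [hF, hlam]; field_simp; ring
  have hfeas' : Feas (m + 2) a b (fun x => g x + lam * x) := by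
    intro x hx hs
    have h1 := hfeas x (fun i => ⟨hAa.trans (hx i).1, (hx i).2.trans hbB⟩) hs
    have h2 : ∑ i, (g (x i) + lam * x i) = ∑ i, g (x i) := by
      rw [Finset.sum_add_distrib, ← Finset.mul_sum, hs, mul_zero, add_zero]
    rw [h2]; exact h1
  have hlay := layer hm ha_neg hb_pos r2 r1 (g := fun x => g x + lam * x) (by fun_prop) hfeas'
  have hintF : ∫ x in a..b, (g x + lam * x) = (∫ x in a..b, F x) - κ * (b - a) := by
    have : (fun x => g x + lam * x) = fun x => F x - κ := by funext x; simp only [hF]; ring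
    rw [this, intervalIntegral.integral_sub (hFc.intervalIntegrable _ _) intervalIntegrable_const,
      intervalIntegral.integral_const, smul_eq_mul]
    ring
  rw [hintF] at hlay
  have ega : g a + lam * a = F a - κ := by simp only [hF]; ring
  have egb : g b + lam * b = -κ := by
    have : g b + lam * b = F b - κ := by simp only [hF]; ring
    rw [this, hFb]; ring
  rw [ega, egb] at hlay
  set p := ((m : ℝ) + 1) * b + a with hp
  set q := ((m : ℝ) + 1) * (-a) - b with hq
  have hp0 : 0 ≤ p := by rw [hp]; linarith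
  have hq0 : 0 ≤ q := by rw [hq]; linarith
  set v := 2 * (∫ x in a..b, F x) + p * F a with hv
  have hv0 : 0 < v := by
    have h1 : 0 < κ * (b - a) := mul_pos hκ0 (by linarith)
    have h2 : 0 ≤ κ * p := mul_nonneg hκ0.le hp0
    have h3 : 0 ≤ κ * q := mul_nonneg hκ0.le hq0
    rw [hv]; nlinarith
  set s := v / (|F a| + 1) with hs
  have hs0 : 0 < s := by positivity
  have hsF : s * |F a| < v := by
    rw [hs, div_mul_eq_mul_div, div_lt_iff₀ (by positivity)]
    nlinarith [abs_nonneg (F a)]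
  have hsF' : -v < s * F a := by
    have h1 : -|F a| ≤ F a := neg_abs_le _
    have h2 := mul_le_mul_of_nonneg_left h1 hs0.le
    linarith
  have hH1 : 0 < (∫ x in a..b, F x) + (p + s) / 2 * F a := by
    rw [hv] at hsF'; nlinarith
  have hH2 : 0 < -(a * ((p + s) / 2)) - (b ^ 2 - a ^ 2) / 2 := by
    have e : -(a * ((p + s) / 2)) - (b ^ 2 - a ^ 2) / 2 = (b * q + s * (-a)) / 2 := by
      rw [hp, hq]; ring
    rw [e]
    have h1 : 0 ≤ b * q := mul_nonneg hb_pos.le hq0
    have h2 : 0 < s * (-a) := mul_pos hs0 (by linarith)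
    linarith
  obtain ⟨δ, hδ, a', b', q1, q2, q3, q4, q5, q6⟩ := step ha_neg hb_pos (h := fun x => φ x ^ m - c)
    (by fun_prop) hFc (fun x hx => by linarith [hpos x hx]) hX hFb (P := (p + s) / 2)
    (by linarith) hH1 hH2
  have hcd : ∀ x, φ x ^ m - c - δ = φ x ^ m - (c + δ) := fun x => by ring
  simp only [hcd] at q5 q6
  have hlin : ∀ c' u w : ℝ, II φ m F c' u w =
      II φ m g c' u w + κ * II φ m (fun _ => 1) c' u w + lam * II φ m (fun x => x) c' u w := by
    intro c' u w
    unfold II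
    have c1 : Continuous fun x : ℝ => max (φ x ^ m - c') 0 := by fun_prop
    rw [← intervalIntegral.integral_const_mul, ← intervalIntegral.integral_const_mul,
      ← intervalIntegral.integral_add, ← intervalIntegral.integral_add]
    · refine intervalIntegral.integral_congr fun x _ => ?_
      simp only [hF]; ring
    · exact ((hg.mul c1).add ((continuous_const.mul c1).const_mul κ)).intervalIntegrable _ _
    · exact ((continuous_id.mul c1).const_mul lam).intervalIntegrable _ _
    · exact (hg.mul c1).intervalIntegrable _ _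
    · exact ((continuous_const.mul c1).const_mul κ).intervalIntegrable _ _
  have hX' : II φ m (fun x => x) (c + δ) a' b' = 0 := q5
  have hF1 : II φ m F (c + δ) a' b' ≤ II φ m F c a b := q6
  rw [hlin, hlin, hX, hX'] at hF1
  simp only [mul_zero, add_zero] at hF1
  have hnewW := hF1.trans hW
  have hcC : c + δ ≤ Cm := by
    by_contra hcon
    rw [not_le] at hcon
    have hle : ∀ x ∈ Ioo a' b', φ x ^ m ≤ c + δ := fun x hx =>
      (hCm x ⟨hAa.trans (q1.trans hx.1.le), (hx.2.le.trans q4).trans hbB⟩).trans hcon.le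
    rw [II_eq_zero (q2.trans q3) hle, II_eq_zero (q2.trans q3) hle] at hnewW
    linarith
  have hnew : (c + δ, a', b') ∈ S := by
    refine ⟨⟨⟨by linarith [hc.1], hcC⟩, ⟨hAa.trans q1, q2⟩, ⟨q3, q4.trans hbB⟩⟩, hX', hnewW⟩
  have := hmax' _ _ _ hnew
  linarith

end Pool.Agent.Lib.MP_a34d76_pr.OneDim
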