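import Mathlib
import Pool.Agent.Lib.MP_a34d76_pr.Coupling

/-!
# Uniform distributions on convex sets are completely mixable once `n ≥ 50 d⁴`

The proof is by duality: it suffices that a continuous `g` with `∑ g (x i) ≥ 0` for all zero-sum
configurations in the closure of the centred set has nonnegative mean.  If not, look at the contact
points of the concave envelope of `-g` at the origin: most of the `n` points are put at contact
points, the others form a recentred and slightly shrunk iid sample which corrects the rounding.
-/

open MeasureTheory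

namespace Pool.Agent.Lib.MP_a34d76_pr.PolynomialNumber

/-- For every convex set `C` in `ℝ^d`, `d ≥ 1`, of positive finite volume and every `n ≥ 50 d⁴`
there are `n` random vectors, each uniform on `C`, whose sum is almost surely constant. -/
theorem result (d : ℕ) (hd : 1 ≤ d) (C : Set (Fin d → ℝ)) (hC : Convex ℝ C)
    (h0 : 0 < volume C) (h1 : volume C < ⊤) (n : ℕ) (hn : 50 * d ^ 4 ≤ n) :
    ∃ P : Measure (Fin n → (Fin d → ℝ)),
      IsProbabilityMeasure P ∧
      (∀ i : Fin n, P.map (fun x : Fin n → (Fin d → ℝ) => x i)
        = (volume C)⁻¹ • volume.restrict C) ∧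
      ∃ c : Fin d → ℝ, ∀ᵐ x ∂P, (∑ i, x i) = c := by
  have hd4 : 1 ≤ d ^ 4 := Nat.one_le_pow _ _ hd
  exact Lib.MP_a34d76_pr.mixable_of_dual hC h0.ne' h1.ne (by omega)
    fun C' hC' h0' h1' hcen _ g hg =>
      Lib.MP_a34d76_pr.dual_ineq hC' h0' h1' hcen hd hn g hg

end Pool.Agent.Lib.MP_a34d76_pr.PolynomialNumber
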